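import Pool.Agent.H37.LT.PrB
import Pool.Agent.H48.NE.Mxw

/-!
# Module PrC: the slice lemma in terms of the regularized entropy production

* `dv_Dn`: `G = g + δ gau`, `δ ≤ 1`, is `Gd` (`gd_reg`), `G ≤ Cl 0 + 1`; `dv_Pc` with `M = Cl 0 + 1`; `Pc_lim`: for `ε' → 0` eventually `Pc γ b ε' G ≤ Dn γ b δ g + η`; take one such `ε' ≤ ε₀`.
* `slice_lin` from the hypothesis `hS` (this is `slice_eps`, the theorem of helper19's folder): for `ε` take `η` of `hS`, and `K = C/η`, where `C = C(Cl) + ∫ mx ≥ ∫ |G - mx|` (`∫ G ≤ Cl (d+1) ∫ wt`): if `dv G ≤ η` and `md ≤ η`, done; otherwise `K (dv + md) ≥ C` (both are `≥ 0`).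
* `slice_f`: `G = g + δ gau` is `SC Cl₁ m` with `Cl₁ N = Cl N + c_N`, `c_N = sup (1+|v|)^N gau` (bounded). `∫ |g - mx| ≤ ∫ |G - mx| + δ ∫ gau`, `md G mx ≤ md g mx + δ C_d`, `C_d = ∫ gau + ∑ ∫ gau |v_i| + ∫ gau nsq` (triangle inequality; integrability from the decay). `slice_lin` with `ε/3` gives `K₁`; `dv_Dn` with `ε/(3 (K₁+1))` gives `K₂`; `δ₀` small with `δ₀ (∫ gau + K₁ C_d) ≤ ε/3`; `K = K₁ (K₂ + 1)`, use that `0 ≤ dv`, and for the terms multiplied by `K` that `Dn + η ≥ 0` (`Pc_lim` with `η`: `-η ≤ Dn`) and `md ≥ 0`.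
-/

set_option autoImplicit false

open MeasureTheory Set Filter Topology Pool.Agent.H25.Kin Pool.Agent.H87.PE
open Pool.Agent.H15.AV (gau UNice)
open Pool.Agent.H82.CM (HypL)
open Pool.Agent.H48.PI (Dn)
open Pool.Agent.H48.NE (mx)

namespace Pool.Agent.H37.LT

variable {d : ℕ} {γ s C Ca cb : ℝ} {b : ℝ → ℝ}

private lemma PrC_int {F : Vec d → ℝ} (hF : Continuous F) {c : ℝ}
    (h : ∀ v, (1 + ‖v‖) ^ (d + 1) * |F v| ≤ c) : Integrable F := by
  refine Integrable.mono' ((integrable_wt (d := d)).const_mul c) hF.aestronglyMeasurable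
    (Eventually.of_forall fun v => ?_)
  have hn := norm_nonneg v
  have hp : 0 < (1 + ‖v‖) ^ (d + 1) := by positivity
  rw [Real.norm_eq_abs]
  unfold wt
  rw [← div_eq_mul_inv, le_div_iff₀ hp, mul_comm]
  exact h v

private lemma PrC_ints {Cl : ℕ → ℝ} {F : Vec d → ℝ} (hF : Continuous F) (h0 : ∀ v, 0 ≤ F v)
    (h : ∀ (N : ℕ) (v : Vec d), (1 + ‖v‖) ^ N * F v ≤ Cl N) :
    Integrable F ∧ (∀ i, Integrable fun v => F v * v i) ∧ Integrable fun v => F v * nsq v := by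
  refine ⟨PrC_int hF (c := Cl (d + 1)) fun v => ?_,
    fun i => PrC_int (hF.mul (continuous_apply i)) (c := Cl (d + 2)) fun v => ?_,
    PrC_int (hF.mul continuous_sq) (c := d * Cl (d + 3)) fun v => ?_⟩
  · rw [abs_of_nonneg (h0 v)]
    exact h _ v
  · have hn := norm_nonneg v
    have h1 : |v i| ≤ 1 + ‖v‖ := by
      have h2 := norm_le_pi_norm v i
      rw [Real.norm_eq_abs] at h2
      linarith
    have h3 := h0 v
    rw [abs_mul, abs_of_nonneg h3]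
    calc (1 + ‖v‖) ^ (d + 1) * (F v * |v i|) ≤ (1 + ‖v‖) ^ (d + 1) * (F v * (1 + ‖v‖)) := by
          gcongr
      _ = (1 + ‖v‖) ^ (d + 2) * F v := by ring
      _ ≤ _ := h _ v
  · have hn := norm_nonneg v
    have h1 : nsq v ≤ d * (1 + ‖v‖) ^ 2 := by
      have h2 := sq_le v
      have h4 : (0 : ℝ) ≤ d := Nat.cast_nonneg _
      nlinarith [mul_nonneg h4 hn]
    have h3 := h0 v
    have h5 := sq_nonneg' v
    rw [abs_mul, abs_of_nonneg h3, abs_of_nonneg h5]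
    calc (1 + ‖v‖) ^ (d + 1) * (F v * nsq v) ≤
          (1 + ‖v‖) ^ (d + 1) * (F v * (d * (1 + ‖v‖) ^ 2)) := by
          gcongr
      _ = d * ((1 + ‖v‖) ^ (d + 3) * F v) := by ring
      _ ≤ _ := mul_le_mul_of_nonneg_left (h _ v) (Nat.cast_nonneg _)

private lemma PrC_gau : (gau : Vec d → ℝ) = mx 1 1 0 := by
  funext v
  unfold gau mx
  simp

private lemma PrC_gau_nn (v : Vec d) : 0 ≤ gau v := (Real.exp_pos _).le

private lemma PrC_gau_le (v : Vec d) : gau v ≤ 1 := by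
  unfold gau
  rw [← Real.exp_zero]
  exact Real.exp_le_exp.2 (by linarith [sq_nonneg' v])

private lemma PrC_gau_dec : ∃ Cg : ℕ → ℝ, Continuous (gau : Vec d → ℝ) ∧
    ∀ (N : ℕ) (v : Vec d), (1 + ‖v‖) ^ N * gau v ≤ Cg N := by
  obtain ⟨Cg, h⟩ := Pool.Agent.H48.NE.mx_FB (d := d) one_pos one_pos 0
  refine ⟨Cg, ?_, ?_⟩
  · rw [PrC_gau]; exact h.nice.cont
  · rw [PrC_gau]; exact h.le

private lemma PrC_dv_nn (G : Vec d → ℝ) : 0 ≤ dv G := by
  unfold dv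
  refine integral_nonneg fun p => ?_
  exact mul_nonneg (sq_nonneg _) (mul_nonneg (PrC_gau_nn _) (PrC_gau_nn _))

private lemma PrC_md_nn (g μ : Vec d → ℝ) : 0 ≤ md g μ := by
  unfold md
  have h1 : 0 ≤ ∑ i, |(∫ v, g v * v i) - ∫ v, μ v * v i| := Finset.sum_nonneg fun i _ => abs_nonneg _
  have h2 := abs_nonneg ((∫ v, g v) - ∫ v, μ v)
  have h3 := abs_nonneg ((∫ v, g v * nsq v) - ∫ v, μ v * nsq v)
  linarith

theorem dv_Dn (HL : HypL d γ s b C Ca cb) (hγ : 0 ≤ γ) (Cl : ℕ → ℝ) {ε : ℝ} (hε : 0 < ε) :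
    ∃ K : ℝ, 0 ≤ K ∧ ∀ (Cl' : ℕ → ℝ) (η : ℝ), 0 < η → ∃ δ₀ > 0, δ₀ ≤ 1 / 2 ∧ ∀ δ ∈ Ioc (0 : ℝ) δ₀,
      ∀ g : Vec d → ℝ, UNice Cl' g → (∀ (N : ℕ) (v : Vec d), (1 + ‖v‖) ^ N * g v ≤ Cl N) →
      dv (fun v => g v + δ * gau v) ≤ ε + K * (Dn γ b δ g + η) := by
  obtain ⟨K, ε₀, hK, hε₀, h⟩ := dv_Pc HL hγ (Cl 0 + 1) hε
  refine ⟨K, hK, fun Cl' η hη => ?_⟩
  obtain ⟨δ₀, hδ₀, hδ₀h, hP⟩ := Pc_lim HL.H Cl' hη
  refine ⟨δ₀, hδ₀, hδ₀h, fun δ hδ g hg hl => ?_⟩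
  have hev := (hP δ hδ g hg).2
  have hδ1 : δ ≤ 1 := by linarith [hδ.2]
  have hGd := gd_reg hg hδ.1 hδ1
  have hev2 : ∀ᶠ ε' in 𝓝[>] (0 : ℝ), ε' ∈ Ioc 0 ε₀ := Ioc_mem_nhdsGT hε₀
  obtain ⟨ε', h1, h2⟩ := (hev.and hev2).exists
  have h3 := h (fun v => g v + δ * gau v) hGd (fun v => by
    have h4 := hl 0 v
    rw [pow_zero, one_mul] at h4
    have h5 := PrC_gau_le v
    have h6 := PrC_gau_nn v
    have h7 : δ * gau v ≤ 1 := mul_le_one₀ hδ1 h6 h5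
    show g v + δ * gau v ≤ Cl 0 + 1
    linarith) ε' h2.1 h2.2
  have h8 := mul_le_mul_of_nonneg_left h1 hK
  linarith

/-- the slice lemma (statement of `slice_eps`) -/
def SliceEps (d : ℕ) : Prop := ∀ (Cl : ℕ → ℝ) (m : ℝ), 0 < m → ∀ a k : ℝ, 0 < a → 0 < k →
  ∀ (u : Vec d) (ε : ℝ), 0 < ε → ∃ η > 0, ∀ G : Vec d → ℝ, SC Cl m G → dv G ≤ η →
    md G (mx a k u) ≤ η → ∫ v, |G v - mx a k u v| ≤ ε

theorem slice_lin (hS : SliceEps d) (Cl : ℕ → ℝ) {m : ℝ} (hm : 0 < m) {a k : ℝ} (ha : 0 < a)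
    (hk : 0 < k) (u : Vec d) {ε : ℝ} (hε : 0 < ε) : ∃ K : ℝ, 0 ≤ K ∧ ∀ G : Vec d → ℝ, SC Cl m G →
      ∫ v, |G v - mx a k u v| ≤ ε + K * (dv G + md G (mx a k u)) := by
  obtain ⟨η, hη, h⟩ := hS Cl m hm a k ha hk u ε hε
  obtain ⟨Cm, hCm⟩ := Pool.Agent.H48.NE.mx_FB (d := d) ha hk u
  obtain ⟨hmi, -, -⟩ := PrC_ints hCm.nice.cont hCm.nonneg hCm.le
  have hI0 : 0 ≤ ∫ z, wt d z := integral_nonneg fun z => wt_nonneg z
  have hM0 : 0 ≤ ∫ v, mx a k u v := integral_nonneg fun v => hCm.nonneg v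
  obtain ⟨C₀, hC₀⟩ : ∃ C₀ : ℝ, C₀ = |Cl (d + 1)| * (∫ z, wt d z) + ∫ v, mx a k u v := ⟨_, rfl⟩
  have hC₀0 : 0 ≤ C₀ := by
    rw [hC₀]
    exact add_nonneg (mul_nonneg (abs_nonneg _) hI0) hM0
  refine ⟨C₀ / η, div_nonneg hC₀0 hη.le, fun G hG => ?_⟩
  have hdv := PrC_dv_nn G
  have hmd := PrC_md_nn G (mx a k u)
  have hK0 : 0 ≤ C₀ / η := div_nonneg hC₀0 hη.le
  have hprod : 0 ≤ C₀ / η * (dv G + md G (mx a k u)) := mul_nonneg hK0 (add_nonneg hdv hmd)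
  by_cases hc : dv G ≤ η ∧ md G (mx a k u) ≤ η
  · have h1 := h G hG hc.1 hc.2
    linarith
  · have h2 : η ≤ dv G + md G (mx a k u) := by
      rw [not_and_or, not_le, not_le] at hc
      rcases hc with hc | hc <;> linarith
    obtain ⟨hGi, -, -⟩ := PrC_ints hG.cont hG.nn hG.le
    have h3 : ∫ v, |G v - mx a k u v| ≤ ∫ v, (G v + mx a k u v) := by
      refine integral_mono (hGi.sub hmi).abs (hGi.add hmi) fun v => ?_
      have e1 := hG.nn v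
      have e2 := hCm.nonneg v
      show |G v - mx a k u v| ≤ G v + mx a k u v
      rw [abs_le]
      constructor <;> linarith
    rw [integral_add hGi hmi] at h3
    have h4 : ∫ v, G v ≤ |Cl (d + 1)| * ∫ z, wt d z := by
      rw [← integral_const_mul]
      refine integral_mono hGi (integrable_wt.const_mul _) fun v => ?_
      have hn := norm_nonneg v
      have hp : 0 < (1 + ‖v‖) ^ (d + 1) := by positivity
      show G v ≤ |Cl (d + 1)| * wt d v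
      unfold wt
      rw [← div_eq_mul_inv, le_div_iff₀ hp, mul_comm]
      exact (hG.le _ v).trans (le_abs_self _)
    have h5 : C₀ ≤ C₀ / η * (dv G + md G (mx a k u)) := by
      calc C₀ = C₀ / η * η := by field_simp
        _ ≤ C₀ / η * (dv G + md G (mx a k u)) := mul_le_mul_of_nonneg_left h2 hK0
    rw [hC₀] at h5
    rw [hC₀]
    linarith

theorem slice_f (HL : HypL d γ s b C Ca cb) (hγ : 0 ≤ γ) (hS : SliceEps d) (Cl : ℕ → ℝ) {m : ℝ}
    (hm : 0 < m) {a k : ℝ} (ha : 0 < a) (hk : 0 < k) (u : Vec d) {ε : ℝ} (hε : 0 < ε) :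
    ∃ K : ℝ, 0 ≤ K ∧ ∀ (Cl' : ℕ → ℝ) (η : ℝ), 0 < η → ∃ δ₀ > 0, ∀ δ ∈ Ioc (0 : ℝ) δ₀,
      ∀ g : Vec d → ℝ, UNice Cl' g → (∀ (N : ℕ) (v : Vec d), (1 + ‖v‖) ^ N * g v ≤ Cl N) →
      m ≤ ∫ v, g v →
      ∫ v, |g v - mx a k u v| ≤ ε + K * (Dn γ b δ g + η + md g (mx a k u)) := by
  obtain ⟨Cg, hgc, hgd⟩ := PrC_gau_dec (d := d)
  obtain ⟨gi0, gi1, gi2⟩ := PrC_ints hgc PrC_gau_nn hgd
  obtain ⟨Cm, hCm⟩ := Pool.Agent.H48.NE.mx_FB (d := d) ha hk u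
  obtain ⟨mi0, -, -⟩ := PrC_ints hCm.nice.cont hCm.nonneg hCm.le
  have hCg0 : ∀ N, 0 ≤ Cg N := fun N =>
    (mul_nonneg (by have := norm_nonneg (0 : Vec d); positivity) (PrC_gau_nn (0 : Vec d))).trans
      (hgd N 0)
  obtain ⟨K₁, hK₁, h₁⟩ := slice_lin hS (fun N => Cl N + Cg N) hm ha hk u
    (show 0 < ε / 3 by positivity)
  obtain ⟨K₂, hK₂, h₂⟩ := dv_Dn HL hγ Cl (show 0 < ε / (3 * (K₁ + 1)) by positivity)
  obtain ⟨Ig, hIg⟩ : ∃ Ig : ℝ, Ig = ∫ v : Vec d, gau v := ⟨_, rfl⟩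
  have hIg0 : 0 ≤ Ig := by rw [hIg]; exact integral_nonneg fun v => PrC_gau_nn v
  obtain ⟨Jg, hJg⟩ : ∃ Jg : ℝ, Jg = ∫ v : Vec d, gau v * nsq v := ⟨_, rfl⟩
  have hJg0 : 0 ≤ Jg := by
    rw [hJg]; exact integral_nonneg fun v => mul_nonneg (PrC_gau_nn v) (sq_nonneg' v)
  obtain ⟨Cd, hCd⟩ : ∃ Cd : ℝ, Cd = Ig + (∑ i, |∫ v : Vec d, gau v * v i|) + Jg := ⟨_, rfl⟩
  have hCd0 : 0 ≤ Cd := by
    rw [hCd]
    have : 0 ≤ ∑ i, |∫ v : Vec d, gau v * v i| := Finset.sum_nonneg fun i _ => abs_nonneg _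
    linarith
  refine ⟨K₁ * (K₂ + 1), by positivity, fun Cl' η hη => ?_⟩
  obtain ⟨δa, hδa, hδah, hA⟩ := h₂ Cl' η hη
  obtain ⟨δb, hδb, -, hB⟩ := Pc_lim HL.H Cl' hη
  have hden : 0 < 3 * (Ig + K₁ * Cd + 1) := by
    have := mul_nonneg hK₁ hCd0
    linarith
  refine ⟨min δa (min δb (ε / (3 * (Ig + K₁ * Cd + 1)))),
    lt_min hδa (lt_min hδb (div_pos hε hden)), fun δ hδ g hg hl hmass => ?_⟩
  have hδ0 : 0 < δ := hδ.1
  have hδ1 : δ ≤ δa := hδ.2.trans (min_le_left _ _)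
  have hδ2 : δ ≤ δb := hδ.2.trans ((min_le_right _ _).trans (min_le_left _ _))
  have hδ3 : δ * (Ig + K₁ * Cd) ≤ ε / 3 := by
    have h1 : δ ≤ ε / (3 * (Ig + K₁ * Cd + 1)) :=
      hδ.2.trans ((min_le_right _ _).trans (min_le_right _ _))
    rw [le_div_iff₀ hden] at h1
    linarith
  have hδh : δ ≤ 1 := by linarith
  have hgcont : Continuous g := hg.nice.cont
  obtain ⟨g0, g1, g2⟩ := PrC_ints hgcont hg.nonneg hl
  have hSC : SC (fun N => Cl N + Cg N) m (fun v => g v + δ * gau v) := by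
    refine ⟨hgcont.add (hgc.const_mul δ), fun v => ?_, fun N v => ?_, ?_⟩
    · exact add_nonneg (hg.nonneg v) (mul_nonneg hδ0.le (PrC_gau_nn v))
    · have e1 := hl N v
      have e2 := hgd N v
      have e3 := hCg0 N
      have e4 : δ * ((1 + ‖v‖) ^ N * gau v) ≤ 1 * Cg N := mul_le_mul hδh e2
        (mul_nonneg (by have := norm_nonneg v; positivity) (PrC_gau_nn v)) zero_le_one
      show (1 + ‖v‖) ^ N * (g v + δ * gau v) ≤ Cl N + Cg N
      calc (1 + ‖v‖) ^ N * (g v + δ * gau v)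
          = (1 + ‖v‖) ^ N * g v + δ * ((1 + ‖v‖) ^ N * gau v) := by ring
        _ ≤ Cl N + Cg N := by linarith
    · rw [integral_add g0 (gi0.const_mul δ), integral_const_mul, ← hIg]
      have := mul_nonneg hδ0.le hIg0
      linarith
  have r1 := h₁ (fun v => g v + δ * gau v) hSC
  have r2 := hA δ ⟨hδ0, hδ1⟩ g hg hl
  have r3 := (hB δ ⟨hδ0, hδ2⟩ g hg).1
  have r4 : ∫ v, |g v - mx a k u v| ≤ (∫ v, |g v + δ * gau v - mx a k u v|) + δ * Ig := by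
    have hi : Integrable (fun v : Vec d => |g v + δ * gau v - mx a k u v|) :=
      ((g0.add (gi0.const_mul δ)).sub mi0).abs
    have hj : Integrable (fun v : Vec d => δ * gau v) := gi0.const_mul δ
    rw [hIg, ← integral_const_mul, ← integral_add hi hj]
    refine integral_mono (g0.sub mi0).abs (hi.add hj) fun v => ?_
    show |g v - mx a k u v| ≤ |g v + δ * gau v - mx a k u v| + δ * gau v
    have e1 : g v - mx a k u v = (g v + δ * gau v - mx a k u v) - δ * gau v := by ring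
    have e2 : 0 ≤ δ * gau v := mul_nonneg hδ0.le (PrC_gau_nn v)
    calc |g v - mx a k u v| = |(g v + δ * gau v - mx a k u v) - δ * gau v| := by rw [← e1]
      _ ≤ |g v + δ * gau v - mx a k u v| + |δ * gau v| := abs_sub _ _
      _ = |g v + δ * gau v - mx a k u v| + δ * gau v := by rw [abs_of_nonneg e2]
  have r5 : md (fun v => g v + δ * gau v) (mx a k u) ≤ md g (mx a k u) + δ * Cd := by
    unfold md
    have t0 : ∫ v, (g v + δ * gau v) = (∫ v, g v) + δ * Ig := by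
      rw [integral_add g0 (gi0.const_mul δ), integral_const_mul, ← hIg]
    have t1 : ∀ i, ∫ v, (g v + δ * gau v) * v i = (∫ v, g v * v i) + δ * ∫ v, gau v * v i := by
      intro i
      rw [← integral_const_mul, ← integral_add (g1 i) ((gi1 i).const_mul δ)]
      refine integral_congr_ae (Eventually.of_forall fun v => ?_)
      show (g v + δ * gau v) * v i = g v * v i + δ * (gau v * v i)
      ring
    have t2 : ∫ v, (g v + δ * gau v) * nsq v = (∫ v, g v * nsq v) + δ * Jg := by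
      rw [hJg, ← integral_const_mul, ← integral_add g2 (gi2.const_mul δ)]
      refine integral_congr_ae (Eventually.of_forall fun v => ?_)
      show (g v + δ * gau v) * nsq v = g v * nsq v + δ * (gau v * nsq v)
      ring
    have aux : ∀ x y z : ℝ, |x + δ * y - z| ≤ |x - z| + δ * |y| := by
      intro x y z
      have e1 : x + δ * y - z = (x - z) + δ * y := by ring
      rw [e1]
      refine (abs_add_le _ _).trans ?_
      rw [abs_mul, abs_of_pos hδ0]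
    have s0 := aux (∫ v, g v) Ig (∫ v, mx a k u v)
    have s2 := aux (∫ v, g v * nsq v) Jg (∫ v, mx a k u v * nsq v)
    have s1 : ∑ i, |(∫ v, (g v + δ * gau v) * v i) - ∫ v, mx a k u v * v i| ≤
        (∑ i, |(∫ v, g v * v i) - ∫ v, mx a k u v * v i|) +
          δ * ∑ i, |∫ v : Vec d, gau v * v i| := by
      rw [Finset.mul_sum, ← Finset.sum_add_distrib]
      refine Finset.sum_le_sum fun i _ => ?_
      rw [t1 i]
      exact aux _ _ _
    rw [abs_of_nonneg hIg0] at s0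
    rw [abs_of_nonneg hJg0] at s2
    rw [t0, t2, hCd]
    linarith
  have hmd := PrC_md_nn g (mx a k u)
  have q1 : K₁ * (dv (fun v => g v + δ * gau v) + md (fun v => g v + δ * gau v) (mx a k u)) ≤
      K₁ * ((ε / (3 * (K₁ + 1)) + K₂ * (Dn γ b δ g + η)) + (md g (mx a k u) + δ * Cd)) :=
    mul_le_mul_of_nonneg_left (add_le_add r2 r5) hK₁
  have q2 : K₁ * (ε / (3 * (K₁ + 1))) ≤ ε / 3 := by
    rw [mul_div_assoc', div_le_div_iff₀ (by positivity) (by norm_num)]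
    nlinarith
  have q3 : 0 ≤ K₁ * (Dn γ b δ g + η) := mul_nonneg hK₁ (by linarith)
  have q4 : 0 ≤ K₁ * K₂ * md g (mx a k u) := mul_nonneg (mul_nonneg hK₁ hK₂) hmd
  have q5 : K₁ * (K₂ + 1) * (Dn γ b δ g + η + md g (mx a k u)) =
      K₁ * (K₂ * (Dn γ b δ g + η)) + K₁ * (Dn γ b δ g + η) + K₁ * K₂ * md g (mx a k u) +
        K₁ * md g (mx a k u) := by ring
  have q6 : K₁ * ((ε / (3 * (K₁ + 1)) + K₂ * (Dn γ b δ g + η)) + (md g (mx a k u) + δ * Cd)) =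
      K₁ * (ε / (3 * (K₁ + 1))) + K₁ * (K₂ * (Dn γ b δ g + η)) + K₁ * md g (mx a k u) +
        δ * (K₁ * Cd) := by ring
  have q7 : δ * (Ig + K₁ * Cd) = δ * Ig + δ * (K₁ * Cd) := by ring
  rw [q5]
  rw [q6] at q1
  rw [q7] at hδ3
  linarith

end Pool.Agent.H37.LT
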