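import Pool.Agent.H87.PE.Tra
import Pool.Agent.H48.CV.Defs

/-!
# Block P1 (`l1_time`): definitions (MP_c15324_an, THEOREM G)

Paper: /team-store/h37_l1time.md. `gau v = exp(-|v|²)`, `mu3 d = dv dw dσ`, `v' = post v w σ`, `w' = post' v w σ`, `surf d` = surface measure of the unit sphere.
-/

set_option autoImplicit false

open MeasureTheory Set Filter Topology Pool.Agent.H25.Kin
open Pool.Agent.H15.AV (gau UNice)

namespace Pool.Agent.H37.LT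

variable {d : ℕ}

/-- continuous nonnegative functions with bounds `Cl` and mass at least `m` -/
structure SC (Cl : ℕ → ℝ) (m : ℝ) (G : Vec d → ℝ) : Prop where
  cont : Continuous G
  nn : ∀ v, 0 ≤ G v
  le : ∀ (N : ℕ) (v : Vec d), (1 + ‖v‖) ^ N * G v ≤ Cl N
  mass : m ≤ ∫ v, G v

/-- continuous functions with `0 ≤ k ≤ K gau` and mass at least `c` -/
structure KC (K c : ℝ) (k : Vec d → ℝ) : Prop where
  cont : Continuous k
  nn : ∀ v, 0 ≤ k v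
  le : ∀ v, k v ≤ K * gau v
  mass : c ≤ ∫ v, k v

/-- `√G exp(-|v|²)` -/
noncomputable def kt (G : Vec d → ℝ) (v : Vec d) : ℝ := Real.sqrt (G v) * gau v

/-- `√(G(v')G(w')) - √(G(v)G(w))` -/
noncomputable def rG (G : Vec d → ℝ) (p : Vec d × Vec d × Vec d) : ℝ :=
  Real.sqrt (G (post p.1 p.2.1 p.2.2) * G (post' p.1 p.2.1 p.2.2)) - Real.sqrt (G p.1 * G p.2.1)

/-- `∭ (√(G(v')G(w')) - √(G(v)G(w)))² exp(-|v|²-|w|²) dσ dw dv` -/
noncomputable def dv (G : Vec d → ℝ) : ℝ := ∫ p, rG G p ^ 2 * (gau p.1 * gau p.2.1) ∂(mu3 d)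

/-- `k` almost satisfies the functional equation `k(v)k(w) = k(v')k(w')`, weakly, with error `D` -/
def Fw (D : ℝ) (k : Vec d → ℝ) : Prop :=
  ∀ (B : ℝ) (Ψ : Vec d × Vec d → ℝ), Continuous Ψ → (∀ q, |Ψ q| ≤ B) →
    |∫ p, k p.1 * k p.2.1 * (Ψ (p.1, p.2.1) -
      Ψ (post p.1 p.2.1 p.2.2, post' p.1 p.2.1 p.2.2)) ∂(mu3 d)| ≤ D * B

/-- the weight `exp(-|v|²/4)` -/
noncomputable def wg (v : Vec d) : ℝ := Real.exp (-(nsq v / 4))

/-- the autocorrelation `∫ U(m) U(m+ζ) dm` -/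
noncomputable def Ac (U : Vec d → ℝ) (ζ : Vec d) : ℝ := ∫ m, U m * U (m + ζ)

/-- `exp(-a|v|² + 2a p·v)` -/
noncomputable def eN (a : ℝ) (p v : Vec d) : ℝ := Real.exp (-(a * nsq v) + 2 * a * dot p v)

/-- `∫ k(v) exp(-a|v|² + 2a p·v) dv` -/
noncomputable def NN (a : ℝ) (k : Vec d → ℝ) (p : Vec d) : ℝ := ∫ v, k v * eN a p v

/-- the mean velocity of the density `k exp(-a|v|² + 2a p·v)` -/
noncomputable def mN (a : ℝ) (k : Vec d → ℝ) (p : Vec d) : Vec d :=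
  fun i => (∫ v, v i * (k v * eN a p v)) / NN a k p

/-- quadratic functions with scalar Hessian: `α + β·v + κ|v|²` -/
noncomputable def qd (α : ℝ) (β : Vec d) (κ : ℝ) (v : Vec d) : ℝ := α + dot β v + κ * nsq v

/-- Gaussian average `∫ k(v) exp(-a|v-p|²) dv / ∫ exp(-a|v|²) dv` -/
noncomputable def ga (a : ℝ) (k : Vec d → ℝ) (p : Vec d) : ℝ :=
  (∫ z, k (p + z) * Real.exp (-(a * nsq z))) / ∫ z : Vec d, Real.exp (-(a * nsq z))

/-- test functions: `|φ| ≤ A`, Lipschitz constant `A` -/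
structure TF (A : ℝ) (φ : Vec d → ℝ) : Prop where
  bd : ∀ v, |φ v| ≤ A
  lip : ∀ v w, |φ v - φ w| ≤ A * len (v - w)

/-- differences of the moments of `g` and of the Maxwellian `μ` -/
noncomputable def md (g μ : Vec d → ℝ) : ℝ :=
  |(∫ v, g v) - ∫ v, μ v| + (∑ i, |(∫ v, g v * v i) - ∫ v, μ v * v i|) +
    |(∫ v, g v * nsq v) - ∫ v, μ v * nsq v|

/-- the variance in `x` of `∫ φ F(x,v) dv` -/
noncomputable def Vr (φ : Vec d → ℝ) (F : Vec d → Vec d → ℝ) : ℝ :=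
  (∫ x, (∫ v, φ v * F x v) ^ 2 ∂(muD d)) - (∫ x, (∫ v, φ v * F x v) ∂(muD d)) ^ 2

/-- `z/(z²+κ²)` -/
noncomputable def Sk (κ z : ℝ) : ℝ := z / (z ^ 2 + κ ^ 2)

/-- the weight of the mixing functional -/
noncomputable def PM (e : Fin d) (κ : ℝ) (φ : Vec d → ℝ) (v w : Vec d) : ℝ :=
  φ v * φ w * Sk κ (v e - w e)

/-- `∬ κ²/((v_e-w_e)²+κ²) g(v) h(w)` -/
noncomputable def ek (e : Fin d) (κ : ℝ) (g h : Vec d → ℝ) : ℝ :=
  ∫ q : Vec d × Vec d, κ ^ 2 / ((q.1 e - q.2 e) ^ 2 + κ ^ 2) * (g q.1 * h q.2)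

end Pool.Agent.H37.LT
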