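import Pool.Agent.H37.LT.Defs
import Pool.Agent.H87.PE.IntH
import Pool.Agent.H87.PE.AngH

/-!
# Module ErA: the square of the increments of a Lipschitz test function

`|dX ψ (v,w,σ)| ≤ |ψ(v') - ψ(v)| + |ψ(w') - ψ(w)| ≤ A (len(v'-v) + len(w'-w)) = 2 A len(v-w) √((1-cos θ)/2)` (`nsq_post_sub`, `nsq_post'_sub` in H48/PL/PlB or where H87/PE/AngH takes them), so `dX² ≤ 2 A² len(v-w)² (1-cos θ)`.
`∫σ kerB (1 - cos θ) dσ ≤ K len(v-w)^γ`: private lemma `full` of H87/PE/AngH (used there with `τ = a/2`; here with exponent `τ = 1 > s`; copy it, it is stated for `Hyp d (1+a) s b C Ca`, write `γ` for `1+a`) or directly: `kerB_le_ang`, `1 - cos θ ≤ 2`, `AngInt` (`H.an`).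
Hence `∫σ kx dX² dσ ≤ K A² G(v) G(w) len(v-w)^(γ+2)`, and `len(v-w)^(γ+2) ≤ (1 + nsq (v-w))² ≤ 4 (1+nsq v+nsq w)²` for `0 ≤ γ ≤ 2` (`H.g2`). Integrate over `(v,w)` (Fubini for `mu3`; integrability of the left side: `kx_int` with `PB_mul (dX_PB ..) (dX_PB ..)`; the integrand is `≥ 0` a.e., `kx_nonneg`). Integrability of the right side: `G` is RD (`prod_le'` or `Integrable.mul_prod`).
-/

set_option autoImplicit false

open MeasureTheory Set Filter Topology Pool.Agent.H25.Kin Pool.Agent.H48.PL Pool.Agent.H87.PE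
open Pool.Agent.H15.AV (gau UNice)

namespace Pool.Agent.H37.LT

variable {d : ℕ} {γ s C Ca : ℝ} {b : ℝ → ℝ}

/-- the angular integral of `1 - cos θ` -/
private lemma eraFull (H : Hyp d γ s b C Ca) :
    ∃ K : ℝ, 0 ≤ K ∧ ∀ ε : ℝ, 0 < ε → ∀ v w : Vec d, v ≠ w →
      Integrable (fun σ => kerB γ b ε v w σ * (1 - cosTh v w σ)) (surf d) ∧
      ∫ σ, kerB γ b ε v w σ * (1 - cosTh v w σ) ∂(surf d) ≤ K * len (v - w) ^ γ := by
  obtain ⟨A1, hA1, hk⟩ := ker_small H (τ := 1) H.hs1 le_rfl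
  refine ⟨A1 * 2 ^ (1 - s), by positivity, fun ε hε v w hvw => ?_⟩
  obtain ⟨hi, hb⟩ := hk ε hε v w hvw 2 two_pos
  have hS : (surf d).restrict {σ : Vec d | 1 - cosTh v w σ ≤ 2} = surf d := by
    refine Measure.restrict_eq_self_of_ae_mem ?_
    filter_upwards [surf_ae] with σ hσ
    have h4 := (abs_le.1 (abs_cosTh_le (v := v) (w := w) hσ)).1
    show 1 - cosTh v w σ ≤ 2
    linarith
  unfold IntegrableOn at hi
  rw [hS] at hi hb
  simp only [Real.rpow_one] at hi hb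
  exact ⟨hi, hb.trans (le_of_eq (by ring))⟩

/-- Fubini for the weight `kx` -/
private lemma eraFub (H : Hyp d γ s b C Ca) {ε : ℝ} (hε : 0 < ε) {G : Vec d → ℝ} (hG : RD G)
    (hGc : Continuous G) {X : Vec d × Vec d × Vec d → ℝ} (hX : Measurable X) (hB : PB X) :
    Integrable (fun q : Vec d × Vec d => G q.1 * G q.2 *
      ∫ σ, kerB γ b ε q.1 q.2 σ * X (q.1, q.2, σ) ∂(surf d)) ∧
    ∫ p, kx γ b ε G p * X p ∂(mu3 d) =
      ∫ q : Vec d × Vec d, G q.1 * G q.2 *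
        ∫ σ, kerB γ b ε q.1 q.2 σ * X (q.1, q.2, σ) ∂(surf d) := by
  have i := kx_int H hε hG hGc hX hB
  have h3 : MeasurePreserving (MeasurableEquiv.prodAssoc (α := Vec d) (β := Vec d) (γ := Vec d))
      (((volume : Measure (Vec d)).prod volume).prod (surf d)) (mu3 d) :=
    measurePreserving_prodAssoc _ _ _
  have i2 := h3.integrable_comp_of_integrable i
  have e0 := h3.integral_comp' (fun p : Vec d × Vec d × Vec d => kx γ b ε G p * X p)
  have ei : (fun q : Vec d × Vec d => ∫ σ, ((fun p : Vec d × Vec d × Vec d =>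
      kx γ b ε G p * X p) ∘
      (MeasurableEquiv.prodAssoc (α := Vec d) (β := Vec d) (γ := Vec d))) (q, σ) ∂(surf d)) =
      fun q : Vec d × Vec d => G q.1 * G q.2 *
        ∫ σ, kerB γ b ε q.1 q.2 σ * X (q.1, q.2, σ) ∂(surf d) := by
    funext q
    rw [← integral_const_mul]
    refine integral_congr_ae (Eventually.of_forall fun σ => ?_)
    change kx γ b ε G (q.1, q.2, σ) * X (q.1, q.2, σ) =
      G q.1 * G q.2 * (kerB γ b ε q.1 q.2 σ * X (q.1, q.2, σ))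
    unfold kx
    ring
  have i3 := i2.integral_prod_left
  have e2 := integral_prod _ i2
  rw [ei] at i3 e2
  exact ⟨i3, e0.symm.trans e2⟩

private lemma eraNe (hd : 1 ≤ d) : ∀ᵐ p ∂(volume : Measure (Vec d × Vec d)), p.1 ≠ p.2 := by
  have hne : Nonempty (Fin d) := ⟨⟨0, by omega⟩⟩
  have hs : MeasurableSet {p : Vec d × Vec d | p.1 ≠ p.2} :=
    (isClosed_eq continuous_fst continuous_snd).measurableSet.compl
  refine (Measure.ae_prod_iff_ae_ae hs).2 (Eventually.of_forall fun v => ?_)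
  have : (volume : Measure (Vec d)) {v} = 0 := measure_singleton v
  filter_upwards [compl_mem_ae_iff.2 this] with w hw h
  exact hw h.symm

private lemma eraLenSq (z : Vec d) : len z ^ 2 = nsq z := by
  unfold len
  exact Real.sq_sqrt (sq_nonneg' z)

/-- the square of the increment is at most `2 A² |v-w|² (1 - cos θ)` -/
private lemma eraInc {A : ℝ} {ψ : Vec d → ℝ}
    (h : ∀ v w, |ψ v - ψ w| ≤ A * len (v - w)) {v w σ : Vec d} (hvw : v ≠ w) (hσ : nsq σ = 1) :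
    dX ψ (v, w, σ) ^ 2 ≤ 2 * A ^ 2 * nsq (v - w) * (1 - cosTh v w σ) := by
  have e1 : (ψ (post v w σ) - ψ v) ^ 2 ≤ A ^ 2 * (nsq (v - w) * ((1 - cosTh v w σ) / 2)) := by
    rw [← nsq_post_sub hvw hσ, ← eraLenSq, ← mul_pow, ← sq_abs]
    exact pow_le_pow_left₀ (abs_nonneg _) (h _ _) 2
  have e2 : (ψ (post' v w σ) - ψ w) ^ 2 ≤ A ^ 2 * (nsq (v - w) * ((1 - cosTh v w σ) / 2)) := by
    rw [← nsq_post'_sub hvw hσ, ← eraLenSq, ← mul_pow, ← sq_abs]
    exact pow_le_pow_left₀ (abs_nonneg _) (h _ _) 2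
  have e3 : dX ψ (v, w, σ) = (ψ (post v w σ) - ψ v) + (ψ (post' v w σ) - ψ w) := by
    unfold dX
    ring
  rw [e3]
  nlinarith [sq_nonneg ((ψ (post v w σ) - ψ v) - (ψ (post' v w σ) - ψ w))]

private lemma eraPow (hγ : 0 ≤ γ) (hγ2 : γ ≤ 2) (v w : Vec d) :
    nsq (v - w) * len (v - w) ^ γ ≤ 4 * (1 + nsq v + nsq w) ^ 2 := by
  have h0 := sq_nonneg' (v - w)
  have hl := len_nonneg (v - w)
  have h1 : len (v - w) ^ γ ≤ 1 + nsq (v - w) := by
    rcases le_total (len (v - w)) 1 with h | h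
    · have := Real.rpow_le_one hl h hγ
      linarith
    · have h2 : len (v - w) ^ γ ≤ len (v - w) ^ (2 : ℝ) := Real.rpow_le_rpow_of_exponent_le h hγ2
      rw [Real.rpow_two, eraLenSq] at h2
      linarith
  have h2 : nsq (v - w) ≤ 2 * (nsq v + nsq w) := by
    unfold nsq
    rw [← Finset.sum_add_distrib, Finset.mul_sum]
    refine Finset.sum_le_sum fun i _ => ?_
    show (v i - w i) ^ 2 ≤ 2 * (v i ^ 2 + w i ^ 2)
    nlinarith [sq_nonneg (v i + w i)]
  have h3 := sq_nonneg' v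
  have h4 := sq_nonneg' w
  calc nsq (v - w) * len (v - w) ^ γ ≤ nsq (v - w) * (1 + nsq (v - w)) :=
        mul_le_mul_of_nonneg_left h1 h0
    _ ≤ (2 * (1 + nsq v + nsq w)) * (2 * (1 + nsq v + nsq w)) := by
        refine mul_le_mul (by linarith) (by linarith) (by linarith) (by linarith)
    _ = _ := by ring

private lemma eraInt {G : Vec d → ℝ} (hG : RD G) (hGc : Continuous G) (h0 : ∀ v, 0 ≤ G v) :
    Integrable fun q : Vec d × Vec d => G q.1 * G q.2 * (1 + nsq q.1 + nsq q.2) ^ 2 := by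
  have hp : PG fun v : Vec d => (1 + nsq v) * (1 + nsq v) :=
    ((PG.const (1 : ℝ)).add PG.nsq).mul ((PG.const (1 : ℝ)).add PG.nsq)
  have hc : Continuous fun v : Vec d => G v * ((1 + nsq v) * (1 + nsq v)) := by
    have := continuous_sq (d := d)
    fun_prop
  have i1 : Integrable fun v : Vec d => G v * ((1 + nsq v) * (1 + nsq v)) :=
    (hG.mul_PG hp).integrable hc.aestronglyMeasurable
  refine (i1.mul_prod i1).mono' ?_ (Eventually.of_forall fun q => ?_)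
  · have := continuous_sq (d := d)
    exact (by fun_prop : Continuous fun q : Vec d × Vec d =>
      G q.1 * G q.2 * (1 + nsq q.1 + nsq q.2) ^ 2).aestronglyMeasurable
  · have h1 := sq_nonneg' q.1
    have h2 := sq_nonneg' q.2
    have h3 : 0 ≤ G q.1 * G q.2 := mul_nonneg (h0 _) (h0 _)
    rw [Real.norm_eq_abs, abs_of_nonneg (by positivity)]
    calc G q.1 * G q.2 * (1 + nsq q.1 + nsq q.2) ^ 2
        ≤ G q.1 * G q.2 * ((1 + nsq q.1) * (1 + nsq q.2)) ^ 2 := by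
          refine mul_le_mul_of_nonneg_left (pow_le_pow_left₀ (by positivity) ?_ 2) h3
          nlinarith [mul_nonneg h1 h2]
      _ = _ := by ring

theorem kx_sq (H : Hyp d γ s b C Ca) (hγ : 0 ≤ γ) : ∃ K : ℝ, 0 ≤ K ∧ ∀ ε : ℝ, 0 < ε →
    ∀ G : Vec d → ℝ, RD G → Continuous G → (∀ v, 0 ≤ G v) →
    ∀ (A : ℝ) (ψ : Vec d → ℝ), 0 ≤ A → (∀ v w, |ψ v - ψ w| ≤ A * len (v - w)) →
      ∫ p, kx γ b ε G p * dX ψ p ^ 2 ∂(mu3 d) ≤
        K * A ^ 2 * ∫ q : Vec d × Vec d, G q.1 * G q.2 * (1 + nsq q.1 + nsq q.2) ^ 2 := by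
  obtain ⟨K, hK, hk⟩ := eraFull H
  refine ⟨8 * K, by positivity, fun ε hε G hG hGc h0 A ψ hA hψ => ?_⟩
  have hHol : Hol 1 (fun _ => 1) A ψ := fun v w => by
    rw [one_mul, Real.rpow_one]
    exact hψ v w
  have hc : Continuous ψ := hol_cont one_pos (fun _ _ => le_rfl) hA hHol
  have hPG : PG ψ := hol_PG one_pos le_rfl (fun _ _ => le_rfl) hA hHol
  have hm : Measurable fun p => dX ψ p ^ 2 := (dX_meas hc.measurable).pow_const 2
  have hB : PB fun p => dX ψ p ^ 2 := by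
    have := PB_mul (dX_PB hPG) (dX_PB hPG)
    simpa only [sq] using this
  obtain ⟨i1, e1⟩ := eraFub H hε hG hGc hm hB
  rw [e1, ← integral_const_mul]
  refine integral_mono_ae i1 ((eraInt hG hGc h0).const_mul _) ?_
  filter_upwards [eraNe H.hd1] with q hq
  obtain ⟨hi, hb⟩ := hk ε hε q.1 q.2 hq
  have h3 : 0 ≤ G q.1 * G q.2 := mul_nonneg (h0 _) (h0 _)
  have hn := sq_nonneg' (q.1 - q.2)
  have h4 : ∫ σ, kerB γ b ε q.1 q.2 σ * dX ψ (q.1, q.2, σ) ^ 2 ∂(surf d) ≤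
      ∫ σ, 2 * A ^ 2 * nsq (q.1 - q.2) * (kerB γ b ε q.1 q.2 σ * (1 - cosTh q.1 q.2 σ))
        ∂(surf d) := by
    refine integral_mono_of_nonneg ?_ (hi.const_mul _) ?_
    · filter_upwards [surf_ae] with σ hσ
      exact mul_nonneg (kerB_nonneg (γ := γ) H.bd hε (v := q.1) (w := q.2) hσ) (sq_nonneg _)
    · filter_upwards [surf_ae] with σ hσ
      have hk0 := kerB_nonneg (γ := γ) H.bd hε (v := q.1) (w := q.2) hσ
      calc kerB γ b ε q.1 q.2 σ * dX ψ (q.1, q.2, σ) ^ 2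
          ≤ kerB γ b ε q.1 q.2 σ * (2 * A ^ 2 * nsq (q.1 - q.2) * (1 - cosTh q.1 q.2 σ)) :=
            mul_le_mul_of_nonneg_left (eraInc hψ hq hσ) hk0
        _ = _ := by ring
  rw [integral_const_mul] at h4
  have h5 := eraPow hγ H.g2 q.1 q.2
  calc G q.1 * G q.2 * ∫ σ, kerB γ b ε q.1 q.2 σ * dX ψ (q.1, q.2, σ) ^ 2 ∂(surf d)
      ≤ G q.1 * G q.2 * (2 * A ^ 2 * nsq (q.1 - q.2) * (K * len (q.1 - q.2) ^ γ)) := by
        refine mul_le_mul_of_nonneg_left (h4.trans ?_) h3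
        exact mul_le_mul_of_nonneg_left hb (by positivity)
    _ = G q.1 * G q.2 * (2 * A ^ 2 * K * (nsq (q.1 - q.2) * len (q.1 - q.2) ^ γ)) := by ring
    _ ≤ G q.1 * G q.2 * (2 * A ^ 2 * K * (4 * (1 + nsq q.1 + nsq q.2) ^ 2)) := by
        refine mul_le_mul_of_nonneg_left ?_ h3
        exact mul_le_mul_of_nonneg_left h5 (by positivity)
    _ = _ := by ring

end Pool.Agent.H37.LT
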