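import Pool.Agent.H37.LT.ErA
import Pool.Agent.H87.PE.Hold

/-!
# Module ErB: the collision operator tested with a bounded Lipschitz function

Model: `err_hold` in H87/PE/Hold.lean, without the splitting by `RR`. For `G = g + δ gau` (`gd_reg`, `δ ≤ 1`): `∫ boltzCut_ε(G) ψ = (1/2) ∫ kx dX ψ` (`weak_cut`, as in `eh_weak`); `cs_cut` with `S = univ`:
`|∫ kx dX ψ| ≤ (1/lam) Pc + (lam/4) ∫ kx dX² ≤ (1/lam) Pc + (lam/4) K₁ A² X`, `X = ∫∫ G G (1+nsq+nsq)² ≤ X₀(Cl)` because `(1+|v|)^N G ≤ Cl N + c_N` (`c_N` bounds `(1+|v|)^N gau`; decay with `N = d+1+4` is enough).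
`tra` (with `A₁ = A (d+1)`: `|ψ v - ψ 0| ≤ A len v ≤ A (d+1)(1+|v|)`): `|∫ boltzCut_ε(g) ψ| ≤ 2 |∫ boltzCut_ε(G) ψ| + η'`. `Pc ≤ Dn + η'` eventually (`Pc_lim`). Limit `ε → 0`: `boltz_weak_tendsto`, as in `err_hold`.
Result: `≤ (1/lam)(Dn + η') + (lam/4) K₁ A² X₀ + η'`; choose `lam` with `(lam/4) K₁ A² X₀ ≤ ε₁`, `K = 1/lam`, `η' = η/(1/lam + 1)`.
-/

set_option autoImplicit false

open MeasureTheory Set Filter Topology Pool.Agent.H25.Kin Pool.Agent.H48.PL Pool.Agent.H87.PE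
open Pool.Agent.H15.AV (gau UNice)
open Pool.Agent.H48.PI (Dn)

namespace Pool.Agent.H37.LT

variable {d : ℕ} {γ s C Ca : ℝ} {b : ℝ → ℝ}

private lemma ErB_sq (v : Vec d) : 1 + nsq v ≤ ((d : ℝ) + 1) * (1 + ‖v‖) ^ 2 := by
  have h := sq_le v
  have h1 := norm_nonneg v
  nlinarith [mul_nonneg (Nat.cast_nonneg (α := ℝ) d) h1]

/-- pointwise: `G(v)(1+|v|²)² ≤ (d+1)² M wt(v)` -/
private lemma ErB_pt {G : Vec d → ℝ} (h0 : ∀ v, 0 ≤ G v) {M : ℝ}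
    (hM : ∀ v, (1 + ‖v‖) ^ (d + 5) * G v ≤ M) (v : Vec d) :
    G v * (1 + nsq v) ^ 2 ≤ ((d : ℝ) + 1) ^ 2 * M * wt d v := by
  have hw := w_pos v
  have h1 : (1 + nsq v) ^ 2 ≤ (((d : ℝ) + 1) * (1 + ‖v‖) ^ 2) ^ 2 :=
    pow_le_pow_left₀ (by linarith [sq_nonneg' v]) (ErB_sq v) 2
  have h2 : G v ≤ M * ((1 + ‖v‖) ^ (d + 5))⁻¹ := by
    rw [← div_eq_mul_inv, le_div_iff₀ (by positivity)]
    linarith [hM v]
  have h3 : wt d v = ((1 + ‖v‖) ^ (d + 5))⁻¹ * (1 + ‖v‖) ^ 4 := by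
    unfold wt
    have e1 : (1 + ‖v‖) ^ (d + 5) = (1 + ‖v‖) ^ (d + 1) * (1 + ‖v‖) ^ 4 := by ring
    rw [e1, mul_inv, mul_assoc, inv_mul_cancel₀ (by positivity), mul_one]
  calc G v * (1 + nsq v) ^ 2 ≤ G v * (((d : ℝ) + 1) * (1 + ‖v‖) ^ 2) ^ 2 :=
        mul_le_mul_of_nonneg_left h1 (h0 v)
    _ ≤ (M * ((1 + ‖v‖) ^ (d + 5))⁻¹) * (((d : ℝ) + 1) * (1 + ‖v‖) ^ 2) ^ 2 :=
        mul_le_mul_of_nonneg_right h2 (sq_nonneg _)
    _ = ((d : ℝ) + 1) ^ 2 * M * wt d v := by rw [h3]; ring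

/-- the moment `X` is bounded -/
private lemma ErB_X {G : Vec d → ℝ} (h0 : ∀ v, 0 ≤ G v) {M : ℝ}
    (hM : ∀ v, (1 + ‖v‖) ^ (d + 5) * G v ≤ M) :
    ∫ q : Vec d × Vec d, G q.1 * G q.2 * (1 + nsq q.1 + nsq q.2) ^ 2 ≤
      (((d : ℝ) + 1) ^ 2 * M) ^ 2 * (∫ v, wt d v) ^ 2 := by
  have hI : Integrable fun q : Vec d × Vec d => wt d q.1 * wt d q.2 :=
    (integrable_wt (d := d)).mul_prod (integrable_wt (d := d))
  have e1 : ∫ q : Vec d × Vec d, (((d : ℝ) + 1) ^ 2 * M) ^ 2 * (wt d q.1 * wt d q.2) =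
      (((d : ℝ) + 1) ^ 2 * M) ^ 2 * (∫ v, wt d v) ^ 2 := by
    rw [integral_const_mul]
    congr 1
    rw [pow_two]
    exact integral_prod_mul (wt d) (wt d)
  rw [← e1]
  refine integral_mono_of_nonneg (Eventually.of_forall fun q => ?_) (hI.const_mul _)
    (Eventually.of_forall fun q => ?_)
  · exact mul_nonneg (mul_nonneg (h0 _) (h0 _)) (sq_nonneg _)
  · have n1 := sq_nonneg' q.1
    have n2 := sq_nonneg' q.2
    have h1 : (1 + nsq q.1 + nsq q.2) ^ 2 ≤ (1 + nsq q.1) ^ 2 * (1 + nsq q.2) ^ 2 := by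
      rw [← mul_pow]
      exact pow_le_pow_left₀ (by linarith) (by nlinarith [mul_nonneg n1 n2]) 2
    have a1 := ErB_pt h0 hM q.1
    have a2 := ErB_pt h0 hM q.2
    have b1 : 0 ≤ G q.1 * (1 + nsq q.1) ^ 2 := mul_nonneg (h0 _) (sq_nonneg _)
    have b2 : 0 ≤ G q.2 * (1 + nsq q.2) ^ 2 := mul_nonneg (h0 _) (sq_nonneg _)
    calc G q.1 * G q.2 * (1 + nsq q.1 + nsq q.2) ^ 2
        ≤ G q.1 * G q.2 * ((1 + nsq q.1) ^ 2 * (1 + nsq q.2) ^ 2) :=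
          mul_le_mul_of_nonneg_left h1 (mul_nonneg (h0 _) (h0 _))
      _ = (G q.1 * (1 + nsq q.1) ^ 2) * (G q.2 * (1 + nsq q.2) ^ 2) := by ring
      _ ≤ (((d : ℝ) + 1) ^ 2 * M * wt d q.1) * (((d : ℝ) + 1) ^ 2 * M * wt d q.2) :=
          mul_le_mul a1 a2 b2 (b1.trans a1)
      _ = (((d : ℝ) + 1) ^ 2 * M) ^ 2 * (wt d q.1 * wt d q.2) := by ring

/-- the estimate at the cut-off level -/
private lemma ErB_cut (H : Hyp d γ s b C Ca) {K₁ : ℝ} {ε : ℝ} (hε : 0 < ε)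
    (hK : ∀ G : Vec d → ℝ, RD G → Continuous G → (∀ v, 0 ≤ G v) →
      ∀ (A : ℝ) (ψ : Vec d → ℝ), 0 ≤ A → (∀ v w, |ψ v - ψ w| ≤ A * len (v - w)) →
      ∫ p, kx γ b ε G p * dX ψ p ^ 2 ∂(mu3 d) ≤
        K₁ * A ^ 2 * ∫ q : Vec d × Vec d, G q.1 * G q.2 * (1 + nsq q.1 + nsq q.2) ^ 2)
    {G : Vec d → ℝ} (hG : Gd G) {A : ℝ} (hA : 0 ≤ A) {ψ : Vec d → ℝ}
    (hl : ∀ v w, |ψ v - ψ w| ≤ A * len (v - w)) (hψ : PG ψ) (hψm : Measurable ψ)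
    {lam : ℝ} (hlam : 0 < lam) :
    2 * |∫ v, boltzCut γ b ε G v * ψ v| ≤ (1 / lam) * Pc γ b ε G +
      (lam / 4) * (K₁ * A ^ 2 *
        ∫ q : Vec d × Vec d, G q.1 * G q.2 * (1 + nsq q.1 + nsq q.2) ^ 2) := by
  have hw : ∫ v, boltzCut γ b ε G v * ψ v = (1 / 2) * ∫ p, kx γ b ε G p * dX ψ p ∂(mu3 d) :=
    weak_cut H.hd H.g1 H.g2 H.bm H.bd H.β0 hε hG.rd hG.cont hψ hψm
  have a1 := cs_cut H hε hG hψ hψm MeasurableSet.univ (fun _ _ _ _ _ => by simp) hlam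
  rw [Measure.restrict_univ] at a1
  have a2 := mul_le_mul_of_nonneg_left (hK G hG.rd hG.cont (fun v => (hG.pos v).le) A ψ hA hl)
    (by positivity : (0 : ℝ) ≤ lam / 4)
  rw [hw, abs_mul, abs_of_pos (by norm_num : (0 : ℝ) < 1 / 2)]
  linarith

theorem err_lip (H : Hyp d γ s b C Ca) (hγ : 0 ≤ γ) (Cl : ℕ → ℝ) (A : ℝ) {ε₁ : ℝ} (hε : 0 < ε₁) :
    ∃ K : ℝ, 0 ≤ K ∧ ∀ (Cl' : ℕ → ℝ) (η : ℝ), 0 < η → ∃ δ₀ > 0, ∀ δ ∈ Ioc (0 : ℝ) δ₀,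
      ∀ g : Vec d → ℝ, UNice Cl' g → (∀ (N : ℕ) (v : Vec d), (1 + ‖v‖) ^ N * g v ≤ Cl N) →
      ∀ ψ : Vec d → ℝ, TF A ψ → |∫ w, boltzQ γ b g w * ψ w| ≤ K * Dn γ b δ g + ε₁ + η := by
  obtain ⟨K₁, hK₁, hsq⟩ := kx_sq H hγ
  obtain ⟨c, hc⟩ := (Pool.Agent.H15.AV.nice_gau (d := d)).rd (d + 5)
  set M : ℝ := |Cl (d + 5)| + |c| with hM
  have hM0 : 0 ≤ M := by positivity
  set X₀ : ℝ := (((d : ℝ) + 1) ^ 2 * M) ^ 2 * (∫ v, wt d v) ^ 2 with hX₀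
  have hX0 : 0 ≤ X₀ := by positivity
  set D : ℝ := K₁ * A ^ 2 * X₀ + 1 with hD
  have hD0 : 0 < D := by positivity
  set lam : ℝ := 4 * ε₁ / D with hlam
  have hlam0 : 0 < lam := by positivity
  have hlamD : (lam / 4) * (K₁ * A ^ 2 * X₀) ≤ ε₁ := by
    have e1 : (lam / 4) * D = ε₁ := by
      rw [hlam]
      field_simp
    have e2 : (lam / 4) * (K₁ * A ^ 2 * X₀) ≤ (lam / 4) * D :=
      mul_le_mul_of_nonneg_left (by rw [hD]; linarith) (by positivity)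
    linarith
  refine ⟨1 / lam, by positivity, fun Cl' η hη => ?_⟩
  have hB0 : 0 < 1 / lam + 1 := by positivity
  set η' : ℝ := η / (1 / lam + 1) with hη'
  have hη'0 : 0 < η' := div_pos hη hB0
  have hηB : (1 / lam) * η' + η' = η := by
    have : (1 / lam + 1) * η' = η := by
      rw [hη', mul_div_cancel₀ _ hB0.ne']
    linarith
  obtain ⟨δa, hδa, hδah, htra⟩ := tra H Cl' (A * ((d : ℝ) + 1)) hη'0
  obtain ⟨δb, hδb, hδbh, hPc⟩ := Pc_lim H Cl' hη'0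
  refine ⟨min δa δb, lt_min hδa hδb, fun δ hδ g hg hgl ψ hψ => ?_⟩
  have hd0 : 0 < δ := hδ.1
  have hda : δ ≤ δa := hδ.2.trans (min_le_left _ _)
  have hdb : δ ≤ δb := hδ.2.trans (min_le_right _ _)
  have hd1 : δ ≤ 1 := by linarith
  have hA : 0 ≤ A := (abs_nonneg _).trans (hψ.bd 0)
  have hH : Hol 1 (fun _ => (1 : ℝ)) A ψ := fun w w' => by
    rw [Real.rpow_one, one_mul]
    exact hψ.lip w w'
  have h11 : ∀ x : ℝ, 1 ≤ x → (fun _ : ℝ => (1 : ℝ)) x ≤ 1 := fun _ _ => le_refl _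
  have hcont : Continuous ψ := hol_cont one_pos h11 hA hH
  have hPG : PG ψ := hol_PG one_pos le_rfl h11 hA hH
  have hlin : ∀ v, |ψ v - ψ 0| ≤ A * ((d : ℝ) + 1) * (1 + ‖v‖) :=
    fun v => hol_lin one_pos le_rfl h11 hA hH v
  have hG := gd_reg hg hd0 hd1
  have hG0 : ∀ v, 0 ≤ g v + δ * gau v := fun v => (hG.pos v).le
  have hGM : ∀ v : Vec d, (1 + ‖v‖) ^ (d + 5) * (g v + δ * gau v) ≤ M := by
    intro v
    have c1 := hgl (d + 5) v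
    have c2 := hc v
    have hgp : 0 < gau v := Real.exp_pos _
    rw [Real.norm_eq_abs, abs_of_pos hgp] at c2
    have c3 : 0 ≤ (1 + ‖v‖) ^ (d + 5) * gau v :=
      mul_nonneg (pow_nonneg (w_pos v).le _) hgp.le
    have c4 : δ * ((1 + ‖v‖) ^ (d + 5) * gau v) ≤ |c| :=
      (mul_le_of_le_one_left c3 hd1).trans (c2.trans (le_abs_self c))
    have c5 := le_abs_self (Cl (d + 5))
    have c6 : (1 + ‖v‖) ^ (d + 5) * (g v + δ * gau v) =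
        (1 + ‖v‖) ^ (d + 5) * g v + δ * ((1 + ‖v‖) ^ (d + 5) * gau v) := by ring
    rw [c6, hM]
    linarith
  have hX := ErB_X hG0 hGM
  obtain ⟨hDn, hev⟩ := hPc δ ⟨hd0, hdb⟩ g hg
  have hlim := (boltz_weak_tendsto H hg.nice hPG hcont.measurable).abs
  refine le_of_tendsto hlim ?_
  filter_upwards [hev, self_mem_nhdsWithin] with ε hPε hε'
  have hε0 : 0 < ε := hε'
  have t1 := htra δ ⟨hd0, hda⟩ g hg ψ hcont.measurable hlin ε hε0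
  have t2 := ErB_cut H hε0 (hsq ε hε0) hG hA hψ.lip hPG hcont.measurable hlam0
  have s1 : (1 / lam) * Pc γ b ε (fun v => g v + δ * gau v) ≤
      (1 / lam) * Dn γ b δ g + (1 / lam) * η' := by
    have := mul_le_mul_of_nonneg_left hPε (by positivity : (0 : ℝ) ≤ 1 / lam)
    linarith
  have s2 : (lam / 4) * (K₁ * A ^ 2 * ∫ q : Vec d × Vec d,
      (g q.1 + δ * gau q.1) * (g q.2 + δ * gau q.2) * (1 + nsq q.1 + nsq q.2) ^ 2) ≤ ε₁ := by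
    refine le_trans ?_ hlamD
    refine mul_le_mul_of_nonneg_left ?_ (by positivity)
    exact mul_le_mul_of_nonneg_left hX (by positivity)
  linarith

end Pool.Agent.H37.LT
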