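import Pool.Agent.H37.LT.Main
import Pool.Agent.H37.SB.Cmp

/-!
# Block P1, final statement
-/

set_option autoImplicit false

open MeasureTheory Set Filter Topology Pool.Agent.H25.Kin
open Pool.Agent.H82.CM (exists_hypL)
open Pool.Agent.H48.NE (mx)
open Pool.Agent.H48.CV (EqM PB)

namespace Pool.Agent.H37.LT

variable {d : ℕ}

/-- block P1 for all `0 ≤ γ`, `γ + 2s ≤ 2` -/
theorem l1_time' {s γ : ℝ} (hd : 2 ≤ d) (hs : 0 < s) (hs1 : s < 1) (h1 : 0 ≤ γ) (h2 : γ + 2 * s ≤ 2)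
    {b : ℝ → ℝ} (hb : IsKernel d s b) (e : Fin d) (Cl : ℕ → ℝ) {m : ℝ} (hm : 0 < m) (a k : ℝ)
    (u : Vec d) {ε : ℝ} (hε : 0 < ε) : ∃ L : ℝ, 1 ≤ L ∧ ∀ (T : ℝ) (f : ℝ → Vec d → Vec d → ℝ),
      PB γ b Cl m e T f → EqM a k u (f 0) → L < T →
      ∃ t ∈ Icc 1 L, ∫ q, |f t q.2 q.1 - mx a k u q.1| ∂(nu d) ≤ ε := by
  obtain ⟨C, Ca, cb, HL⟩ := exists_hypL hd hs hs1 (by linarith : 0 ≤ γ + 2 * s) h2 hb
  exact l1_time HL h1 (Pool.Agent.H37.SB.slice_eps hd) e Cl hm a k u hε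

end Pool.Agent.H37.LT
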