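import Pool.Agent.H37.LT.MxC
import Pool.Agent.H48.NE.Mxw

/-!
# Module MdL: the moments of the fibers

* `md_le`. Let `ρ_φ(x) = ∫ φ F(x,v) dv`, continuous in `x`, and `m_φ = ∫ ρ_φ dμ`. For the three kinds `φ` in `1`, `fc R i`, `fe R` and `p` = `1`, `v i`, `nsq v`: `|∫ p F(x) - ρ_φ(x)| ≤ τ(R)` and `|∫ p mx - ∫ φ mx| ≤ τ(R)` with `τ(R) → 0` (`|p - φ| ≤ |p| 1[|p| ≥ R] ≤ p²/R` for `v i`, `≤ nsq² / R²` for `nsq`; moments of `F(x)` bounded by `Cl`). By `EqM`: `∫ p mx = ∫ p F dν = ∫x ∫v p F`, so `|m_φ - ∫ p mx| ≤ τ(R)`. Hence `|∫ p F(x) - ∫ p mx| ≤ 2 τ(R) + |ρ_φ(x) - m_φ|`, and `∫x |ρ_φ - m_φ| ≤ ε' + (1/(4ε')) ∫x (ρ_φ - m_φ)² = ε' + Vr φ F/(4ε')` (`muD` has mass 1). Sum over the `d+2` functions: choose `R` with `2 (d+2) τ(R) ≤ ε/2`, `ε' = ε/(2(d+2))`, `K = 1/(4ε')`.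
* `eqm_t`: `EqM` is conserved: `mom_const` (H25/Kin/Focus) with `p = 1, v i, nsq` and `boltz_HasInvariants`; `mom (fun _ => 1) p f t = ∫ q, .. ∂nu` up to the order of the factors.
-/

set_option autoImplicit false

open MeasureTheory Set Filter Topology Pool.Agent.H25.Kin Pool.Agent.H48.PL
open Pool.Agent.H48.NE (mx)
open Pool.Agent.H48.CV (EqM)

namespace Pool.Agent.H37.LT

variable {d : ℕ} {γ s C Ca : ℝ} {b : ℝ → ℝ}

/-- a weight with growth of order 4 -/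
private def MdL_G (P : ℝ) (p : Vec d → ℝ) : Prop := ∀ v, |p v| ≤ P * (1 + ‖v‖) ^ 4

private lemma MdL_bd {Cl : ℕ → ℝ} {g : Vec d → ℝ} (h0 : ∀ v, 0 ≤ g v)
    (hF : ∀ (N : ℕ) (v : Vec d), (1 + ‖v‖) ^ N * g v ≤ Cl N) {P : ℝ} (hP : 0 ≤ P) {p : Vec d → ℝ}
    (hp : MdL_G P p) (v : Vec d) : |p v * g v| ≤ P * |Cl (4 + (d + 1))| * wt d v := by
  have hw := w_pos v
  have h1 := hF (4 + (d + 1)) v
  have h2 : g v ≤ |Cl (4 + (d + 1))| * ((1 + ‖v‖) ^ (4 + (d + 1)))⁻¹ := by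
    rw [← div_eq_mul_inv, le_div_iff₀ (pow_pos hw _), mul_comm]
    exact h1.trans (le_abs_self _)
  rw [abs_mul, abs_of_nonneg (h0 v)]
  calc |p v| * g v ≤ (P * (1 + ‖v‖) ^ 4) * (|Cl (4 + (d + 1))| * ((1 + ‖v‖) ^ (4 + (d + 1)))⁻¹) :=
        mul_le_mul (hp v) h2 (h0 v) (by positivity)
    _ = P * |Cl (4 + (d + 1))| * wt d v := wt_bound hP (abs_nonneg _) v 4

/-- the constant: bound of the weighted mass -/
private noncomputable def MdL_D (d : ℕ) (Cl : ℕ → ℝ) : ℝ := |Cl (4 + (d + 1))| * ∫ v, wt d v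

private lemma MdL_D_nonneg (d : ℕ) (Cl : ℕ → ℝ) : 0 ≤ MdL_D d Cl :=
  mul_nonneg (abs_nonneg _) (integral_nonneg fun v => wt_nonneg v)

private lemma MdL_int {Cl : ℕ → ℝ} {g : Vec d → ℝ} (hg : Continuous g) (h0 : ∀ v, 0 ≤ g v)
    (hF : ∀ (N : ℕ) (v : Vec d), (1 + ‖v‖) ^ N * g v ≤ Cl N) {P : ℝ} (hP : 0 ≤ P) {p : Vec d → ℝ}
    (hpc : Continuous p) (hp : MdL_G P p) : Integrable fun v => p v * g v :=
  (integrable_wt.const_mul (P * |Cl (4 + (d + 1))|)).mono' (hpc.mul hg).aestronglyMeasurable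
    (Eventually.of_forall fun v => by rw [Real.norm_eq_abs]; exact MdL_bd h0 hF hP hp v)

private lemma MdL_le {Cl : ℕ → ℝ} {g : Vec d → ℝ} (h0 : ∀ v, 0 ≤ g v)
    (hF : ∀ (N : ℕ) (v : Vec d), (1 + ‖v‖) ^ N * g v ≤ Cl N) {P : ℝ} (hP : 0 ≤ P) {p : Vec d → ℝ}
    (hp : MdL_G P p) : |∫ v, p v * g v| ≤ P * MdL_D d Cl := by
  rw [← Real.norm_eq_abs]
  have h1 : ‖∫ v, p v * g v‖ ≤ ∫ v, P * |Cl (4 + (d + 1))| * wt d v := by
    refine norm_integral_le_of_norm_le (integrable_wt.const_mul _) (Eventually.of_forall fun v => ?_)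
    rw [Real.norm_eq_abs]
    exact MdL_bd h0 hF hP hp v
  refine h1.trans (le_of_eq ?_)
  rw [integral_const_mul]
  unfold MdL_D
  ring

private lemma MdL_cont {Cl : ℕ → ℝ} {F : Vec d → Vec d → ℝ}
    (hc : Continuous fun q : Vec d × Vec d => F q.1 q.2) (h0 : ∀ x v, 0 ≤ F x v)
    (hF : ∀ (N : ℕ) (x v : Vec d), (1 + ‖v‖) ^ N * F x v ≤ Cl N) {P : ℝ} (hP : 0 ≤ P)
    {p : Vec d → ℝ} (hpc : Continuous p) (hp : MdL_G P p) :
    Continuous fun x => ∫ v, p v * F x v := by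
  refine continuous_of_dominated (bound := fun v => P * |Cl (4 + (d + 1))| * wt d v) ?_ ?_ ?_ ?_
  · intro x
    have h1 : Continuous (F x) := hc.comp (by fun_prop : Continuous fun v : Vec d => (x, v))
    exact (hpc.mul h1).aestronglyMeasurable
  · intro x
    refine Eventually.of_forall fun v => ?_
    rw [Real.norm_eq_abs]
    exact MdL_bd (h0 x) (fun N v => hF N x v) hP hp v
  · exact integrable_wt.const_mul _
  · refine Eventually.of_forall fun v => ?_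
    have h1 : Continuous fun x => F x v := hc.comp (by fun_prop : Continuous fun x : Vec d => (x, v))
    exact continuous_const.mul h1

private lemma MdL_intx {g : Vec d → ℝ} (hg : Continuous g) : Integrable g (muD d) := by
  unfold muD
  exact hg.continuousOn.integrableOn_compact isCompact_Icc

private lemma MdL_nu {Cl : ℕ → ℝ} {F : Vec d → Vec d → ℝ}
    (hc : Continuous fun q : Vec d × Vec d => F q.1 q.2) (h0 : ∀ x v, 0 ≤ F x v)
    (hF : ∀ (N : ℕ) (x v : Vec d), (1 + ‖v‖) ^ N * F x v ≤ Cl N) {P : ℝ} (hP : 0 ≤ P)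
    {p : Vec d → ℝ} (hpc : Continuous p) (hp : MdL_G P p) :
    ∫ q, p q.1 * F q.2 q.1 ∂(nu d) = ∫ x, (∫ v, p v * F x v) ∂(muD d) := by
  have h1 : Continuous fun q : Vec d × Vec d => p q.1 * F q.2 q.1 :=
    (hpc.comp continuous_fst).mul (hc.comp (by fun_prop : Continuous fun q : Vec d × Vec d =>
      (q.2, q.1)))
  have h2 : Integrable (fun q : Vec d × Vec d => p q.1 * F q.2 q.1) (nu d) :=
    integrable_nu h1.aestronglyMeasurable fun q => MdL_bd (h0 q.2) (fun N v => hF N q.2 v) hP hp q.1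
  unfold nu at h2 ⊢
  exact integral_prod_symm _ h2

private lemma MdL_real : (muD d).real univ = 1 := by
  unfold Measure.real
  rw [muD_univ]
  simp

private lemma MdL_mean {Cl : ℕ → ℝ} {F : Vec d → Vec d → ℝ}
    (hc : Continuous fun q : Vec d × Vec d => F q.1 q.2) (h0 : ∀ x v, 0 ≤ F x v)
    (hF : ∀ (N : ℕ) (x v : Vec d), (1 + ‖v‖) ^ N * F x v ≤ Cl N) {P τ c : ℝ} (hP : 0 ≤ P)
    (hτ : 0 ≤ τ) {p φ : Vec d → ℝ} (hpc : Continuous p) (hp : MdL_G P p) (hφc : Continuous φ)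
    (hφ : MdL_G P φ) (hd : MdL_G τ fun v => p v - φ v)
    (he : ∫ q, p q.1 * F q.2 q.1 ∂(nu d) = c) (x : Vec d) :
    |(∫ v, p v * F x v) - c| ≤ 2 * (τ * MdL_D d Cl) +
      |(∫ v, φ v * F x v) - ∫ y, (∫ v, φ v * F y v) ∂(muD d)| := by
  have hcx : ∀ y, Continuous (F y) := fun y =>
    hc.comp (by fun_prop : Continuous fun v : Vec d => (y, v))
  have h1 : ∀ y, (∫ v, p v * F y v) = (∫ v, φ v * F y v) + ∫ v, (p v - φ v) * F y v := by
    intro y
    rw [← integral_add (MdL_int (hcx y) (h0 y) (fun N v => hF N y v) hP hφc hφ)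
      (MdL_int (p := fun v => p v - φ v) (hcx y) (h0 y) (fun N v => hF N y v) hτ (hpc.sub hφc) hd)]
    refine integral_congr_ae (Eventually.of_forall fun v => ?_)
    simp only
    ring
  have h2 : ∀ y, |∫ v, (p v - φ v) * F y v| ≤ τ * MdL_D d Cl := fun y =>
    MdL_le (h0 y) (fun N v => hF N y v) hτ hd
  have h3 : c = (∫ y, (∫ v, φ v * F y v) ∂(muD d)) + ∫ y, (∫ v, (p v - φ v) * F y v) ∂(muD d) := by
    rw [← he, MdL_nu hc h0 hF hP hpc hp, ← integral_add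
      (MdL_intx (MdL_cont hc h0 hF hP hφc hφ))
      (MdL_intx (MdL_cont (p := fun v => p v - φ v) hc h0 hF hτ (hpc.sub hφc) hd))]
    exact integral_congr_ae (Eventually.of_forall fun y => h1 y)
  have h4 : |∫ y, (∫ v, (p v - φ v) * F y v) ∂(muD d)| ≤ τ * MdL_D d Cl := by
    have h5 := norm_integral_le_of_norm_le_const (μ := muD d) (C := τ * MdL_D d Cl)
      (f := fun y => ∫ v, (p v - φ v) * F y v)
      (Eventually.of_forall fun y => by rw [Real.norm_eq_abs]; exact h2 y)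
    rw [MdL_real, mul_one, Real.norm_eq_abs] at h5
    exact h5
  have h5 := h2 x
  rw [h1 x, h3]
  generalize (∫ y, (∫ v, φ v * F y v) ∂(muD d)) = A at *
  generalize (∫ y, (∫ v, (p v - φ v) * F y v) ∂(muD d)) = B at *
  generalize (∫ v, φ v * F x v) = a at *
  generalize (∫ v, (p v - φ v) * F x v) = b at *
  have e : a + b - (A + B) = (a - A) + (b - B) := by ring
  rw [e]
  have h6 := abs_add_le (a - A) (b - B)
  have h7 := abs_sub b B
  linarith

private lemma MdL_abs {r : Vec d → ℝ} (hr : Continuous r) {η : ℝ} (hη : 0 < η) :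
    ∫ x, |r x - ∫ y, r y ∂(muD d)| ∂(muD d) ≤
      η + 1 / (4 * η) * ((∫ x, r x ^ 2 ∂(muD d)) - (∫ x, r x ∂(muD d)) ^ 2) := by
  have i1 : Integrable r (muD d) := MdL_intx hr
  have i2 : Integrable (fun x => r x ^ 2) (muD d) := MdL_intx (hr.pow 2)
  have hR : ∀ c : ℝ, ∫ _ : Vec d, c ∂(muD d) = c := by
    intro c
    rw [integral_const, MdL_real, one_smul]
  generalize hm : (∫ y, r y ∂(muD d)) = m
  have h1 : ∀ x, |r x - m| ≤ η + 1 / (4 * η) * (r x - m) ^ 2 := by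
    intro x
    have h2 : 0 ≤ 1 / (4 * η) * (|r x - m| - 2 * η) ^ 2 := by positivity
    have h3 : 1 / (4 * η) * (|r x - m| - 2 * η) ^ 2 =
        1 / (4 * η) * |r x - m| ^ 2 - |r x - m| + η := by
      field_simp
      ring
    rw [h3, sq_abs] at h2
    linarith
  have h4 : Integrable (fun x => η + 1 / (4 * η) * (r x - m) ^ 2) (muD d) :=
    MdL_intx (continuous_const.add (continuous_const.mul ((hr.sub continuous_const).pow 2)))
  have h5 : Integrable (fun x => |r x - m|) (muD d) :=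
    MdL_intx (hr.sub continuous_const).abs
  refine (integral_mono h5 h4 fun x => h1 x).trans (le_of_eq ?_)
  have i3 : Integrable (fun x => (r x - m) ^ 2) (muD d) :=
    MdL_intx ((hr.sub continuous_const).pow 2)
  rw [integral_add (integrable_const η) (i3.const_mul _), hR, integral_const_mul]
  congr 2
  have e : (fun x => (r x - m) ^ 2) = fun x => r x ^ 2 - 2 * m * r x + m ^ 2 := by
    funext x
    ring
  have i4 : Integrable (fun x => r x ^ 2 - 2 * m * r x) (muD d) := i2.sub (i1.const_mul _)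
  rw [e, integral_add i4 (integrable_const _), hR,
    integral_sub i2 (i1.const_mul _), integral_const_mul, hm]
  ring

private lemma MdL_var {Cl : ℕ → ℝ} {F : Vec d → Vec d → ℝ}
    (hc : Continuous fun q : Vec d × Vec d => F q.1 q.2) (h0 : ∀ x v, 0 ≤ F x v)
    (hF : ∀ (N : ℕ) (x v : Vec d), (1 + ‖v‖) ^ N * F x v ≤ Cl N) {P η : ℝ} (hP : 0 ≤ P)
    (hη : 0 < η) {φ : Vec d → ℝ} (hφc : Continuous φ) (hφ : MdL_G P φ) :
    ∫ x, |(∫ v, φ v * F x v) - ∫ y, (∫ v, φ v * F y v) ∂(muD d)| ∂(muD d) ≤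
      η + 1 / (4 * η) * Vr φ F := by
  have hr := MdL_cont hc h0 hF hP hφc hφ
  have h := MdL_abs hr hη
  unfold Vr
  exact h

private lemma MdL_one_le (v : Vec d) : 1 ≤ (1 + ‖v‖) ^ 4 :=
  one_le_pow₀ (by linarith [norm_nonneg v])

private lemma MdL_nsq_le (v : Vec d) : |nsq v| ≤ ((d : ℝ) + 1) * (1 + ‖v‖) ^ 4 := by
  rw [abs_of_nonneg (sq_nonneg' v)]
  have h1 := sq_le v
  have h2 := norm_nonneg v
  have h3 : ‖v‖ ^ 2 ≤ (1 + ‖v‖) ^ 4 := by
    have h4 : ‖v‖ ^ 2 ≤ (1 + ‖v‖) ^ 2 := pow_le_pow_left₀ h2 (by linarith) 2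
    exact h4.trans (pow_le_pow_right₀ (by linarith) (by norm_num))
  have h5 : (d : ℝ) * ‖v‖ ^ 2 ≤ d * (1 + ‖v‖) ^ 4 := mul_le_mul_of_nonneg_left h3 (Nat.cast_nonneg d)
  have h6 := MdL_one_le v
  linarith

private lemma MdL_coord_abs (i : Fin d) (v : Vec d) : |v i| ≤ ‖v‖ := by
  rw [← Real.norm_eq_abs]
  exact norm_le_pi_norm v i

private lemma MdL_G_one : MdL_G ((d : ℝ) + 1) fun _ : Vec d => (1 : ℝ) := by
  intro v
  rw [abs_one]
  have h1 := MdL_one_le v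
  have h2 : (0 : ℝ) ≤ d := Nat.cast_nonneg d
  nlinarith

private lemma MdL_G_coord (i : Fin d) : MdL_G ((d : ℝ) + 1) fun v : Vec d => v i := by
  intro v
  have h1 := MdL_coord_abs i v
  have h2 := norm_nonneg v
  have h3 : 1 + ‖v‖ ≤ (1 + ‖v‖) ^ 4 := le_self_pow₀ (by linarith) (by norm_num)
  have h4 : (0 : ℝ) ≤ d := Nat.cast_nonneg d
  have h5 := mul_nonneg h4 (zero_le_one.trans (MdL_one_le v))
  simp only
  linarith

private lemma MdL_G_nsq : MdL_G ((d : ℝ) + 1) fun v : Vec d => nsq v := fun v => MdL_nsq_le v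

private lemma MdL_G_fc {R : ℝ} (hR : 1 ≤ R) (i : Fin d) : MdL_G ((d : ℝ) + 1) (fc R i) := by
  intro v
  refine le_trans ?_ (MdL_G_coord i v)
  unfold fc
  rw [abs_le]
  constructor
  · rcases le_total (v i) R with h | h
    · rw [min_eq_left h]
      exact (neg_abs_le _).trans (le_max_right _ _)
    · rw [min_eq_right h, max_eq_right (by linarith)]
      have := abs_nonneg (v i)
      linarith
  · refine max_le ?_ ((min_le_left _ _).trans (le_abs_self _))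
    have := abs_nonneg (v i)
    linarith

private lemma MdL_G_fe {R : ℝ} : MdL_G ((d : ℝ) + 1) (fe R : Vec d → ℝ) := by
  intro v
  refine le_trans ?_ (MdL_nsq_le v)
  unfold fe
  have h1 := sq_nonneg' v
  rw [abs_of_nonneg h1, abs_of_nonneg (le_min h1 (sq_nonneg R))]
  exact min_le_left _ _

private lemma MdL_d_one {τ : ℝ} (hτ : 0 ≤ τ) : MdL_G τ fun _ : Vec d => (1 : ℝ) - 1 := by
  intro v
  rw [sub_self, abs_zero]
  exact mul_nonneg hτ (zero_le_one.trans (MdL_one_le v))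

private lemma MdL_d_fc {R : ℝ} (hR : 1 ≤ R) (i : Fin d) :
    MdL_G ((1 + (d : ℝ) ^ 2) / R) fun v : Vec d => v i - fc R i v := by
  intro v
  have hR0 : 0 < R := by linarith
  have h0 : |v i - fc R i v| ≤ |v i| ^ 2 / R := by
    unfold fc
    rcases le_total |v i| R with h | h
    · have h1 := abs_le.1 h
      rw [min_eq_left h1.2, max_eq_right h1.1, sub_self, abs_zero]
      positivity
    · have h2 : |v i| ≤ |v i| ^ 2 / R := by
        rw [le_div_iff₀ hR0, sq]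
        exact mul_le_mul_of_nonneg_left h (abs_nonneg _)
      refine le_trans ?_ h2
      rcases abs_cases (v i) with ⟨h3, h4⟩ | ⟨h3, h4⟩
      · rw [h3] at h
        rw [min_eq_right h, max_eq_right (by linarith), h3, abs_of_nonneg (by linarith)]
        linarith
      · rw [h3] at h
        rw [min_eq_left (by linarith), max_eq_left (by linarith), h3, abs_of_nonpos (by linarith)]
        linarith
  refine h0.trans ?_
  have h1 := MdL_coord_abs i v
  have h2 := norm_nonneg v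
  have h3 : |v i| ^ 2 ≤ (1 + ‖v‖) ^ 4 := by
    have h4 : |v i| ^ 2 ≤ (1 + ‖v‖) ^ 2 := pow_le_pow_left₀ (abs_nonneg _) (by linarith) 2
    exact h4.trans (pow_le_pow_right₀ (by linarith) (by norm_num))
  rw [div_mul_eq_mul_div]
  refine div_le_div_of_nonneg_right ?_ hR0.le
  have h5 : 0 ≤ (d : ℝ) ^ 2 * (1 + ‖v‖) ^ 4 := by positivity
  linarith

private lemma MdL_d_fe {R : ℝ} (hR : 1 ≤ R) :
    MdL_G ((1 + (d : ℝ) ^ 2) / R) fun v : Vec d => nsq v - fe R v := by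
  intro v
  have hR0 : 0 < R := by linarith
  have hn := sq_nonneg' v
  have h0 : |nsq v - fe R v| ≤ nsq v ^ 2 / R := by
    unfold fe
    rcases le_total (nsq v) (R ^ 2) with h | h
    · rw [min_eq_left h, sub_self, abs_zero]
      positivity
    · have h2 : nsq v ≤ nsq v ^ 2 / R := by
        rw [le_div_iff₀ hR0, sq]
        refine mul_le_mul_of_nonneg_left ?_ hn
        nlinarith
      rw [min_eq_right h, abs_of_nonneg (by linarith)]
      have := sq_nonneg R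
      linarith
  refine h0.trans ?_
  have h1 := sq_le v
  have h2 := norm_nonneg v
  have h3 : nsq v ^ 2 ≤ (d : ℝ) ^ 2 * (1 + ‖v‖) ^ 4 := by
    calc nsq v ^ 2 ≤ (d * ‖v‖ ^ 2) ^ 2 := pow_le_pow_left₀ hn h1 2
      _ = (d : ℝ) ^ 2 * ‖v‖ ^ 4 := by ring
      _ ≤ (d : ℝ) ^ 2 * (1 + ‖v‖) ^ 4 :=
          mul_le_mul_of_nonneg_left (pow_le_pow_left₀ h2 (by linarith) 4) (by positivity)
  rw [div_mul_eq_mul_div]
  refine div_le_div_of_nonneg_right ?_ hR0.le
  have h5 := MdL_one_le v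
  linarith

/-- `x ↦ md (F x)` is integrable over the torus -/
theorem md_int {a k : ℝ} (ha : 0 < a) (hk : 0 < k) (u : Vec d) {F : Vec d → Vec d → ℝ} {Cl : ℕ → ℝ}
    (hc : Continuous fun q : Vec d × Vec d => F q.1 q.2) (h0 : ∀ x v, 0 ≤ F x v)
    (hF : ∀ (N : ℕ) (x v : Vec d), (1 + ‖v‖) ^ N * F x v ≤ Cl N) :
    Integrable (fun x => md (F x) (mx a k u)) (muD d) := by
  have hP : (0 : ℝ) ≤ (d : ℝ) + 1 := by positivity
  have c1 : Continuous fun x => ∫ v, F x v := by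
    have h := MdL_cont hc h0 hF hP continuous_const MdL_G_one
    simpa using h
  have c2 : ∀ i, Continuous fun x => ∫ v, F x v * v i := by
    intro i
    have h := MdL_cont hc h0 hF hP (continuous_apply i) (MdL_G_coord i)
    refine h.congr fun x => integral_congr_ae (Eventually.of_forall fun v => mul_comm _ _)
  have c3 : Continuous fun x => ∫ v, F x v * nsq v := by
    have h := MdL_cont hc h0 hF hP continuous_sq MdL_G_nsq
    refine h.congr fun x => integral_congr_ae (Eventually.of_forall fun v => mul_comm _ _)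
  refine MdL_intx ?_
  unfold md
  refine ((c1.sub continuous_const).abs.add ?_).add (c3.sub continuous_const).abs
  exact continuous_finsetSum _ fun i _ => ((c2 i).sub continuous_const).abs

/-- the final summation -/
private lemma MdL_fin {F : Vec d → Vec d → ℝ} {μ : Vec d → ℝ} {t η K ε V1 V3 : ℝ} {V2 : Fin d → ℝ}
    {G1 G3 : Vec d → ℝ} {G2 : Fin d → Vec d → ℝ} (hmd : Integrable (fun x => md (F x) μ) (muD d))
    (m1 : ∀ x, |(∫ v, F x v) - ∫ v, μ v| ≤ t + G1 x)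
    (m2 : ∀ i x, |(∫ v, F x v * v i) - ∫ v, μ v * v i| ≤ t + G2 i x)
    (m3 : ∀ x, |(∫ v, F x v * nsq v) - ∫ v, μ v * nsq v| ≤ t + G3 x)
    (v1 : ∫ x, G1 x ∂(muD d) ≤ η + K * V1) (v2 : ∀ i, ∫ x, G2 i x ∂(muD d) ≤ η + K * V2 i)
    (v3 : ∫ x, G3 x ∂(muD d) ≤ η + K * V3) (g1 : Integrable (fun x => G1 x) (muD d))
    (g2 : ∀ i, Integrable (fun x => G2 i x) (muD d)) (g3 : Integrable (fun x => G3 x) (muD d))
    (ht : ((d : ℝ) + 2) * t ≤ ε / 2) (hη : ((d : ℝ) + 2) * η = ε / 2) :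
    ∫ x, md (F x) μ ∂(muD d) ≤ ε + K * (V1 + (∑ i, V2 i) + V3) := by
  have hc : ∀ c : ℝ, ∫ _ : Vec d, c ∂(muD d) = c := by
    intro c
    rw [integral_const, MdL_real, one_smul]
  have i1 : Integrable (fun x => t + G1 x) (muD d) := (integrable_const t).add g1
  have i2 : ∀ i, Integrable (fun x => t + G2 i x) (muD d) := fun i => (integrable_const t).add (g2 i)
  have i3 : Integrable (fun x => t + G3 x) (muD d) := (integrable_const t).add g3
  have i4 : Integrable (fun x => ∑ i, (t + G2 i x)) (muD d) := integrable_finsetSum _ fun i _ => i2 i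
  have i5 : Integrable (fun x => (t + G1 x) + ∑ i, (t + G2 i x)) (muD d) := i1.add i4
  have h1 : ∫ x, md (F x) μ ∂(muD d) ≤
      ∫ x, ((t + G1 x) + ∑ i, (t + G2 i x)) + (t + G3 x) ∂(muD d) := by
    refine integral_mono hmd (i5.add i3) fun x => ?_
    unfold md
    exact add_le_add (add_le_add (m1 x) (Finset.sum_le_sum fun i _ => m2 i x)) (m3 x)
  refine h1.trans ?_
  rw [integral_add i5 i3, integral_add i1 i4, integral_finsetSum _ fun i _ => i2 i,
    integral_add (integrable_const t) g1, integral_add (integrable_const t) g3, hc]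
  have h2 : ∀ i, ∫ x, t + G2 i x ∂(muD d) ≤ t + (η + K * V2 i) := by
    intro i
    rw [integral_add (integrable_const t) (g2 i), hc]
    linarith [v2 i]
  have h3 := Finset.sum_le_sum fun (i : Fin d) (_ : i ∈ Finset.univ) => h2 i
  have h4 : ∑ i : Fin d, (t + (η + K * V2 i)) = (d : ℝ) * (t + η) + K * ∑ i, V2 i := by
    rw [Finset.mul_sum]
    have e : ∀ i : Fin d, t + (η + K * V2 i) = (t + η) + K * V2 i := fun i => by ring
    simp_rw [e]
    rw [Finset.sum_add_distrib, Finset.sum_const, Finset.card_univ, Fintype.card_fin, nsmul_eq_mul]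
  rw [h4] at h3
  have h5 : (t + (η + K * V1)) + ((d : ℝ) * (t + η) + K * ∑ i, V2 i) + (t + (η + K * V3)) =
      ((d : ℝ) + 2) * t + ((d : ℝ) + 2) * η + K * (V1 + (∑ i, V2 i) + V3) := by ring
  linarith

theorem md_le (Cl : ℕ → ℝ) {a k : ℝ} (ha : 0 < a) (hk : 0 < k) (u : Vec d) {ε : ℝ} (hε : 0 < ε) :
    ∃ R K : ℝ, 1 ≤ R ∧ 0 ≤ K ∧ ∀ F : Vec d → Vec d → ℝ,
      (Continuous fun q : Vec d × Vec d => F q.1 q.2) → (∀ x v, 0 ≤ F x v) →
      (∀ (N : ℕ) (x v : Vec d), (1 + ‖v‖) ^ N * F x v ≤ Cl N) → EqM a k u F →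
      ∫ x, md (F x) (mx a k u) ∂(muD d) ≤
        ε + K * (Vr (fun _ => 1) F + (∑ i, Vr (fc R i) F) + Vr (fe R) F) := by
  have hD := MdL_D_nonneg d Cl
  have hd0 : (0 : ℝ) ≤ d := Nat.cast_nonneg d
  have hP : (0 : ℝ) ≤ (d : ℝ) + 1 := by positivity
  obtain ⟨R, hR1, hRε⟩ : ∃ R : ℝ, 1 ≤ R ∧
      ((d : ℝ) + 2) * (2 * ((1 + (d : ℝ) ^ 2) / R * MdL_D d Cl)) ≤ ε / 2 := by
    refine ⟨max 1 (4 * ((d : ℝ) + 2) * (1 + (d : ℝ) ^ 2) * MdL_D d Cl / ε), le_max_left _ _, ?_⟩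
    generalize hRR : max 1 (4 * ((d : ℝ) + 2) * (1 + (d : ℝ) ^ 2) * MdL_D d Cl / ε) = R
    have h1 : 1 ≤ R := hRR ▸ le_max_left _ _
    have h2 : 4 * ((d : ℝ) + 2) * (1 + (d : ℝ) ^ 2) * MdL_D d Cl / ε ≤ R := hRR ▸ le_max_right _ _
    rw [div_le_iff₀ hε] at h2
    have hR0 : 0 < R := by linarith
    have e : ((d : ℝ) + 2) * (2 * ((1 + (d : ℝ) ^ 2) / R * MdL_D d Cl)) =
        (4 * ((d : ℝ) + 2) * (1 + (d : ℝ) ^ 2) * MdL_D d Cl) / R / 2 := by
      field_simp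
      ring
    rw [e]
    refine div_le_div_of_nonneg_right ?_ (by norm_num)
    rw [div_le_iff₀ hR0]
    linarith
  have hR0 : 0 < R := by linarith
  have hτ : 0 ≤ (1 + (d : ℝ) ^ 2) / R := by positivity
  have hdc := fun i : Fin d => MdL_d_fc hR1 i
  have hde : MdL_G ((1 + (d : ℝ) ^ 2) / R) fun v : Vec d => nsq v - fe R v := MdL_d_fe hR1
  generalize (1 + (d : ℝ) ^ 2) / R = τ at hRε hτ hdc hde
  have hη : 0 < ε / (2 * ((d : ℝ) + 2)) := by positivity
  have hηε : ((d : ℝ) + 2) * (ε / (2 * ((d : ℝ) + 2))) = ε / 2 := by field_simp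
  generalize ε / (2 * ((d : ℝ) + 2)) = η at hη hηε
  refine ⟨R, 1 / (4 * η), hR1, by positivity, fun F hc h0 hF hE => ?_⟩
  have hG : ∀ φ : Vec d → ℝ, Continuous φ → MdL_G ((d : ℝ) + 1) φ →
      Integrable (fun x => |(∫ v, φ v * F x v) - ∫ y, (∫ v, φ v * F y v) ∂(muD d)|) (muD d) :=
    fun φ h1 h2 => MdL_intx ((MdL_cont hc h0 hF hP h1 h2).sub continuous_const).abs
  have c1 : Continuous fun _ : Vec d => (1 : ℝ) := continuous_const
  have c2 : ∀ i, Continuous (fc R i : Vec d → ℝ) := fun i => TF_cont (TF_fc hR1 i)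
  have c3 : Continuous (fe R : Vec d → ℝ) := TF_cont (TF_fe hR1)
  have m1 : ∀ x, |(∫ v, F x v) - ∫ v, mx a k u v| ≤ 2 * (τ * MdL_D d Cl) +
      |(∫ v, (fun _ : Vec d => (1 : ℝ)) v * F x v) -
        ∫ y, (∫ v, (fun _ : Vec d => (1 : ℝ)) v * F y v) ∂(muD d)| := by
    intro x
    have e : (∫ v, F x v) = ∫ v, (fun _ : Vec d => (1 : ℝ)) v * F x v := by simp
    rw [e]
    refine MdL_mean hc h0 hF hP hτ c1 MdL_G_one c1 MdL_G_one (MdL_d_one hτ) ?_ x
    rw [← hE.mass]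
    exact integral_congr_ae (Eventually.of_forall fun q => one_mul _)
  have m2 : ∀ i x, |(∫ v, F x v * v i) - ∫ v, mx a k u v * v i| ≤ 2 * (τ * MdL_D d Cl) +
      |(∫ v, fc R i v * F x v) - ∫ y, (∫ v, fc R i v * F y v) ∂(muD d)| := by
    intro i x
    have e : (∫ v, F x v * v i) = ∫ v, (fun v : Vec d => v i) v * F x v :=
      integral_congr_ae (Eventually.of_forall fun v => mul_comm _ _)
    rw [e]
    refine MdL_mean hc h0 hF hP hτ (continuous_apply i) (MdL_G_coord i) (c2 i) (MdL_G_fc hR1 i)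
      (hdc i) ?_ x
    rw [← hE.mom i]
    exact integral_congr_ae (Eventually.of_forall fun q => mul_comm _ _)
  have m3 : ∀ x, |(∫ v, F x v * nsq v) - ∫ v, mx a k u v * nsq v| ≤ 2 * (τ * MdL_D d Cl) +
      |(∫ v, fe R v * F x v) - ∫ y, (∫ v, fe R v * F y v) ∂(muD d)| := by
    intro x
    have e : (∫ v, F x v * nsq v) = ∫ v, nsq v * F x v :=
      integral_congr_ae (Eventually.of_forall fun v => mul_comm _ _)
    rw [e]
    refine MdL_mean hc h0 hF hP hτ continuous_sq MdL_G_nsq c3 MdL_G_fe hde ?_ x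
    rw [← hE.ene]
    exact integral_congr_ae (Eventually.of_forall fun q => mul_comm _ _)
  have v1 := MdL_var hc h0 hF hP hη c1 MdL_G_one
  have v2 := fun i => MdL_var hc h0 hF hP hη (c2 i) (MdL_G_fc hR1 i)
  have v3 := MdL_var hc h0 hF hP hη c3 MdL_G_fe
  have g1 := hG _ c1 MdL_G_one
  have g2 := fun i => hG _ (c2 i) (MdL_G_fc hR1 i)
  have g3 := hG _ c3 MdL_G_fe
  have hk2 : ∀ c : ℝ, ∫ _ : Vec d, c ∂(muD d) = c := by
    intro c
    rw [integral_const, MdL_real, one_smul]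
  exact MdL_fin (md_int ha hk u hc h0 hF) m1 m2 m3 v1 v2 v3 g1 g2 g3 hRε hηε

theorem eqm_t (H : Hyp d γ s b C Ca) {T : ℝ} {f : ℝ → Vec d → Vec d → ℝ}
    (hf : IsBoltzmannSol γ b T f) {a k : ℝ} {u : Vec d} (h0 : EqM a k u (f 0)) {t : ℝ}
    (ht : t ∈ Ico 0 T) : EqM a k u (f t) := by
  have hI := boltz_HasInvariants H hf
  have key : ∀ p : Vec d → ℝ, PG p → Continuous p →
      (∀ t ∈ Ioo 0 T, ∀ x, ∫ v, boltzQ γ b (f t x) v * p v = 0) →
      ∫ q, f t q.2 q.1 * p q.1 ∂(nu d) = ∫ q, f 0 q.2 q.1 * p q.1 ∂(nu d) := by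
    intro p hp hpc hQ
    have h := mom_const hp hpc hf hQ ht
    unfold mom at h
    have e : ∀ r : ℝ, ∫ q, f r q.2 q.1 * p q.1 ∂(nu d) =
        ∫ q, (fun _ : Vec d => (1 : ℝ)) q.2 * p q.1 * f r q.2 q.1 ∂(nu d) := by
      intro r
      refine integral_congr_ae (Eventually.of_forall fun q => ?_)
      simp only
      ring
    rw [e t, e 0]
    exact h
  refine ⟨h0.ha, h0.hk, ?_, fun i => ?_, ?_⟩
  · rw [← h0.mass]
    have h := key (fun _ => 1) PG.one continuous_const fun t ht x => by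
      simpa using (hI t ht x).1
    simpa using h
  · rw [← h0.mom i]
    exact key (fun v => v i) (PG.coord i) (continuous_apply i) fun t ht x => (hI t ht x).2.1 i
  · rw [← h0.ene]
    exact key nsq PG.nsq continuous_sq fun t ht x => (hI t ht x).2.2

end Pool.Agent.H37.LT
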