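import Pool.Agent.H37.LT.MxA
import Pool.Agent.H48.PL.Glob

/-!
# Module MxC: small errors and bounds in terms of `Cl`

* `ek_small`: `0 ≤ g, h ≤ Cl (d+1) wt`; `ek ≤ C² ∫∫ κ²/((v_e-w_e)²+κ²) wt wt → 0` as `κ → 0` (dominated convergence along `κ = 1/(n+1)`, pointwise limit `0` for `v_e ≠ w_e`, and `{v_e = w_e}` is null in `Vec d × Vec d`: for fixed `w` a hyperplane; `Measure.pi` or `addHaar_affineSubspace`; or `MeasureTheory.Measure.ae_eval_ne`). If `Cl (d+1) < 0` there is no such `g ≥ 0`: treat with `C = max .. 0`.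
* `mass_le`: `∫ F ≤ M(Cl)`. `Hs_bd`: `|x log x| ≤ x² + 2 √x` for `x ≥ 0` (copy `tb_abs` of H48/PL/TimB), decay `(1+|v|)^(2(d+1))`, `nu` = product with a measure of mass `1`; no integrability of `F log F` needs to be assumed (if not integrable the integral is `0`; but it is, continuous).
* `Vr_cont`: `t ↦ ∫v φ f(t,x,v)` is jointly continuous in `(t,x)` on `[0,T) × ℝ^d` (dominated convergence, `avg_cont` in H48/PL/PotA with `Φ v w = φ w`, `uc_sol`), and then `∫ .. ∂muD` is continuous in `t` (compact cube; as in `XSt_cont`, H48/PL/XC).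
-/

set_option autoImplicit false

open MeasureTheory Set Filter Topology Pool.Agent.H25.Kin Pool.Agent.H48.PL
open Pool.Agent.H48.PI (Hs)

namespace Pool.Agent.H37.LT

variable {d : ℕ}

private lemma mxc_le {C : ℝ} {v : Vec d} {y : ℝ} (h : (1 + ‖v‖) ^ (d + 1) * y ≤ C) :
    y ≤ C * wt d v := by
  have h1 : 0 < (1 + ‖v‖) ^ (d + 1) := pow_pos (w_pos v) _
  unfold wt
  rw [← div_eq_mul_inv, le_div_iff₀ h1]
  linarith

private lemma mxc_wt_le (v : Vec d) : wt d v ≤ 1 := by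
  unfold wt
  have h1 : 1 ≤ (1 + ‖v‖) ^ (d + 1) := one_le_pow₀ (by linarith [norm_nonneg v])
  exact inv_le_one_of_one_le₀ h1

private lemma mxc_wt_cont : Continuous (wt d) := by
  unfold wt
  exact (by fun_prop : Continuous fun v : Vec d => (1 + ‖v‖) ^ (d + 1)).inv₀
    fun v => (pow_pos (w_pos v) _).ne'

private lemma mxc_ww : Integrable fun p : Vec d × Vec d => wt d p.1 * wt d p.2 :=
  (integrable_wt (d := d)).mul_prod (integrable_wt (d := d))

private lemma mxc_null (e : Fin d) : ∀ᵐ q : Vec d × Vec d, q.1 e ≠ q.2 e := by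
  have hc : IsClosed {q : Vec d × Vec d | q.1 e = q.2 e} :=
    isClosed_eq (by fun_prop) (by fun_prop)
  have h0 : (volume : Measure (Vec d × Vec d)) {q : Vec d × Vec d | q.1 e = q.2 e} = 0 := by
    rw [Measure.volume_eq_prod]
    refine (Measure.measure_prod_null hc.measurableSet).2 (Eventually.of_forall fun x => ?_)
    have e1 : (Prod.mk x ⁻¹' {q : Vec d × Vec d | q.1 e = q.2 e}) = {w : Vec d | w e = x e} := by
      ext w
      simp only [mem_preimage, mem_ofPred_eq]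
      exact eq_comm
    change volume (Prod.mk x ⁻¹' {q : Vec d × Vec d | q.1 e = q.2 e}) = 0
    rw [e1, volume_pi]
    exact Measure.pi_hyperplane (fun _ : Fin d => (volume : Measure ℝ)) e (x e)
  rw [ae_iff]
  simpa using h0

private lemma mxc_k {κ z : ℝ} (hκ : 0 < κ) :
    0 ≤ κ ^ 2 / (z ^ 2 + κ ^ 2) ∧ κ ^ 2 / (z ^ 2 + κ ^ 2) ≤ 1 := by
  have h1 : 0 < z ^ 2 + κ ^ 2 := by positivity
  refine ⟨by positivity, ?_⟩
  rw [div_le_one h1]
  nlinarith [sq_nonneg z]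

private lemma mxc_kc (e : Fin d) {κ : ℝ} (hκ : 0 < κ) :
    Continuous fun q : Vec d × Vec d => κ ^ 2 / ((q.1 e - q.2 e) ^ 2 + κ ^ 2) := by
  refine Continuous.div (by fun_prop) (by fun_prop) fun q => ?_
  have h1 : 0 < (q.1 e - q.2 e) ^ 2 + κ ^ 2 := by positivity
  exact h1.ne'

private noncomputable def mxcJ (e : Fin d) (κ : ℝ) : ℝ :=
  ∫ q : Vec d × Vec d, κ ^ 2 / ((q.1 e - q.2 e) ^ 2 + κ ^ 2) * (wt d q.1 * wt d q.2)

private lemma mxc_J_int (e : Fin d) {κ : ℝ} (hκ : 0 < κ) :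
    Integrable fun q : Vec d × Vec d =>
      κ ^ 2 / ((q.1 e - q.2 e) ^ 2 + κ ^ 2) * (wt d q.1 * wt d q.2) := by
  refine mxc_ww.mono' ?_ (Eventually.of_forall fun q => ?_)
  · exact ((mxc_kc e hκ).mul ((mxc_wt_cont.comp continuous_fst).mul
      (mxc_wt_cont.comp continuous_snd))).aestronglyMeasurable
  · have h1 := mxc_k (z := q.1 e - q.2 e) hκ
    have h2 : 0 ≤ wt d q.1 * wt d q.2 := mul_nonneg (wt_nonneg _) (wt_nonneg _)
    rw [Real.norm_eq_abs, abs_of_nonneg (mul_nonneg h1.1 h2)]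
    exact mul_le_of_le_one_left h2 h1.2

private lemma mxc_J_lim (e : Fin d) :
    Tendsto (fun n : ℕ => mxcJ e (1 / ((n : ℝ) + 1))) atTop (𝓝 0) := by
  have h0 : (0 : ℝ) = ∫ _q : Vec d × Vec d, (0 : ℝ) := by simp
  rw [h0]
  unfold mxcJ
  refine tendsto_integral_of_dominated_convergence
    (fun q : Vec d × Vec d => wt d q.1 * wt d q.2) ?_ mxc_ww ?_ ?_
  · intro n
    have hk : (0 : ℝ) < 1 / ((n : ℝ) + 1) := by positivity
    exact (mxc_J_int e hk).aestronglyMeasurable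
  · intro n
    refine Eventually.of_forall fun q => ?_
    have hk : (0 : ℝ) < 1 / ((n : ℝ) + 1) := by positivity
    have h1 := mxc_k (z := q.1 e - q.2 e) hk
    have h2 : 0 ≤ wt d q.1 * wt d q.2 := mul_nonneg (wt_nonneg _) (wt_nonneg _)
    rw [Real.norm_eq_abs, abs_of_nonneg (mul_nonneg h1.1 h2)]
    exact mul_le_of_le_one_left h2 h1.2
  · filter_upwards [mxc_null e] with q hq
    have hz : q.1 e - q.2 e ≠ 0 := sub_ne_zero.2 hq
    have h1 : Tendsto (fun n : ℕ => (1 / ((n : ℝ) + 1))) atTop (𝓝 0) :=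
      tendsto_one_div_add_atTop_nhds_zero_nat
    have h2 : Tendsto (fun n : ℕ => (1 / ((n : ℝ) + 1)) ^ 2 /
        ((q.1 e - q.2 e) ^ 2 + (1 / ((n : ℝ) + 1)) ^ 2) * (wt d q.1 * wt d q.2)) atTop
        (𝓝 ((0 : ℝ) ^ 2 / ((q.1 e - q.2 e) ^ 2 + (0 : ℝ) ^ 2) * (wt d q.1 * wt d q.2))) := by
      refine Tendsto.mul_const _ (Tendsto.div (h1.pow 2) ((h1.pow 2).const_add _) ?_)
      have : 0 < (q.1 e - q.2 e) ^ 2 := by positivity
      positivity
    simpa using h2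

theorem ek_small (e : Fin d) (Cl : ℕ → ℝ) {η : ℝ} (hη : 0 < η) : ∃ κ > 0, ∀ g h : Vec d → ℝ,
    Continuous g → Continuous h → (∀ v, 0 ≤ g v) → (∀ v, 0 ≤ h v) →
    (∀ (N : ℕ) (v : Vec d), (1 + ‖v‖) ^ N * g v ≤ Cl N) →
    (∀ (N : ℕ) (v : Vec d), (1 + ‖v‖) ^ N * h v ≤ Cl N) → ek e κ g h ≤ η := by
  set C : ℝ := max (Cl (d + 1)) 0 with hCdef
  have hC0 : 0 ≤ C := le_max_right _ _
  have hlim : Tendsto (fun n : ℕ => C * C * mxcJ e (1 / ((n : ℝ) + 1))) atTop (𝓝 (C * C * 0)) :=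
    (mxc_J_lim e).const_mul _
  rw [mul_zero] at hlim
  obtain ⟨n, hn⟩ := (hlim.eventually (gt_mem_nhds hη)).exists
  have hk : (0 : ℝ) < 1 / ((n : ℝ) + 1) := by positivity
  refine ⟨1 / ((n : ℝ) + 1), hk, fun g h hgc hhc hg0 hh0 hgC hhC => ?_⟩
  refine le_trans ?_ hn.le
  have bg : ∀ v, g v ≤ C * wt d v := fun v =>
    (mxc_le (hgC (d + 1) v)).trans (mul_le_mul_of_nonneg_right (le_max_left _ _) (wt_nonneg v))
  have bh : ∀ v, h v ≤ C * wt d v := fun v =>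
    (mxc_le (hhC (d + 1) v)).trans (mul_le_mul_of_nonneg_right (le_max_left _ _) (wt_nonneg v))
  unfold ek mxcJ
  rw [← integral_const_mul]
  refine integral_mono_of_nonneg (Eventually.of_forall fun q => ?_)
    ((mxc_J_int e hk).const_mul _) (Eventually.of_forall fun q => ?_)
  · exact mul_nonneg (mxc_k hk).1 (mul_nonneg (hg0 _) (hh0 _))
  · change (1 / ((n : ℝ) + 1)) ^ 2 / ((q.1 e - q.2 e) ^ 2 + (1 / ((n : ℝ) + 1)) ^ 2) *
        (g q.1 * h q.2) ≤ C * C * ((1 / ((n : ℝ) + 1)) ^ 2 /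
        ((q.1 e - q.2 e) ^ 2 + (1 / ((n : ℝ) + 1)) ^ 2) * (wt d q.1 * wt d q.2))
    have h1 : g q.1 * h q.2 ≤ (C * wt d q.1) * (C * wt d q.2) :=
      mul_le_mul (bg _) (bh _) (hh0 _) (mul_nonneg hC0 (wt_nonneg _))
    have h2 := mul_le_mul_of_nonneg_left h1 (mxc_k (z := q.1 e - q.2 e) hk).1
    calc _ ≤ _ := h2
      _ = _ := by ring

theorem mass_le (d : ℕ) (Cl : ℕ → ℝ) : ∃ M : ℝ, 0 ≤ M ∧ ∀ g : Vec d → ℝ, Continuous g → (∀ v, 0 ≤ g v) →
    (∀ (N : ℕ) (v : Vec d), (1 + ‖v‖) ^ N * g v ≤ Cl N) → ∫ v, g v ≤ M := by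
  refine ⟨max (Cl (d + 1)) 0 * ∫ v, wt d v, mul_nonneg (le_max_right _ _)
    (integral_nonneg fun v => wt_nonneg v), fun g _ hg0 hgC => ?_⟩
  rw [← integral_const_mul]
  refine integral_mono_of_nonneg (Eventually.of_forall fun v => hg0 v)
    (integrable_wt.const_mul _) (Eventually.of_forall fun v => ?_)
  exact (mxc_le (hgC (d + 1) v)).trans (mul_le_mul_of_nonneg_right (le_max_left _ _) (wt_nonneg v))

private lemma mxc_abs {a : ℝ} (ha : 0 ≤ a) : |a * Real.log a| ≤ a ^ 2 + 2 * √a := by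
  rcases ha.eq_or_lt with h0 | h0
  · rw [← h0]
    simp
  · rw [abs_mul, abs_of_pos h0]
    rcases le_total 1 a with h | h
    · rw [abs_of_nonneg (Real.log_nonneg h)]
      have h1 := mul_le_mul_of_nonneg_left (Real.log_le_self ha) ha
      have h2 := Real.sqrt_nonneg a
      nlinarith
    · rw [abs_of_nonpos (Real.log_nonpos ha h)]
      have hr : 0 < √a := Real.sqrt_pos.2 h0
      have h1 : Real.log (√a)⁻¹ ≤ (√a)⁻¹ - 1 := Real.log_le_sub_one_of_pos (inv_pos.2 hr)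
      rw [Real.log_inv, Real.log_sqrt ha] at h1
      have h2 : -Real.log a ≤ 2 * (√a)⁻¹ := by linarith
      have h3 : a * (√a)⁻¹ = √a := by
        nth_rw 1 [← Real.mul_self_sqrt ha]
        rw [mul_assoc, mul_inv_cancel₀ hr.ne', mul_one]
      calc a * -Real.log a ≤ a * (2 * (√a)⁻¹) := mul_le_mul_of_nonneg_left h2 ha
        _ = 2 * (a * (√a)⁻¹) := by ring
        _ = 2 * √a := by rw [h3]
        _ ≤ a ^ 2 + 2 * √a := by nlinarith [sq_nonneg a]

private lemma mxc_pt {C : ℝ} (hC : 0 ≤ C) {v : Vec d} {y : ℝ} (hy : 0 ≤ y)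
    (h : (1 + ‖v‖) ^ (2 * (d + 1)) * y ≤ C) :
    |y * Real.log y| ≤ (C ^ 2 + 2 * √C) * wt d v := by
  have hw0 := wt_nonneg v
  have hw1 := mxc_wt_le v
  have h1 : y ≤ C * (wt d v * wt d v) := by
    have hp : 0 < (1 + ‖v‖) ^ (2 * (d + 1)) := pow_pos (w_pos v) _
    have e1 : wt d v * wt d v = ((1 + ‖v‖) ^ (2 * (d + 1)))⁻¹ := by
      unfold wt
      rw [← mul_inv, ← pow_add]
      congr 2
      ring
    rw [e1, ← div_eq_mul_inv, le_div_iff₀ hp]
    linarith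
  have h2 : √y ≤ √C * wt d v := by
    have h3 := Real.sqrt_le_sqrt h1
    rw [Real.sqrt_mul hC, Real.sqrt_mul_self hw0] at h3
    exact h3
  have h4 : y ≤ C * wt d v :=
    h1.trans (mul_le_mul_of_nonneg_left (mul_le_of_le_one_left hw0 hw1) hC)
  have h5 : y ^ 2 ≤ C ^ 2 * wt d v := by
    calc y ^ 2 ≤ (C * wt d v) ^ 2 := pow_le_pow_left₀ hy h4 2
      _ = C ^ 2 * (wt d v * wt d v) := by ring
      _ ≤ C ^ 2 * wt d v :=
        mul_le_mul_of_nonneg_left (mul_le_of_le_one_left hw0 hw1) (sq_nonneg C)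
  have h6 := mxc_abs hy
  linarith

theorem Hs_bd (d : ℕ) (Cl : ℕ → ℝ) : ∃ C : ℝ, 0 ≤ C ∧ ∀ F : Vec d → Vec d → ℝ,
    (Continuous fun q : Vec d × Vec d => F q.1 q.2) → (∀ x v, 0 ≤ F x v) →
    (∀ (N : ℕ) (x v : Vec d), (1 + ‖v‖) ^ N * F x v ≤ Cl N) → |Hs F| ≤ C := by
  have hC0 : 0 ≤ max (Cl (2 * (d + 1))) 0 := le_max_right _ _
  generalize hCdef : max (Cl (2 * (d + 1))) 0 = C at hC0
  have hle : Cl (2 * (d + 1)) ≤ C := by rw [← hCdef]; exact le_max_left _ _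
  have hi : Integrable (fun q : Vec d × Vec d => (C ^ 2 + 2 * √C) * wt d q.1) (nu d) :=
    ((integrable_wt (d := d)).comp_fst (muD d)).const_mul _
  have hK : 0 ≤ C ^ 2 + 2 * √C := by positivity
  refine ⟨∫ q, (C ^ 2 + 2 * √C) * wt d q.1 ∂(nu d),
    integral_nonneg fun q => mul_nonneg hK (wt_nonneg _), fun F _ hF0 hFC => ?_⟩
  unfold Hs
  rw [← Real.norm_eq_abs]
  refine norm_integral_le_of_norm_le hi (Eventually.of_forall fun q => ?_)
  rw [Real.norm_eq_abs]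
  exact mxc_pt hC0 (hF0 _ _) ((hFC _ _ _).trans hle)

private lemma mxc_tc {T : ℝ} {M : ℝ → Vec d → ℝ}
    (hM : ContinuousOn (fun q : ℝ × Vec d => M q.1 q.2) (Ico 0 T ×ˢ univ))
    (hb : ∀ T₁ < T, ∃ C : ℝ, ∀ t ∈ Icc 0 T₁, ∀ x, |M t x| ≤ C) :
    ContinuousOn (fun t : ℝ => ∫ x, M t x ∂(muD d)) (Ico 0 T) := by
  intro t ht
  have hlt : (t + T) / 2 < T := by linarith [ht.2]
  obtain ⟨C, hC⟩ := hb _ hlt
  have hsub : ∀ r ∈ Icc 0 ((t + T) / 2), r ∈ Ico 0 T := fun r hr => ⟨hr.1, hr.2.trans_lt hlt⟩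
  have key : ContinuousOn (fun t : ℝ => ∫ x, M t x ∂(muD d)) (Icc 0 ((t + T) / 2)) := by
    refine continuousOn_of_dominated (bound := fun _ => C) ?_ ?_ ?_ ?_
    · intro r hr
      have h1 : Continuous fun x : Vec d => (r, x) := by fun_prop
      have h2 : Continuous fun x : Vec d => M r x :=
        hM.comp_continuous h1 fun x => ⟨hsub r hr, mem_univ _⟩
      exact h2.aestronglyMeasurable
    · intro r hr
      refine Eventually.of_forall fun x => ?_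
      rw [Real.norm_eq_abs]
      exact hC r hr x
    · exact integrable_const C
    · refine Eventually.of_forall fun x => ?_
      have h1 : Continuous fun r : ℝ => (r, x) := by fun_prop
      exact hM.comp h1.continuousOn fun r hr => ⟨hsub r hr, mem_univ _⟩
  refine (key t ⟨ht.1, by linarith [ht.2]⟩).mono_of_mem_nhdsWithin ?_
  filter_upwards [mem_nhdsWithin_of_mem_nhds (Iio_mem_nhds (show t < (t + T) / 2 by linarith [ht.2])),
    self_mem_nhdsWithin] with r hr hr2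
  exact ⟨hr2.1, le_of_lt hr⟩

theorem Vr_cont {T : ℝ} {Q f : ℝ → Vec d → Vec d → ℝ} (hf : IsClassicalSol T Q f) {A : ℝ}
    {φ : Vec d → ℝ} (hφ : TF A φ) : ContinuousOn (fun t => Vr φ (f t)) (Ico 0 T) := by
  have hA : 0 ≤ A := (abs_nonneg _).trans (hφ.bd 0)
  have hφc : Continuous φ := TF_cont hφ
  have hΦ : PGW (fun _ w : Vec d => φ w) :=
    ⟨hφc.comp continuous_snd, 0, A, hA, fun v w => by simpa using hφ.bd w⟩
  have h1 := avg_cont (uc_sol hf) hΦ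
  have h2 : ContinuousOn (fun q : ℝ × Vec d => ∫ w, φ w * f q.1 q.2 w) (Ico 0 T ×ˢ univ) := by
    have h3 : Continuous fun q : ℝ × Vec d => (q.1, q.2, (0 : Vec d)) := by fun_prop
    exact h1.comp h3.continuousOn fun q hq => ⟨hq.1, mem_univ _⟩
  have hb : ∀ T₁ < T, ∃ C : ℝ, ∀ t ∈ Icc 0 T₁, ∀ x, |∫ w, φ w * f t x w| ≤ C := by
    intro T₁ hT₁
    obtain ⟨C, hC0, hC⟩ := hf.f_le hT₁ (d + 1)
    refine ⟨∫ w, A * C * wt d w, fun t ht x => ?_⟩
    rw [← Real.norm_eq_abs]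
    refine norm_integral_le_of_norm_le (integrable_wt.const_mul _)
      (Eventually.of_forall fun w => ?_)
    rw [Real.norm_eq_abs, abs_mul]
    have h4 := hC t ht x w
    calc |φ w| * |f t x w| ≤ A * (C * ((1 + ‖w‖) ^ (d + 1))⁻¹) :=
          mul_le_mul (hφ.bd w) h4 (abs_nonneg _) hA
      _ = A * C * wt d w := by unfold wt; ring
  have hb2 : ∀ T₁ < T, ∃ C : ℝ, ∀ t ∈ Icc 0 T₁, ∀ x, |(∫ w, φ w * f t x w) ^ 2| ≤ C := by
    intro T₁ hT₁
    obtain ⟨C, hC⟩ := hb T₁ hT₁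
    refine ⟨C ^ 2, fun t ht x => ?_⟩
    rw [abs_pow]
    exact pow_le_pow_left₀ (abs_nonneg _) (hC t ht x) 2
  have c1 := mxc_tc (M := fun t x => (∫ w, φ w * f t x w) ^ 2) (h2.pow 2) hb2
  have c2 := mxc_tc (M := fun t x => ∫ w, φ w * f t x w) h2 hb
  unfold Vr
  exact c1.sub (c2.pow 2)

end Pool.Agent.H37.LT
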