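import Pool.Agent.H37.LT.MxB
import Pool.Agent.H37.LT.MxC
import Pool.Agent.H37.LT.ErB

/-!
# Module MxD: the variances are small in time average

Model: `pair_time` in H48/PL/TimC.lean. Given `ε`, put `M` of `mass_le` (`A ≥ 0`, otherwise there is no test function: replace `A` by `max A 0`, `TF` is monotone in `A`). `κ` from `ek_small` with `η₀`, `2 A² η₀ ≤ ε/4`. `A' = A² (1/κ + 1/κ²)`. `err_lip` with `A'`, `ε₁`, `M ε₁ ≤ ε/4`: constant `K₁`. `K = 2 (A²/(2κ)) M² + M K₁ (2 C_H + 1) + 1` with `C_H` of `Hs_bd`.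
Given `f`, `L`: `Cl'` from `sol_unice` on `[1,L]`; `η = ε/(4 (M+1))` in `err_lip`, `δ₀`; `drop_lim` (H87/PE/Drop, `r = 1`, `t = L`, error `1`); `Dn` is `≥ -1` for small `δ` (`Dn_ge`), not needed. Fix one `δ`. For `τ ∈ [1,L]` the function `E x = K₁ Dn δ (f τ x) + ε₁ + η` is planar, periodic and continuous in `x` (`Dn_cont'` in H48/PI/DnC; periodic and planar because `f τ x` is) and `≥ 0` (it bounds an absolute value, e.g. with `ψ = 0`); `PM_TF` and `err_lip` give `hG` of `mix_slice` (`PM e κ φ v` is the test function; commute the product). So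
`Vr φ (f τ) ≤ S(τ) + M ∫x E + ε/4`, `S(τ)` = source of `csol_pair` with `Φ = PM e κ φ`, `l = 1`. Integrate over `[1,L]`: `∫ S = [∫ f pot]_1^L` (`CSol.ftc`), `≤ 2 (A²/(2κ)) M²` (`pot_bd'`), `∫∫ Dn ≤ Hs(f 1) - Hs(f L) + 1 ≤ 2 C_H + 1`. Interval integrability: `Vr_cont`, `CSol.contI`, `Dn_cont`.
-/

set_option autoImplicit false

open MeasureTheory Set Filter Topology Pool.Agent.H25.Kin Pool.Agent.H48.PL Pool.Agent.H87.PE
open Pool.Agent.H15.AV (gau UNice sol_unice)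
open Pool.Agent.H48.PI (Dn Hs)

namespace Pool.Agent.H37.LT

variable {d : ℕ} {γ s C Ca : ℝ} {b : ℝ → ℝ}

private lemma MxD_mono {A B : ℝ} {φ : Vec d → ℝ} (h : TF A φ) (hAB : A ≤ B) : TF B φ :=
  ⟨fun v => (h.bd v).trans hAB, fun v w => (h.lip v w).trans
    (mul_le_mul_of_nonneg_right hAB (Real.sqrt_nonneg _))⟩

private lemma MxD_zero {A : ℝ} (hA : 0 ≤ A) : TF A (fun _ : Vec d => (0 : ℝ)) :=
  ⟨fun v => by simpa using hA, fun v w => by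
    have h : 0 ≤ A * len (v - w) := mul_nonneg hA (Real.sqrt_nonneg _)
    simpa using h⟩

private lemma MxD_last {ε L : ℝ} (h : 0 ≤ ε * (L - 1)) :
    (L - 1) * (3 * ε / 4) ≤ ε * (L - 1) := by
  have h1 : (L - 1) * (3 * ε / 4) = 3 / 4 * (ε * (L - 1)) := by ring
  rw [h1]
  linarith

theorem mix_time (H : Hyp d γ s b C Ca) (hγ : 0 ≤ γ) (e : Fin d) (Cl : ℕ → ℝ) (A : ℝ) {ε : ℝ}
    (hε : 0 < ε) : ∃ K : ℝ, 0 ≤ K ∧ ∀ (m T : ℝ) (f : ℝ → Vec d → Vec d → ℝ),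
      Pool.Agent.H48.CV.PB γ b Cl m e T f → ∀ φ : Vec d → ℝ, TF A φ → ∀ L : ℝ, 1 ≤ L → L < T →
      ∫ τ in (1 : ℝ)..L, Vr φ (f τ) ≤ K + ε * (L - 1) := by
  obtain ⟨A₀, hA₀⟩ : ∃ A₀, A₀ = max A 0 := ⟨_, rfl⟩
  have hA0 : 0 ≤ A₀ := by rw [hA₀]; exact le_max_right _ _
  have hAA : A ≤ A₀ := by rw [hA₀]; exact le_max_left _ _
  obtain ⟨M, hM0, hM⟩ := mass_le d Cl
  obtain ⟨η₀, hη₀⟩ : ∃ η₀, η₀ = ε / (8 * A₀ ^ 2 + 1) := ⟨_, rfl⟩
  have hden : 0 < 8 * A₀ ^ 2 + 1 := by positivity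
  have hη₀0 : 0 < η₀ := by rw [hη₀]; positivity
  obtain ⟨κ, hκ, hek⟩ := ek_small e Cl hη₀0
  obtain ⟨A', hA'⟩ : ∃ A', A' = A₀ ^ 2 * (1 / κ + 1 / κ ^ 2) := ⟨_, rfl⟩
  have hA'0 : 0 ≤ A' := by rw [hA']; positivity
  obtain ⟨ε₁, hε₁⟩ : ∃ ε₁, ε₁ = ε / (4 * (M + 1)) := ⟨_, rfl⟩
  have hε₁0 : 0 < ε₁ := by rw [hε₁]; positivity
  have hMε : M * ε₁ ≤ ε / 4 := by
    rw [hε₁, ← mul_div_assoc, div_le_iff₀ (by positivity)]
    nlinarith
  have hAη : 2 * A₀ ^ 2 * η₀ ≤ ε / 4 := by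
    rw [hη₀, ← mul_div_assoc, div_le_iff₀ hden]
    nlinarith [mul_nonneg hε.le (sq_nonneg A₀)]
  obtain ⟨K₁, hK₁, herr⟩ := err_lip H hγ Cl A' hε₁0
  obtain ⟨CH, hCH0, hCH⟩ := Hs_bd d Cl
  refine ⟨2 * (A₀ ^ 2 / (2 * κ) * M ^ 2) + M * K₁ * (2 * CH + 1), by positivity, ?_⟩
  intro m T f hP φ hφ' L hL hLT
  have hφ : TF A₀ φ := MxD_mono hφ' hAA
  have hf := hP.sol
  have hpl := hP.pla
  have hfc : IsClassicalSol T (fun t x => boltzQ γ b (f t x)) f := hf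
  obtain ⟨Cl', hCl'⟩ := sol_unice hfc (T₀ := 1) (T₁ := L) one_pos hLT
  obtain ⟨δ₀, hδ₀, hδe⟩ := herr Cl' ε₁ hε₁0
  obtain ⟨δ₁, hδ₁, hδd⟩ := drop_lim H hf (r := 1) (t := L) one_pos hL hLT one_pos
  obtain ⟨δ, hδ⟩ : ∃ δ, δ = min δ₀ δ₁ := ⟨_, rfl⟩
  have hδ0 : 0 < δ := by rw [hδ]; exact lt_min hδ₀ hδ₁
  have hδe' := hδe δ ⟨hδ0, by rw [hδ]; exact min_le_left _ _⟩
  have hδd' := hδd δ ⟨hδ0, by rw [hδ]; exact min_le_right _ _⟩
  have hΦ : PGW (PM e κ φ) := PM_PGW e hκ hA0 hφ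
  have hC := csol_pair hfc hpl hΦ one_pos
  have hDc := Pool.Agent.H48.PI.Dn_cont' hf hδ0
  -- the slices
  have hIoo : ∀ τ ∈ Icc 1 L, τ ∈ Ioo 0 T := fun τ hτ => ⟨by linarith [hτ.1], by linarith [hτ.2]⟩
  have hIco : ∀ τ ∈ Icc 1 L, τ ∈ Ico 0 T := fun τ hτ => ⟨by linarith [hτ.1], by linarith [hτ.2]⟩
  have hcx : ∀ τ ∈ Icc 1 L, ∀ x, Continuous (f τ x) := fun τ hτ x =>
    (hCl' τ hτ x).nice.cont
  have hmass : ∀ τ ∈ Icc 1 L, ∀ x, ∫ v, f τ x v ≤ M := fun τ hτ x =>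
    hM (f τ x) (hcx τ hτ x) (hfc.nonneg τ (hIco τ hτ) x) (fun N v => hP.dec τ (hIco τ hτ) N x v)
  have hD : ∀ τ ∈ Icc 1 L, PlF e fun x => Dn γ b δ (f τ x) := by
    intro τ hτ
    refine ⟨?_, ?_, ?_⟩
    · have h1 : Continuous fun x : Vec d => ((τ, x) : ℝ × Vec d) :=
        Continuous.prodMk continuous_const continuous_id
      have h2 := hDc.1
      have h3 := h2.comp_continuous h1 fun x => Set.mk_mem_prod (hIoo τ hτ) (mem_univ x)
      exact h3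
    · intro x i
      have h1 : f τ (x + Pi.single i 1) = f τ x := funext fun v => hfc.periodic τ (hIco τ hτ) x v i
      simp only [h1]
    · intro x y hxy
      have h1 : f τ x = f τ y := funext fun v => hpl τ (hIco τ hτ) x y v hxy
      simp only [h1]
  have hsl : ∀ τ ∈ Icc 1 L, Vr φ (f τ) ≤
      (∫ p, (boltzQ γ b (f τ p.2) p.1 * pot e 1 (PM e κ φ) (f τ) p.2 p.1 +
        f τ p.2 p.1 * dpot e 1 (PM e κ φ) (f τ) (fun x => boltzQ γ b (f τ x)) p.2 p.1) ∂(nu d)) +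
      M * K₁ * (∫ x, Dn γ b δ (f τ x) ∂(muD d)) + 3 * ε / 4 := by
    intro τ hτ
    have hEi : Integrable (fun x => Dn γ b δ (f τ x)) (muD d) := pl_int (hD τ hτ)
    have hE : PlF e fun x => K₁ * Dn γ b δ (f τ x) + ε₁ + ε₁ := by
      refine ⟨((continuous_const.mul (hD τ hτ).cont).add continuous_const).add continuous_const,
        ?_, ?_⟩
      · intro x i
        have h1 : Dn γ b δ (f τ (x + Pi.single i 1)) = Dn γ b δ (f τ x) := (hD τ hτ).per x i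
        simp only [h1]
      · intro x y hxy
        have h1 : Dn γ b δ (f τ x) = Dn γ b δ (f τ y) := (hD τ hτ).pl x y hxy
        simp only [h1]
    have hE0 : ∀ x, 0 ≤ K₁ * Dn γ b δ (f τ x) + ε₁ + ε₁ := fun x => by
      have h1 := hδe' (f τ x) (hCl' τ hτ x) (fun N v => hP.dec τ (hIco τ hτ) N x v) _ (MxD_zero hA'0)
      exact (abs_nonneg _).trans h1
    have hG : ∀ x v, |∫ w, PM e κ φ v w * boltzQ γ b (f τ x) w| ≤
        K₁ * Dn γ b δ (f τ x) + ε₁ + ε₁ := fun x v => by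
      have hT : TF A' (PM e κ φ v) := by
        rw [hA']
        exact PM_TF e hκ hA0 hφ v
      have h1 := hδe' (f τ x) (hCl' τ hτ x) (fun N v => hP.dec τ (hIco τ hτ) N x v) _ hT
      have h2 : ∫ w, PM e κ φ v w * boltzQ γ b (f τ x) w =
          ∫ w, boltzQ γ b (f τ x) w * PM e κ φ v w := by
        congr 1
        funext w
        exact mul_comm _ _
      rw [h2]
      exact h1
    have hek' : ∀ x y, ek e κ (f τ x) (f τ y) ≤ η₀ := fun x y =>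
      hek (f τ x) (f τ y) (hcx τ hτ x) (hcx τ hτ y) (hfc.nonneg τ (hIco τ hτ) x)
        (hfc.nonneg τ (hIco τ hτ) y) (fun N v => hP.dec τ (hIco τ hτ) N x v)
        (fun N v => hP.dec τ (hIco τ hτ) N y v)
    have h1 := mix_slice (fs_of hf hpl (hIoo τ hτ)) hκ hA0 hφ hE hE0 hG (hmass τ hτ) hek'
    have h2 : ∫ x, (K₁ * Dn γ b δ (f τ x) + ε₁ + ε₁) ∂(muD d) =
        K₁ * (∫ x, Dn γ b δ (f τ x) ∂(muD d)) + ε₁ + ε₁ := by
      have hc : ∫ _x : Vec d, ε₁ ∂(muD d) = ε₁ := by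
        rw [integral_const, measureReal_def, muD_univ]
        simp
      have i1 : Integrable (fun x => K₁ * Dn γ b δ (f τ x)) (muD d) := hEi.const_mul _
      have i2 : Integrable (fun _ : Vec d => ε₁) (muD d) := integrable_const _
      have i3 : Integrable (fun x => K₁ * Dn γ b δ (f τ x) + ε₁) (muD d) := i1.add i2
      rw [integral_add i3 i2, integral_add i1 i2, integral_const_mul, hc]
    rw [h2] at h1
    refine h1.trans ?_
    have h3 : M * (K₁ * (∫ x, Dn γ b δ (f τ x) ∂(muD d)) + ε₁ + ε₁) =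
        M * K₁ * (∫ x, Dn γ b δ (f τ x) ∂(muD d)) + 2 * (M * ε₁) := by ring
    rw [h3]
    linarith
  -- integrate in time
  have hsubIoo : Icc 1 L ⊆ Ioo 0 T := fun τ hτ => hIoo τ hτ
  have hsubIco : Icc 1 L ⊆ Ico 0 T := fun τ hτ => hIco τ hτ
  have iV : IntervalIntegrable (fun τ => Vr φ (f τ)) volume 1 L := by
    apply ContinuousOn.intervalIntegrable
    rw [uIcc_of_le hL]
    exact (Vr_cont hfc hφ).mono hsubIco
  have iS : IntervalIntegrable (fun τ => ∫ p, (boltzQ γ b (f τ p.2) p.1 *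
      pot e 1 (PM e κ φ) (f τ) p.2 p.1 + f τ p.2 p.1 * dpot e 1 (PM e κ φ) (f τ)
        (fun x => boltzQ γ b (f τ x)) p.2 p.1) ∂(nu d)) volume 1 L := by
    apply ContinuousOn.intervalIntegrable
    rw [uIcc_of_le hL]
    exact hC.contI.mono hsubIoo
  have iD : IntervalIntegrable (fun τ => ∫ x, Dn γ b δ (f τ x) ∂(muD d)) volume 1 L := by
    apply ContinuousOn.intervalIntegrable
    rw [uIcc_of_le hL]
    exact hDc.2.mono hsubIoo
  have hint : ∫ τ in (1 : ℝ)..L, Vr φ (f τ) ≤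
      ∫ τ in (1 : ℝ)..L, ((∫ p, (boltzQ γ b (f τ p.2) p.1 * pot e 1 (PM e κ φ) (f τ) p.2 p.1 +
        f τ p.2 p.1 * dpot e 1 (PM e κ φ) (f τ) (fun x => boltzQ γ b (f τ x)) p.2 p.1) ∂(nu d)) +
      M * K₁ * (∫ x, Dn γ b δ (f τ x) ∂(muD d)) + 3 * ε / 4) :=
    intervalIntegral.integral_mono_on hL iV
      ((iS.add (iD.const_mul _)).add intervalIntegrable_const) (fun τ hτ => hsl τ hτ)
  rw [intervalIntegral.integral_add (iS.add (iD.const_mul _)) intervalIntegrable_const,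
    intervalIntegral.integral_add iS (iD.const_mul _), intervalIntegral.integral_const,
    intervalIntegral.integral_const_mul, smul_eq_mul] at hint
  have hftc := hC.ftc one_pos hL hLT
  rw [← hftc] at hint
  have h1m : (1 : ℝ) ∈ Icc 1 L := ⟨le_rfl, hL⟩
  have hLm : L ∈ Icc 1 L := ⟨hL, le_rfl⟩
  have b1 := abs_le.1 (pot_bd' (fs_of hf hpl (hIoo 1 h1m)) hΦ (PM_bd e hκ hA0 hφ) (hmass 1 h1m))
  have b2 := abs_le.1 (pot_bd' (fs_of hf hpl (hIoo L hLm)) hΦ (PM_bd e hκ hA0 hφ) (hmass L hLm))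
  have hH : ∀ τ ∈ Icc 1 L, |Hs (f τ)| ≤ CH := fun τ hτ =>
    hCH (f τ) (IsClassicalSol.cont_slice hfc (hIco τ hτ)) (hfc.nonneg τ (hIco τ hτ))
      (fun N x v => hP.dec τ (hIco τ hτ) N x v)
  have c1 := abs_le.1 (hH 1 h1m)
  have c2 := abs_le.1 (hH L hLm)
  have hd1 := abs_le.1 hδd'
  have hDle : ∫ τ in (1 : ℝ)..L, (∫ x, Dn γ b δ (f τ x) ∂(muD d)) ≤ 2 * CH + 1 := by
    linarith [hd1.2, c1.2, c2.1]
  have hDM := mul_le_mul_of_nonneg_left hDle (mul_nonneg hM0 hK₁)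
  have hL1 : 0 ≤ ε * (L - 1) := mul_nonneg hε.le (by linarith)
  have hlast : (L - 1) * (3 * ε / 4) ≤ ε * (L - 1) := MxD_last hL1
  linarith [b1.1, b2.2]

end Pool.Agent.H37.LT
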