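import Pool.Agent.H37.LT.PrC
import Pool.Agent.H37.LT.MxD
import Pool.Agent.H37.LT.MdL

/-!
# Block P1 assembled
-/

set_option autoImplicit false

open MeasureTheory Set Filter Topology Pool.Agent.H25.Kin Pool.Agent.H48.PL Pool.Agent.H87.PE
open Pool.Agent.H15.AV (gau UNice sol_unice nu_integral)
open Pool.Agent.H48.PI (Dn Hs)
open Pool.Agent.H82.CM (HypL)
open Pool.Agent.H48.NE (mx)
open Pool.Agent.H48.CV (EqM PB)

namespace Pool.Agent.H37.LT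

variable {d : ℕ} {γ s C Ca cb : ℝ} {b : ℝ → ℝ}

/-- the sum of the variances -/
noncomputable def VV (R : ℝ) (F : Vec d → Vec d → ℝ) : ℝ :=
  Vr (fun _ => 1) F + (∑ i, Vr (fc R i) F) + Vr (fe R) F

private lemma main_VVc {T : ℝ} {Q f : ℝ → Vec d → Vec d → ℝ} (hf : IsClassicalSol T Q f) {R : ℝ}
    (hR : 1 ≤ R) : ContinuousOn (fun t => VV R (f t)) (Ico 0 T) := by
  unfold VV
  exact ((Vr_cont hf (TF_one hR)).add
    (continuousOn_finsetSum _ fun i _ => Vr_cont hf (TF_fc hR i))).add (Vr_cont hf (TF_fe hR))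

private lemma main_VVi {T : ℝ} {Q f : ℝ → Vec d → Vec d → ℝ} (hf : IsClassicalSol T Q f) {R : ℝ}
    (hR : 1 ≤ R) {L n : ℝ} (hL : 1 ≤ L) (hLT : L < T)
    (h : ∀ φ : Vec d → ℝ, TF (2 * R ^ 2) φ → ∫ τ in (1 : ℝ)..L, Vr φ (f τ) ≤ n) :
    ∫ τ in (1 : ℝ)..L, VV R (f τ) ≤ ((d : ℝ) + 2) * n := by
  have hsub : uIcc 1 L ⊆ Ico 0 T := by
    rw [uIcc_of_le hL]
    exact fun τ hτ => ⟨zero_le_one.trans hτ.1, hτ.2.trans_lt hLT⟩
  have hi : ∀ φ : Vec d → ℝ, TF (2 * R ^ 2) φ →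
      IntervalIntegrable (fun τ => Vr φ (f τ)) volume 1 L := fun φ hφ =>
    ((Vr_cont hf hφ).mono hsub).intervalIntegrable
  unfold VV
  have i2 : IntervalIntegrable (fun τ => ∑ i, Vr (fc R i) (f τ)) volume 1 L :=
    ((continuousOn_finsetSum _ fun i _ => Vr_cont hf (TF_fc hR i)).mono hsub).intervalIntegrable
  rw [intervalIntegral.integral_add ((hi _ (TF_one hR)).add i2) (hi _ (TF_fe hR)),
    intervalIntegral.integral_add (hi _ (TF_one hR)) i2,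
    intervalIntegral.integral_finsetSum fun i _ => hi _ (TF_fc hR i)]
  have h1 := h _ (TF_one hR)
  have h2 := h _ (TF_fe hR)
  have h3 : ∑ i : Fin d, ∫ τ in (1 : ℝ)..L, Vr (fc R i) (f τ) ≤ ∑ _i : Fin d, n :=
    Finset.sum_le_sum fun i _ => h _ (TF_fc hR i)
  rw [Finset.sum_const, Finset.card_univ, Fintype.card_fin, nsmul_eq_mul] at h3
  linarith

/-- the distance at a fixed time -/
private lemma main_slice (HL : HypL d γ s b C Ca cb) {Cl : ℕ → ℝ} {m : ℝ} {a k : ℝ} (ha : 0 < a)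
    (hk : 0 < k) {u : Vec d} {e : Fin d} {T : ℝ} {f : ℝ → Vec d → Vec d → ℝ}
    (hf : PB γ b Cl m e T f) {τ : ℝ} (hτ : τ ∈ Ioo 0 T) {ε₁ K₁ η δ Y : ℝ} (hK : 0 ≤ K₁)
    (hδ : 0 < δ) (hδ1 : δ ≤ 1)
    (h : ∀ x, ∫ v, |f τ x v - mx a k u v| ≤ ε₁ + K₁ * (Dn γ b δ (f τ x) + η + md (f τ x) (mx a k u)))
    (hmd : ∫ x, md (f τ x) (mx a k u) ∂(muD d) ≤ Y) :
    ∫ q, |f τ q.2 q.1 - mx a k u q.1| ∂(nu d) ≤
      ε₁ + K₁ * ((∫ x, Dn γ b δ (f τ x) ∂(muD d)) + η + Y) := by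
  have hτ' : τ ∈ Ico 0 T := ⟨hτ.1.le, hτ.2⟩
  have hfc : IsClassicalSol T (fun t x => boltzQ γ b (f t x)) f := hf.sol
  have hcf : Continuous fun q : Vec d × Vec d => f τ q.1 q.2 := hfc.cont_slice hτ'
  have hn : Nice (mx a k u) := Pool.Agent.H48.NE.mx_nice ha hk u
  obtain ⟨C₂, hC₂⟩ := hn.rd (d + 1)
  have hwt : ∀ v : Vec d, |mx a k u v| ≤ C₂ * wt d v := by
    intro v
    have h2 : 0 < (1 + ‖v‖) ^ (d + 1) := pow_pos (w_pos v) _
    have h1 := hC₂ v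
    unfold wt
    rw [← div_eq_mul_inv, le_div_iff₀ h2, mul_comm]
    exact h1
  have hwf : ∀ x v : Vec d, |f τ x v| ≤ Cl (d + 1) * wt d v := by
    intro x v
    have h2 : 0 < (1 + ‖v‖) ^ (d + 1) := pow_pos (w_pos v) _
    have h1 := hf.dec τ hτ' (d + 1) x v
    rw [abs_of_nonneg (hfc.nonneg τ hτ' x v)]
    unfold wt
    rw [← div_eq_mul_inv, le_div_iff₀ h2, mul_comm]
    exact h1
  have hcont : Continuous fun q : Vec d × Vec d => |f τ q.2 q.1 - mx a k u q.1| :=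
    ((hcf.comp (by fun_prop : Continuous fun q : Vec d × Vec d => (q.2, q.1))).sub
      (hn.cont.comp continuous_fst)).abs
  have hint : Integrable (fun q : Vec d × Vec d => |f τ q.2 q.1 - mx a k u q.1|) (nu d) := by
    refine integrable_nu (C := Cl (d + 1) + C₂) hcont.aestronglyMeasurable fun q => ?_
    rw [abs_abs]
    refine (abs_sub _ _).trans ?_
    rw [add_mul]
    exact add_le_add (hwf _ _) (hwt _)
  rw [nu_integral hint]
  have i1 : Integrable (fun x => ∫ v, |f τ x v - mx a k u v|) (muD d) := by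
    have := hint
    unfold nu at this
    exact this.integral_prod_right
  have i2 := Dn_int HL.H hf.sol hδ hδ1 hτ
  have i3 := md_int ha hk u hcf (fun x v => hfc.nonneg τ hτ' x v)
    (fun N x v => hf.dec τ hτ' N x v)
  have hm1 : (muD d).real univ = 1 := by
    unfold Measure.real
    rw [muD_univ]
    rfl
  have i5 : Integrable (fun x => Dn γ b δ (f τ x) + η) (muD d) := i2.add (integrable_const _)
  have i6 : Integrable (fun x => Dn γ b δ (f τ x) + η + md (f τ x) (mx a k u)) (muD d) := i5.add i3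
  have i7 : Integrable (fun x => K₁ * (Dn γ b δ (f τ x) + η + md (f τ x) (mx a k u))) (muD d) :=
    i6.const_mul _
  have i4 : Integrable (fun x => ε₁ + K₁ * (Dn γ b δ (f τ x) + η + md (f τ x) (mx a k u))) (muD d) :=
    (integrable_const _).add i7
  have h1 := integral_mono i1 i4 h
  refine h1.trans ?_
  have e1 : ∫ x, (ε₁ + K₁ * (Dn γ b δ (f τ x) + η + md (f τ x) (mx a k u))) ∂(muD d) =
      ε₁ + K₁ * ((∫ x, Dn γ b δ (f τ x) ∂(muD d)) + η + ∫ x, md (f τ x) (mx a k u) ∂(muD d)) := by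
    rw [integral_add (integrable_const _) i7, integral_const_mul, integral_add i5 i3,
      integral_add i2 (integrable_const _), integral_const, integral_const, hm1, one_smul, one_smul]
  rw [e1]
  have := mul_le_mul_of_nonneg_left hmd hK
  linarith

theorem l1_time (HL : HypL d γ s b C Ca cb) (hγ : 0 ≤ γ) (hS : SliceEps d) (e : Fin d) (Cl : ℕ → ℝ)
    {m : ℝ} (hm : 0 < m) (a k : ℝ) (u : Vec d) {ε : ℝ} (hε : 0 < ε) : ∃ L : ℝ, 1 ≤ L ∧
      ∀ (T : ℝ) (f : ℝ → Vec d → Vec d → ℝ), PB γ b Cl m e T f → EqM a k u (f 0) → L < T →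
      ∃ t ∈ Icc 1 L, ∫ q, |f t q.2 q.1 - mx a k u q.1| ∂(nu d) ≤ ε := by
  by_cases hak : 0 < a ∧ 0 < k
  swap
  · exact ⟨1, le_rfl, fun T f _ h0 _ => absurd ⟨h0.ha, h0.hk⟩ hak⟩
  obtain ⟨ha, hk⟩ := hak
  obtain ⟨K₁, hK₁, hsl⟩ := slice_f HL hγ hS Cl hm ha hk u (by positivity : 0 < ε / 8)
  have hK1' : 0 < K₁ + 1 := by linarith
  obtain ⟨R, K₂, hR, hK₂, hmd⟩ := md_le Cl ha hk u (by positivity : 0 < ε / (8 * (K₁ + 1)))
  have hK2' : 0 < K₂ + 1 := by linarith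
  have hd2 : (0 : ℝ) < (d : ℝ) + 2 := by positivity
  obtain ⟨K₃, hK₃, hmx⟩ := mix_time HL.H hγ e Cl (2 * R ^ 2)
    (by positivity : 0 < ε / (8 * (K₁ + 1) * (K₂ + 1) * ((d : ℝ) + 2)))
  obtain ⟨CH, hCH, hHs⟩ := Hs_bd d Cl
  set C₄ : ℝ := K₁ * (2 * CH + 1) + K₁ * K₂ * (((d : ℝ) + 2) * K₃) with hC₄
  have hC40 : 0 ≤ C₄ := by positivity
  set n : ℝ := 2 * (C₄ + 1) / ε with hn
  have hn0 : 0 < n := by positivity
  have hnε : ε * n = 2 * (C₄ + 1) := by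
    rw [hn]
    field_simp
  refine ⟨1 + n, by linarith, fun T f hf h0 hLT => ?_⟩
  set L : ℝ := 1 + n with hL
  have hL1 : 1 ≤ L := by linarith
  have hLn : L - 1 = n := by rw [hL]; ring
  have hfc : IsClassicalSol T (fun t x => boltzQ γ b (f t x)) f := hf.sol
  obtain ⟨Cl', hCl'⟩ := sol_unice hfc one_pos hLT
  obtain ⟨δa, hδa, hsl'⟩ := hsl Cl' (ε / (8 * (K₁ + 1))) (by positivity)
  obtain ⟨δb, hδb, hdr⟩ := Pool.Agent.H87.PE.drop_lim HL.H hf.sol one_pos hL1 hLT one_pos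
  set δ : ℝ := min (min δa δb) 1 with hδ
  have hδ0 : 0 < δ := lt_min (lt_min hδa hδb) one_pos
  have hδ1 : δ ≤ 1 := min_le_right _ _
  have hda : δ ≤ δa := (min_le_left _ _).trans (min_le_left _ _)
  have hdb : δ ≤ δb := (min_le_left _ _).trans (min_le_right _ _)
  set η : ℝ := ε / (8 * (K₁ + 1)) with hη
  have hη0 : 0 < η := by positivity
  have hKη : K₁ * η ≤ ε / 8 := by
    have h1 : (K₁ + 1) * η = ε / 8 := by
      rw [hη]
      field_simp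
    nlinarith
  set DD : ℝ → ℝ := fun τ => ∫ x, Dn γ b δ (f τ x) ∂(muD d) with hDD
  by_contra hcon
  push Not at hcon
  have hin : ∀ τ ∈ Icc 1 L, τ ∈ Ioo 0 T := fun τ hτ =>
    ⟨one_pos.trans_le hτ.1, hτ.2.trans_lt hLT⟩
  have hY : ∀ τ ∈ Icc 1 L, ε ≤ ε / 8 + K₁ * (DD τ + η + (η + K₂ * VV R (f τ))) := by
    intro τ hτ
    have hτ1 := hin τ hτ
    have hτ2 : τ ∈ Ico 0 T := ⟨hτ1.1.le, hτ1.2⟩
    have h1 := main_slice HL ha hk hf hτ1 (ε₁ := ε / 8) (K₁ := K₁) (η := η) (δ := δ)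
      (Y := η + K₂ * VV R (f τ)) hK₁ hδ0 hδ1 (fun x => hsl' δ ⟨hδ0, hda⟩ (f τ x) (hCl' τ hτ x)
        (fun N v => hf.dec τ hτ2 N x v) (hf.mass τ hτ2 x))
      (hmd (f τ) (hfc.cont_slice hτ2) (fun x v => hfc.nonneg τ hτ2 x v)
        (fun N x v => hf.dec τ hτ2 N x v) (eqm_t HL.H hf.sol h0 hτ2))
    exact (hcon τ hτ).le.trans h1
  have hsub : uIcc 1 L ⊆ Ioo 0 T := by
    rw [uIcc_of_le hL1]
    exact hin
  have iD : IntervalIntegrable DD volume 1 L :=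
    ((Dn_cont HL.H hf.sol hδ0 hδ1).mono hsub).intervalIntegrable
  have iV : IntervalIntegrable (fun τ => VV R (f τ)) volume 1 L :=
    ((main_VVc hfc hR).mono (hsub.trans Ioo_subset_Ico_self)).intervalIntegrable
  have ic : ∀ c : ℝ, IntervalIntegrable (fun _ : ℝ => c) volume 1 L := fun c =>
    intervalIntegrable_const
  have j1 : IntervalIntegrable (fun τ => DD τ + η) volume 1 L := iD.add (ic η)
  have j2 : IntervalIntegrable (fun τ => K₂ * VV R (f τ)) volume 1 L := iV.const_mul K₂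
  have j3 : IntervalIntegrable (fun τ => η + K₂ * VV R (f τ)) volume 1 L := (ic η).add j2
  have j4 : IntervalIntegrable (fun τ => DD τ + η + (η + K₂ * VV R (f τ))) volume 1 L := j1.add j3
  have j5 : IntervalIntegrable (fun τ => K₁ * (DD τ + η + (η + K₂ * VV R (f τ)))) volume 1 L :=
    j4.const_mul K₁
  have j6 : IntervalIntegrable (fun τ => ε / 8 + K₁ * (DD τ + η + (η + K₂ * VV R (f τ)))) volume 1 L :=
    (ic (ε / 8)).add j5
  have hint := intervalIntegral.integral_mono_on hL1 (ic ε) j6 hY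
  rw [intervalIntegral.integral_add (ic (ε / 8)) j5, intervalIntegral.integral_const_mul,
    intervalIntegral.integral_add j1 j3, intervalIntegral.integral_add iD (ic η),
    intervalIntegral.integral_add (ic η) j2, intervalIntegral.integral_const_mul,
    intervalIntegral.integral_const, intervalIntegral.integral_const,
    intervalIntegral.integral_const, hLn, smul_eq_mul, smul_eq_mul, smul_eq_mul] at hint
  have hD : ∫ τ in (1 : ℝ)..L, DD τ ≤ 2 * CH + 1 := by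
    have h1 := (abs_le.1 (hdr δ ⟨hδ0, hdb⟩)).2
    have hb : ∀ t ∈ Icc 1 L, |Hs (f t)| ≤ CH := fun t ht => by
      have ht1 := hin t ht
      have ht2 : t ∈ Ico 0 T := ⟨ht1.1.le, ht1.2⟩
      exact hHs (f t) (hfc.cont_slice ht2) (fun x v => hfc.nonneg t ht2 x v)
        (fun N x v => hf.dec t ht2 N x v)
    have h2 := (abs_le.1 (hb 1 ⟨le_rfl, hL1⟩)).2
    have h3 := (abs_le.1 (hb L ⟨hL1, le_rfl⟩)).1
    have h4 : ∫ τ in (1 : ℝ)..L, DD τ = ∫ τ in (1 : ℝ)..L, (∫ x, Dn γ b δ (f τ x) ∂(muD d)) := rfl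
    rw [h4]
    linarith
  set ε₃ : ℝ := ε / (8 * (K₁ + 1) * (K₂ + 1) * ((d : ℝ) + 2)) with hε₃
  have hε3 : 0 < ε₃ := by positivity
  have hV := main_VVi hfc hR hL1 hLT (n := K₃ + ε₃ * (L - 1)) fun φ hφ =>
    hmx m T f hf φ hφ L hL1 hLT
  rw [hLn] at hV
  have hKK : K₁ * K₂ * (((d : ℝ) + 2) * ε₃) ≤ ε / 8 := by
    have h1 : (K₁ + 1) * (K₂ + 1) * (((d : ℝ) + 2) * ε₃) = ε / 8 := by
      rw [hε₃]
      field_simp
    have h2 : K₁ * K₂ ≤ (K₁ + 1) * (K₂ + 1) := by nlinarith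
    have h3 : 0 ≤ ((d : ℝ) + 2) * ε₃ := by positivity
    have := mul_le_mul_of_nonneg_right h2 h3
    linarith
  have hb1 : K₁ * (∫ τ in (1 : ℝ)..L, DD τ) ≤ K₁ * (2 * CH + 1) :=
    mul_le_mul_of_nonneg_left hD hK₁
  have hb2 : K₁ * (K₂ * ∫ τ in (1 : ℝ)..L, VV R (f τ)) ≤
      K₁ * (K₂ * (((d : ℝ) + 2) * (K₃ + ε₃ * n))) :=
    mul_le_mul_of_nonneg_left (mul_le_mul_of_nonneg_left hV hK₂) hK₁
  have hb3 : K₁ * (K₂ * (((d : ℝ) + 2) * (K₃ + ε₃ * n))) =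
      K₁ * K₂ * (((d : ℝ) + 2) * K₃) + K₁ * K₂ * (((d : ℝ) + 2) * ε₃) * n := by ring
  have hb4 : K₁ * K₂ * (((d : ℝ) + 2) * ε₃) * n ≤ ε / 8 * n :=
    mul_le_mul_of_nonneg_right hKK hn0.le
  have hb5 : n * (K₁ * η) ≤ n * (ε / 8) := mul_le_mul_of_nonneg_left hKη hn0.le
  nlinarith

end Pool.Agent.H37.LT
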