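import Pool.Agent.H37.LT.Defs
import Pool.Agent.H48.PL.CSolP
import Pool.Agent.H48.PL.PlI

/-!
# Module MxA: the weight of the mixing functional and the test functions

`Sk κ z = z/(z²+κ²)`: odd, `|Sk| ≤ 1/(2κ)`, `|Sk z - Sk z'| ≤ |z - z'|/κ²` (`Sk z - Sk z' = (z - z')(κ² - z z')/((z²+κ²)(z'²+κ²))` and `|κ² - z z'| ≤ √((z²+κ²)(z'²+κ²))`, denominators `≥ κ²`), `z Sk z = 1 - κ²/(z²+κ²)`.
`PM e κ φ v w = φ v φ w Sk κ (v_e - w_e)`: continuous because `φ` is Lipschitz (`len` continuous), bounded by `A²/(2κ)` (so PGW with `N = 0`), antisymmetric, Lipschitz in `w` with constant `A²/(2κ) + A²/κ²` (`|w_e - w'_e| ≤ len (w-w')`).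
Test functions `1`, `fc R i v = max (-R) (min (v i) R)`, `fe R v = min (nsq v) (R²)`, `R ≥ 1`: `TF (2 R²)`; Lipschitz: `fc` `1 ≤ 2R²` in `v i`; `fe`: `|min (nsq v) R² - min (nsq w) R²| = |min(len v, R)² - min(len w, R)²| ≤ 2R |len v - len w| ≤ 2R len (v-w)` (`len_sub_le` style triangle inequality).
-/

set_option autoImplicit false

open MeasureTheory Set Filter Topology Pool.Agent.H25.Kin Pool.Agent.H48.PL

namespace Pool.Agent.H37.LT

variable {d : ℕ} {A κ : ℝ} {φ : Vec d → ℝ}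

lemma Sk_mul {κ : ℝ} (hκ : 0 < κ) (z : ℝ) : z * Sk κ z = 1 - κ ^ 2 / (z ^ 2 + κ ^ 2) := by
  have h : 0 < z ^ 2 + κ ^ 2 := by positivity
  unfold Sk
  field_simp
  ring

private lemma MxA_Sk_bd {κ : ℝ} (hκ : 0 < κ) (z : ℝ) : |Sk κ z| ≤ 1 / (2 * κ) := by
  have h : 0 < z ^ 2 + κ ^ 2 := by positivity
  unfold Sk
  rw [abs_div, abs_of_pos h, div_le_div_iff₀ h (by positivity)]
  nlinarith [sq_nonneg (|z| - κ), sq_abs z]

private lemma MxA_Sk_lip {κ : ℝ} (hκ : 0 < κ) (z w : ℝ) : |Sk κ z - Sk κ w| ≤ |z - w| / κ ^ 2 := by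
  have h : 0 < z ^ 2 + κ ^ 2 := by positivity
  have h' : 0 < w ^ 2 + κ ^ 2 := by positivity
  have e : Sk κ z - Sk κ w = (z - w) * (κ ^ 2 - z * w) / ((z ^ 2 + κ ^ 2) * (w ^ 2 + κ ^ 2)) := by
    unfold Sk
    field_simp
    ring
  rw [e, abs_div, abs_mul, abs_of_pos (mul_pos h h'), div_le_div_iff₀ (mul_pos h h') (by positivity)]
  have h1 : |κ ^ 2 - z * w| * κ ^ 2 ≤ (z ^ 2 + κ ^ 2) * (w ^ 2 + κ ^ 2) := by
    have h2 : |κ ^ 2 - z * w| ≤ κ ^ 2 + (z ^ 2 + w ^ 2) := by
      rw [abs_le]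
      constructor <;> nlinarith [sq_nonneg (z - w), sq_nonneg (z + w), sq_nonneg κ, sq_nonneg z,
        sq_nonneg w]
    have h3 := mul_le_mul_of_nonneg_right h2 (sq_nonneg κ)
    nlinarith [mul_nonneg (sq_nonneg z) (sq_nonneg w)]
  calc |z - w| * |κ ^ 2 - z * w| * κ ^ 2 = |z - w| * (|κ ^ 2 - z * w| * κ ^ 2) := by ring
    _ ≤ |z - w| * ((z ^ 2 + κ ^ 2) * (w ^ 2 + κ ^ 2)) :=
        mul_le_mul_of_nonneg_left h1 (abs_nonneg _)

private lemma MxA_Sk_cont {κ : ℝ} (hκ : 0 < κ) : Continuous (Sk κ) := by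
  unfold Sk
  exact continuous_id.div (by fun_prop) fun z => by positivity

private lemma MxA_len_cont : Continuous (len : Vec d → ℝ) := continuous_sq.sqrt

lemma TF_cont (hφ : TF A φ) : Continuous φ := by
  rw [continuous_iff_continuousAt]
  intro v
  unfold ContinuousAt
  rw [tendsto_iff_norm_sub_tendsto_zero]
  have h1 : Tendsto (fun w : Vec d => A * len (w - v)) (𝓝 v) (𝓝 0) := by
    have h2 : Continuous (fun w : Vec d => A * len (w - v)) :=
      continuous_const.mul (MxA_len_cont.comp (continuous_id.sub continuous_const))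
    have h3 := h2.tendsto v
    simpa [len_zero] using h3
  refine squeeze_zero (fun w => norm_nonneg _) (fun w => ?_) h1
  rw [Real.norm_eq_abs]
  exact hφ.lip w v

lemma PM_anti (e : Fin d) (κ : ℝ) (φ : Vec d → ℝ) (v w : Vec d) :
    PM e κ φ w v = -PM e κ φ v w := by
  have h1 : w e - v e = -(v e - w e) := by ring
  unfold PM Sk
  rw [h1, neg_div, neg_pow, Even.neg_one_pow even_two, one_mul]
  ring

lemma PM_bd (e : Fin d) (hκ : 0 < κ) (hA : 0 ≤ A) (hφ : TF A φ) (v w : Vec d) :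
    |PM e κ φ v w| ≤ A ^ 2 / (2 * κ) := by
  unfold PM
  rw [abs_mul, abs_mul]
  calc |φ v| * |φ w| * |Sk κ (v e - w e)| ≤ A * A * (1 / (2 * κ)) :=
        mul_le_mul (mul_le_mul (hφ.bd v) (hφ.bd w) (abs_nonneg _) hA) (MxA_Sk_bd hκ _)
          (abs_nonneg _) (by positivity)
    _ = A ^ 2 / (2 * κ) := by ring

lemma PM_PGW (e : Fin d) (hκ : 0 < κ) (hA : 0 ≤ A) (hφ : TF A φ) : PGW (PM e κ φ) := by
  refine ⟨?_, 0, A ^ 2 / (2 * κ), by positivity, fun v w => ?_⟩
  · have h := TF_cont hφ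
    unfold PM
    exact ((h.comp continuous_fst).mul (h.comp continuous_snd)).mul
      ((MxA_Sk_cont hκ).comp (((continuous_apply e).comp continuous_fst).sub
        ((continuous_apply e).comp continuous_snd)))
  · simpa using PM_bd e hκ hA hφ v w

lemma PM_TF (e : Fin d) (hκ : 0 < κ) (hA : 0 ≤ A) (hφ : TF A φ) (v : Vec d) :
    TF (A ^ 2 * (1 / κ + 1 / κ ^ 2)) (PM e κ φ v) := by
  have hA2 : 0 ≤ A ^ 2 := sq_nonneg A
  have k1 : 0 < 1 / κ := by positivity
  have k2 : 0 < 1 / κ ^ 2 := by positivity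
  constructor
  · intro w
    refine (PM_bd e hκ hA hφ v w).trans ?_
    have : A ^ 2 / (2 * κ) = A ^ 2 * (1 / κ / 2) := by field_simp
    rw [this]
    exact mul_le_mul_of_nonneg_left (by linarith) hA2
  · intro w w'
    have hl := len_nonneg (w - w')
    have e1 : PM e κ φ v w - PM e κ φ v w' = φ v * ((φ w - φ w') * Sk κ (v e - w e) +
        φ w' * (Sk κ (v e - w e) - Sk κ (v e - w' e))) := by
      unfold PM; ring
    have b1 : |(φ w - φ w') * Sk κ (v e - w e)| ≤ A * len (w - w') * (1 / (2 * κ)) := by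
      rw [abs_mul]
      exact mul_le_mul (hφ.lip w w') (MxA_Sk_bd hκ _) (abs_nonneg _) (by positivity)
    have b2 : |φ w' * (Sk κ (v e - w e) - Sk κ (v e - w' e))| ≤ A * (len (w - w') / κ ^ 2) := by
      rw [abs_mul]
      refine mul_le_mul (hφ.bd w') ((MxA_Sk_lip hκ _ _).trans ?_) (abs_nonneg _) hA
      refine div_le_div_of_nonneg_right ?_ (by positivity)
      have : v e - w e - (v e - w' e) = -((w - w') e) := by simp
      rw [this, abs_neg]
      exact abs_coord_le (w - w') e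
    rw [e1, abs_mul]
    calc |φ v| * |(φ w - φ w') * Sk κ (v e - w e) + φ w' * (Sk κ (v e - w e) - Sk κ (v e - w' e))|
        ≤ A * (A * len (w - w') * (1 / (2 * κ)) + A * (len (w - w') / κ ^ 2)) :=
          mul_le_mul (hφ.bd v) ((abs_add_le _ _).trans (add_le_add b1 b2)) (abs_nonneg _) hA
      _ = A ^ 2 * (1 / κ / 2 + 1 / κ ^ 2) * len (w - w') := by field_simp
      _ ≤ A ^ 2 * (1 / κ + 1 / κ ^ 2) * len (w - w') := by
          refine mul_le_mul_of_nonneg_right (mul_le_mul_of_nonneg_left ?_ hA2) hl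
          linarith

/-- cut-off coordinate -/
noncomputable def fc (R : ℝ) (i : Fin d) (v : Vec d) : ℝ := max (-R) (min (v i) R)

/-- cut-off energy -/
noncomputable def fe (R : ℝ) (v : Vec d) : ℝ := min (nsq v) (R ^ 2)

lemma TF_one {R : ℝ} (hR : 1 ≤ R) : TF (2 * R ^ 2) (fun _ : Vec d => (1 : ℝ)) := by
  constructor
  · intro v
    rw [abs_one]
    nlinarith
  · intro v w
    rw [sub_self, abs_zero]
    have := len_nonneg (v - w)
    positivity

private lemma MxA_clamp {R a b t : ℝ} (hR : 0 ≤ R) (ht : 0 ≤ t) (h : a ≤ b + t) :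
    max (-R) (min a R) ≤ max (-R) (min b R) + t := by
  simp only [max_def, min_def]
  split_ifs <;> linarith

lemma TF_fc {R : ℝ} (hR : 1 ≤ R) (i : Fin d) : TF (2 * R ^ 2) (fc R i) := by
  constructor
  · intro v
    unfold fc
    rw [abs_le]
    constructor
    · have := le_max_left (-R) (min (v i) R)
      nlinarith
    · refine max_le (by nlinarith) ((min_le_right _ _).trans (by nlinarith))
  · intro v w
    have h1 := abs_coord_le (v - w) i
    have h0 := len_nonneg (v - w)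
    rw [Pi.sub_apply] at h1
    obtain ⟨h2, h3⟩ := abs_le.1 h1
    have c1 := MxA_clamp (R := R) (a := v i) (b := w i) (by linarith) h0 (by linarith)
    have c2 := MxA_clamp (R := R) (a := w i) (b := v i) (by linarith) h0 (by linarith)
    have h4 : |fc R i v - fc R i w| ≤ len (v - w) := by
      unfold fc
      rw [abs_le]
      constructor <;> linarith
    refine h4.trans ?_
    have h5 : (1 : ℝ) ≤ 2 * R ^ 2 := by nlinarith
    nlinarith

private lemma MxA_minsq {R a b t : ℝ} (hR : 0 ≤ R) (ha : 0 ≤ a) (hb : 0 ≤ b) (ht : 0 ≤ t)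
    (h : b ≤ a + t) : min (b ^ 2) (R ^ 2) ≤ min (a ^ 2) (R ^ 2) + 2 * R * t := by
  have hRt : 0 ≤ 2 * R * t := by positivity
  rcases le_or_gt R a with h1 | h1
  · have h2 : R ^ 2 ≤ a ^ 2 := pow_le_pow_left₀ hR h1 2
    rw [min_eq_right h2]
    linarith [min_le_right (b ^ 2) (R ^ 2)]
  · have h2 : a ^ 2 ≤ R ^ 2 := pow_le_pow_left₀ ha h1.le 2
    rw [min_eq_left h2]
    rcases le_or_gt b R with h3 | h3
    · refine (min_le_left _ _).trans ?_
      rcases le_or_gt b a with h4 | h4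
      · nlinarith [pow_le_pow_left₀ hb h4 2]
      · have h5 : (b - a) * (b + a) ≤ t * (2 * R) :=
          mul_le_mul (by linarith) (by linarith) (by linarith) ht
        nlinarith
    · refine (min_le_right _ _).trans ?_
      have h5 : (R - a) * (R + a) ≤ t * (2 * R) :=
        mul_le_mul (by linarith) (by linarith) (by linarith) ht
      nlinarith

lemma TF_fe {R : ℝ} (hR : 1 ≤ R) : TF (2 * R ^ 2) (fe R : Vec d → ℝ) := by
  constructor
  · intro v
    unfold fe
    have h0 := sq_nonneg' v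
    rw [abs_of_nonneg (le_min h0 (sq_nonneg R))]
    refine (min_le_right _ _).trans (by nlinarith [sq_nonneg R])
  · intro v w
    have h0 := len_nonneg (v - w)
    have c1 := MxA_minsq (R := R) (a := len v) (b := len w) (by linarith) (len_nonneg v)
      (len_nonneg w) h0 (by
        have := len_le_add_sub w v
        rwa [len_comm w v] at this)
    have c2 := MxA_minsq (R := R) (a := len w) (b := len v) (by linarith) (len_nonneg w)
      (len_nonneg v) h0 (len_le_add_sub v w)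
    rw [len_sq, len_sq] at c1 c2
    have h4 : |fe R v - fe R w| ≤ 2 * R * len (v - w) := by
      unfold fe
      rw [abs_le]
      constructor <;> linarith
    refine h4.trans (mul_le_mul_of_nonneg_right ?_ h0)
    nlinarith

end Pool.Agent.H37.LT
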