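import Pool.Agent.H37.LT.MxA
import Pool.Agent.H48.PL.SliB

/-!
# Module MxB: the mixing functional, one time slice

Model: `pair_slice`, `pair_abs` in H48/PL/SliB.lean (copy the private lemmas `sli_..`), with `l = 1`, `Φ = PM e κ φ`.
`∫ (G pot + F dpot) = ∫ G pot + ∫ F [∫w (v_e-w_e) Φ F] - ∫ F [∫z∫w (v_e-w_e) Φ F(x-ze)] + ∫ F [∫z kl ∫w Φ G(x-ze)]`.
* collision terms: `sli_first`, `sli_third` with `q = 0`, `K = 1`, `X = E`, `η = M` (`jb^0 = 1`, `loc e 1 (∫ F) x ≤ M`): together `≥ -M ∫ E`.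
* `(v_e-w_e) Φ = φ v φ w (1 - κ²/((v_e-w_e)²+κ²))` (`Sk_mul`). Second term: `∫x [(∫ φ F)² - ∬ φ φ κ²/(..) F F] ≥ ∫x (∫ φ F)² - A² η` (`ek`). Third term: `∫x (∫φF)(x) ∫z (∫φF)(x-ze) - ∫x∫z ∬ φ φ κ²/(..) F(x,v) F(x-ze,w)`, `∫z B(x-ze) dz = ∫ B dμ` for planar periodic continuous `B` (`loc_eq` below, proof inside `loc_le` of H48/PL/PlI: `pl_integral`, periodicity), so it is `≤ (∫x ∫φF)² + A² η`.
* `pot_bd'`: `|pot| ≤ (1/2) ∫z∫w B F ≤ (1/2) B M`, `∫ F dν ≤ M` (`muD` has mass 1).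
-/

set_option autoImplicit false

open MeasureTheory Set Filter Topology Pool.Agent.H25.Kin Pool.Agent.H48.PL

namespace Pool.Agent.H37.LT

variable {d : ℕ} {e : Fin d} {F G : Vec d → Vec d → ℝ} {A κ M η : ℝ} {φ E : Vec d → ℝ}

private lemma MxB_pl_line {B : Vec d → ℝ} (hB : PlF e B) (x : Vec d) :
    B x = B (Pi.single e (x e)) := hB.pl _ _ (by simp)

private lemma MxB_line_per {B : Vec d → ℝ} (hB : PlF e B) :
    Function.Periodic (fun r : ℝ => B (Pi.single e r)) 1 := by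
  intro r
  have h := hB.per (Pi.single e r) e
  rw [← Pi.single_add] at h
  exact h

private lemma MxB_single_cont (e : Fin d) : Continuous fun r : ℝ => (Pi.single e r : Vec d) :=
  continuous_single (A := fun _ : Fin d => ℝ) e

private lemma MxB_line_cont {B : Vec d → ℝ} (hB : PlF e B) :
    Continuous (fun r : ℝ => B (Pi.single e r)) := hB.cont.comp (MxB_single_cont e)

private lemma MxB_pl_integral {B : Vec d → ℝ} (hB : PlF e B) :
    ∫ y, B y ∂(muD d) = ∫ r in (0 : ℝ)..1, B (Pi.single e r) := by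
  have hpi : muD d = Measure.pi (fun _ : Fin d => (volume : Measure ℝ).restrict (Icc 0 1)) := by
    unfold muD
    rw [← Measure.restrict_pi_pi (fun _ : Fin d => (volume : Measure ℝ)) (fun _ => Icc (0 : ℝ) 1),
      Set.pi_univ_Icc]
    rfl
  have hpr : IsProbabilityMeasure ((volume : Measure ℝ).restrict (Icc (0 : ℝ) 1)) := by
    refine ⟨?_⟩
    rw [Measure.restrict_apply_univ]
    simp
  have : ∀ i : Fin d, IsProbabilityMeasure ((fun _ : Fin d => (volume : Measure ℝ).restrict (Icc (0 : ℝ) 1)) i) :=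
    fun _ => hpr
  have hmp := measurePreserving_eval (fun _ : Fin d => (volume : Measure ℝ).restrict (Icc (0 : ℝ) 1)) e
  have h1 : ∫ y, B y ∂(muD d) = ∫ y, (fun r : ℝ => B (Pi.single e r)) (Function.eval e y) ∂(muD d) := by
    congr 1
    funext y
    exact MxB_pl_line hB y
  rw [h1, hpi, ← integral_map hmp.measurable.aemeasurable
    (MxB_line_cont hB).aestronglyMeasurable, hmp.map_eq,
    intervalIntegral.integral_of_le zero_le_one, integral_Icc_eq_integral_Ioc]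

lemma loc_eq {B : Vec d → ℝ} (hB : PlF e B) (x : Vec d) : loc e 1 B x = ∫ y, B y ∂(muD d) := by
  rw [MxB_pl_integral hB]
  have h1 : ∫ r in (0 : ℝ)..1, B (Pi.single e r) =
      ∫ z in (-(1 / 2) : ℝ)..(1 / 2), B (Pi.single e (x e - z)) := by
    rw [intervalIntegral.integral_comp_sub_left (fun r => B (Pi.single e r)) (x e)]
    have h2 := (MxB_line_per hB).intervalIntegral_add_eq 0 (x e - 1 / 2)
    rw [zero_add] at h2
    rw [h2]
    congr 1
    ring
  rw [h1, intervalIntegral.integral_of_le (by norm_num), integral_Ioc_eq_integral_Ioo]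
  unfold loc
  refine integral_congr_ae (Eventually.of_forall fun z => ?_)
  exact hB.pl _ _ (by simp)

/-- constant in time slices are `UC` -/
private lemma MxB_uc {F : Vec d → Vec d → ℝ} (hc : Continuous fun p : Vec d × Vec d => F p.1 p.2)
    (hd : RX F) : UC univ (fun _ : ℝ => F) where
  cont := by
    have h : Continuous (unc fun _ : ℝ => F) := hc.comp continuous_snd
    exact h.continuousOn
  dec := by
    intro t _
    refine ⟨univ, univ_mem, fun N => ?_⟩
    obtain ⟨C, hC⟩ := hd N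
    exact ⟨C, fun r _ x w => hC x w⟩

private lemma MxB_avg_c {F : Vec d → Vec d → ℝ}
    (hc : Continuous fun p : Vec d × Vec d => F p.1 p.2) (hd : RX F) {Φ : Vec d → Vec d → ℝ}
    (hΦ : PGW Φ) : Continuous fun p : Vec d × Vec d => ∫ w, Φ p.1 w * F p.2 w := by
  have h := avg_cont (MxB_uc hc hd) hΦ
  rw [univ_prod_univ, continuousOn_univ] at h
  have h2 : Continuous fun p : Vec d × Vec d => ((0 : ℝ), p.2, p.1) := by fun_prop
  exact h.comp h2

private lemma MxB_zint_c {F : Vec d → Vec d → ℝ}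
    (hc : Continuous fun p : Vec d × Vec d => F p.1 p.2) (hd : RX F) {Φ : Vec d → Vec d → ℝ}
    (hΦ : PGW Φ) (e : Fin d) {l : ℝ} (hl : 0 < l) {k : ℝ → ℝ} (hk : Measurable k) {B : ℝ}
    (hB : ∀ z ∈ Ioo (-(l / 2)) (l / 2), |k z| ≤ B) :
    Continuous fun p : Vec d × Vec d => ∫ z in Ioo (-(l / 2)) (l / 2),
      k z * ∫ w, Φ p.1 w * F (p.2 - Pi.single e z) w := by
  have h := zint_cont (MxB_uc hc hd) hΦ e hl hk hB
  rw [univ_prod_univ, continuousOn_univ] at h
  have h2 : Continuous fun p : Vec d × Vec d => ((0 : ℝ), p.2, p.1) := by fun_prop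
  exact h.comp h2

private lemma MxB_avg_b {F : Vec d → Vec d → ℝ} (hd : RX F) {Φ : Vec d → Vec d → ℝ} (hΦ : PGW Φ) :
    ∃ (N : ℕ) (C : ℝ), 0 ≤ C ∧ ∀ x v, |∫ w, Φ v w * F x w| ≤ C * (1 + ‖v‖) ^ N := by
  obtain ⟨N, M, K, hK, h⟩ := avg_le hΦ
  obtain ⟨C, hC⟩ := hd M
  exact ⟨N, K * max C 0, by positivity,
    fun x v => h (F x) (max C 0) (fun w => (hC x w).trans (le_max_left _ _)) v⟩

private lemma MxB_zint_b {F : Vec d → Vec d → ℝ} (hd : RX F) {Φ : Vec d → Vec d → ℝ} (hΦ : PGW Φ)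
    (e : Fin d) {l : ℝ} (hl : 0 < l) {k : ℝ → ℝ} {B : ℝ} (hB0 : 0 ≤ B)
    (hB : ∀ z ∈ Ioo (-(l / 2)) (l / 2), |k z| ≤ B) :
    ∃ (N : ℕ) (C : ℝ), 0 ≤ C ∧ ∀ x v : Vec d, |∫ z in Ioo (-(l / 2)) (l / 2),
      k z * ∫ w, Φ v w * F (x - Pi.single e z) w| ≤ C * (1 + ‖v‖) ^ N := by
  obtain ⟨N, C, hC, h⟩ := MxB_avg_b hd hΦ
  refine ⟨N, B * C * l, by positivity, fun x v => ?_⟩
  have h1 := norm_setIntegral_le_of_norm_le_const (μ := (volume : Measure ℝ))
    (s := Ioo (-(l / 2)) (l / 2)) (C := B * (C * (1 + ‖v‖) ^ N))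
    (f := fun z => k z * ∫ w, Φ v w * F (x - (Pi.single e z : Vec d)) w) (by simp) (by
      intro z hz
      rw [norm_mul]
      exact mul_le_mul (hB z hz) (h _ v) (norm_nonneg _) hB0)
  have h2 : (volume : Measure ℝ).real (Ioo (-(l / 2)) (l / 2)) = l := by
    rw [Real.volume_real_Ioo_of_le (by linarith)]; ring
  rw [h2, Real.norm_eq_abs] at h1
  refine h1.trans (le_of_eq (by ring))

private lemma MxB_int {F : Vec d → Vec d → ℝ} (hc : Continuous fun p : Vec d × Vec d => F p.1 p.2)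
    (hd : RX F) {J : Vec d × Vec d → ℝ} (hJ : Continuous J) {N : ℕ} {C : ℝ} (hC : 0 ≤ C)
    (hb : ∀ p : Vec d × Vec d, |J p| ≤ C * (1 + ‖p.1‖) ^ N) :
    Integrable (fun p : Vec d × Vec d => F p.2 p.1 * J p) (nu d) := by
  obtain ⟨D, hD⟩ := hd (N + (d + 1))
  have h2 : Continuous fun p : Vec d × Vec d => (p.2, p.1) := by fun_prop
  have hcF : Continuous fun p : Vec d × Vec d => F p.2 p.1 := hc.comp h2
  refine integrable_nu (C := C * D) (hcF.mul hJ).aestronglyMeasurable fun q => ?_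
  have hw : (0 : ℝ) < 1 + ‖q.1‖ := w_pos q.1
  have h3 : |F q.2 q.1| * (1 + ‖q.1‖) ^ N ≤ D * wt d q.1 := by
    unfold wt
    rw [← div_eq_mul_inv, le_div_iff₀ (pow_pos hw _)]
    have := hD q.2 q.1
    rw [pow_add] at this
    calc |F q.2 q.1| * (1 + ‖q.1‖) ^ N * (1 + ‖q.1‖) ^ (d + 1)
        = (1 + ‖q.1‖) ^ N * (1 + ‖q.1‖) ^ (d + 1) * |F q.2 q.1| := by ring
      _ ≤ D := this
  calc |F q.2 q.1 * J q| = |F q.2 q.1| * |J q| := abs_mul _ _
    _ ≤ |F q.2 q.1| * (C * (1 + ‖q.1‖) ^ N) := by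
        exact mul_le_mul_of_nonneg_left (hb q) (abs_nonneg _)
    _ = C * (|F q.2 q.1| * (1 + ‖q.1‖) ^ N) := by ring
    _ ≤ C * (D * wt d q.1) := mul_le_mul_of_nonneg_left h3 hC
    _ = C * D * wt d q.1 := by ring

/-- rapid decay: a slice is dominated by the weight -/
private lemma MxB_dom (h : FS e F G) : ∃ C, 0 ≤ C ∧ ∀ x v, F x v ≤ C * wt d v := by
  obtain ⟨C, hC⟩ := h.decF (d + 1)
  refine ⟨C, le_trans (by positivity) (hC 0 0), fun x v => ?_⟩
  have hw := w_pos v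
  unfold wt
  rw [← div_eq_mul_inv, le_div_iff₀ (pow_pos hw _)]
  have h1 := hC x v
  rw [abs_of_nonneg (h.nonneg x v)] at h1
  linarith

private lemma MxB_cF (h : FS e F G) (x : Vec d) : Continuous (F x) := by
  have h2 : Continuous fun w : Vec d => (x, w) := by fun_prop
  exact h.contF.comp h2

/-- a bounded continuous function times a slice is integrable -/
private lemma MxB_i1 (h : FS e F G) {J : Vec d → ℝ} (hJ : Continuous J) {B : ℝ}
    (hB : ∀ v, |J v| ≤ B) (x : Vec d) : Integrable fun v => J v * F x v := by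
  obtain ⟨C, hC0, hC⟩ := MxB_dom h
  have hB0 : 0 ≤ B := (abs_nonneg _).trans (hB 0)
  refine (integrable_wt.const_mul (B * C)).mono'
    (hJ.mul (MxB_cF h x)).aestronglyMeasurable (Eventually.of_forall fun v => ?_)
  rw [norm_mul, Real.norm_eq_abs, Real.norm_eq_abs, abs_of_nonneg (h.nonneg x v)]
  calc |J v| * F x v ≤ B * (C * wt d v) := mul_le_mul (hB v) (hC x v) (h.nonneg x v) hB0
    _ = B * C * wt d v := by ring

/-- a bounded continuous function times two slices is integrable -/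
private lemma MxB_i2 (h : FS e F G) {J : Vec d × Vec d → ℝ} (hJ : Continuous J) {B : ℝ}
    (hB : ∀ q, |J q| ≤ B) (x y : Vec d) :
    Integrable (fun q : Vec d × Vec d => J q * (F x q.1 * F y q.2)) := by
  obtain ⟨C, hC0, hC⟩ := MxB_dom h
  have hB0 : 0 ≤ B := (abs_nonneg _).trans (hB 0)
  have h1 : Integrable (fun q : Vec d × Vec d => wt d q.1 * wt d q.2)
      ((volume : Measure (Vec d)).prod volume) := integrable_wt.mul_prod integrable_wt
  have h2 : Continuous fun q : Vec d × Vec d => J q * (F x q.1 * F y q.2) :=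
    hJ.mul (((MxB_cF h x).comp continuous_fst).mul ((MxB_cF h y).comp continuous_snd))
  refine (h1.const_mul (B * C ^ 2)).mono' h2.aestronglyMeasurable (Eventually.of_forall fun q => ?_)
  have n1 := h.nonneg x q.1
  have n2 := h.nonneg y q.2
  have n3 := hC x q.1
  have n4 := hC y q.2
  rw [norm_mul, Real.norm_eq_abs, Real.norm_eq_abs, abs_of_nonneg (mul_nonneg n1 n2)]
  calc |J q| * (F x q.1 * F y q.2) ≤ B * ((C * wt d q.1) * (C * wt d q.2)) :=
        mul_le_mul (hB q) (mul_le_mul n3 n4 n2 (n1.trans n3)) (mul_nonneg n1 n2) hB0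
    _ = B * C ^ 2 * (wt d q.1 * wt d q.2) := by ring

/-- the weight `κ²/((v_e-w_e)²+κ²)` -/
private noncomputable def MxB_k (e : Fin d) (κ : ℝ) (q : Vec d × Vec d) : ℝ :=
  κ ^ 2 / ((q.1 e - q.2 e) ^ 2 + κ ^ 2)

private lemma MxB_k_cont (e : Fin d) (hκ : 0 < κ) : Continuous (MxB_k e κ) := by
  unfold MxB_k
  refine continuous_const.div ?_ fun q => ?_
  · have h1 : Continuous fun q : Vec d × Vec d => q.1 e := (continuous_apply e).comp continuous_fst
    have h2 : Continuous fun q : Vec d × Vec d => q.2 e := (continuous_apply e).comp continuous_snd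
    exact ((h1.sub h2).pow 2).add continuous_const
  · positivity

private lemma MxB_k_bd (e : Fin d) (hκ : 0 < κ) (q : Vec d × Vec d) :
    0 ≤ MxB_k e κ q ∧ MxB_k e κ q ≤ 1 := by
  unfold MxB_k
  refine ⟨by positivity, ?_⟩
  rw [div_le_one (by positivity)]
  nlinarith [sq_nonneg (q.1 e - q.2 e)]

/-- the pair integral of two fibers -/
private noncomputable def MxB_S (e : Fin d) (κ : ℝ) (φ : Vec d → ℝ) (F : Vec d → Vec d → ℝ)
    (x y : Vec d) : ℝ :=
  ∫ v, F x v * ∫ w, (v e - w e) * PM e κ φ v w * F y w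

private lemma MxB_VPM (e : Fin d) (hκ : 0 < κ) (φ : Vec d → ℝ) (v w : Vec d) :
    (v e - w e) * PM e κ φ v w = φ v * φ w - φ v * φ w * MxB_k e κ (v, w) := by
  have h := Sk_mul hκ (v e - w e)
  unfold PM MxB_k
  calc (v e - w e) * (φ v * φ w * Sk κ (v e - w e))
      = φ v * φ w * ((v e - w e) * Sk κ (v e - w e)) := by ring
    _ = _ := by rw [h]; ring

private lemma MxB_S_eq (h : FS e F G) (hκ : 0 < κ) (hA : 0 ≤ A) (hφ : TF A φ) (x y : Vec d) :
    MxB_S e κ φ F x y = (∫ v, φ v * F x v) * (∫ v, φ v * F y v) -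
      ∫ q : Vec d × Vec d, (φ q.1 * φ q.2 * MxB_k e κ q) * (F x q.1 * F y q.2) := by
  have hc := TF_cont hφ
  have c1 : Continuous fun q : Vec d × Vec d => φ q.1 * φ q.2 :=
    (hc.comp continuous_fst).mul (hc.comp continuous_snd)
  have b1 : ∀ q : Vec d × Vec d, |φ q.1 * φ q.2| ≤ A * A := fun q => by
    rw [abs_mul]
    exact mul_le_mul (hφ.bd _) (hφ.bd _) (abs_nonneg _) hA
  have c2 : Continuous fun q : Vec d × Vec d => φ q.1 * φ q.2 * MxB_k e κ q :=
    c1.mul (MxB_k_cont e hκ)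
  have b2 : ∀ q : Vec d × Vec d, |φ q.1 * φ q.2 * MxB_k e κ q| ≤ A * A := fun q => by
    have hk := MxB_k_bd e hκ q
    rw [abs_mul, abs_of_nonneg hk.1]
    calc |φ q.1 * φ q.2| * MxB_k e κ q ≤ (A * A) * 1 :=
          mul_le_mul (b1 q) hk.2 hk.1 (mul_nonneg hA hA)
      _ = A * A := mul_one _
  have i1 := MxB_i2 h c1 b1 x y
  have i2 := MxB_i2 h c2 b2 x y
  have e1 : ∫ q : Vec d × Vec d, (φ q.1 * φ q.2) * (F x q.1 * F y q.2) =
      (∫ v, φ v * F x v) * (∫ v, φ v * F y v) := by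
    rw [← integral_prod_mul (μ := (volume : Measure (Vec d))) (ν := (volume : Measure (Vec d)))
      (fun v => φ v * F x v) (fun v => φ v * F y v)]
    refine integral_congr_ae (Eventually.of_forall fun q => ?_)
    simp only
    ring
  have i3 := i1.sub i2
  have e2 := integral_sub i1 i2
  rw [← e1, ← e2]
  have i3' : Integrable (fun q : Vec d × Vec d => (φ q.1 * φ q.2) * (F x q.1 * F y q.2) -
      (φ q.1 * φ q.2 * MxB_k e κ q) * (F x q.1 * F y q.2))
      ((volume : Measure (Vec d)).prod volume) := i3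
  have e3 : ∫ q : Vec d × Vec d, ((φ q.1 * φ q.2) * (F x q.1 * F y q.2) -
      (φ q.1 * φ q.2 * MxB_k e κ q) * (F x q.1 * F y q.2)) =
      ∫ v, ∫ w, ((φ v * φ w) * (F x v * F y w) -
        (φ v * φ w * MxB_k e κ (v, w)) * (F x v * F y w)) := by
    exact integral_prod _ i3'
  rw [e3]
  unfold MxB_S
  refine integral_congr_ae (Eventually.of_forall fun v => ?_)
  simp only
  rw [← integral_const_mul]
  refine integral_congr_ae (Eventually.of_forall fun w => ?_)
  simp only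
  rw [MxB_VPM e hκ φ v w]
  ring

private lemma MxB_S_bd (h : FS e F G) (hκ : 0 < κ) (hA : 0 ≤ A) (hφ : TF A φ)
    (hη : ∀ x y, ek e κ (F x) (F y) ≤ η) (x y : Vec d) :
    |∫ q : Vec d × Vec d, (φ q.1 * φ q.2 * MxB_k e κ q) * (F x q.1 * F y q.2)| ≤ A ^ 2 * η := by
  have hkb : ∀ q : Vec d × Vec d, |MxB_k e κ q| ≤ 1 := fun q => by
    have hk := MxB_k_bd e hκ q
    rw [abs_of_nonneg hk.1]
    exact hk.2
  have i1 := MxB_i2 h (MxB_k_cont e hκ) hkb x y
  have h1 := norm_integral_le_of_norm_le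
    (f := fun q : Vec d × Vec d => (φ q.1 * φ q.2 * MxB_k e κ q) * (F x q.1 * F y q.2))
    (i1.const_mul (A ^ 2)) (by
      refine Eventually.of_forall fun q => ?_
      have hk := MxB_k_bd e hκ q
      have n1 := h.nonneg x q.1
      have n2 := h.nonneg y q.2
      rw [norm_mul, Real.norm_eq_abs, Real.norm_eq_abs, abs_of_nonneg (mul_nonneg n1 n2), abs_mul,
        abs_of_nonneg hk.1, abs_mul]
      calc |φ q.1| * |φ q.2| * MxB_k e κ q * (F x q.1 * F y q.2)
          ≤ A * A * MxB_k e κ q * (F x q.1 * F y q.2) := by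
            have := mul_le_mul (hφ.bd q.1) (hφ.bd q.2) (abs_nonneg _) hA
            gcongr
            exact hk.1
        _ = A ^ 2 * (MxB_k e κ q * (F x q.1 * F y q.2)) := by ring)
  rw [integral_const_mul] at h1
  have h2 : ∫ q : Vec d × Vec d, MxB_k e κ q * (F x q.1 * F y q.2) ≤ η := hη x y
  exact h1.trans (mul_le_mul_of_nonneg_left h2 (sq_nonneg A))

/-- averages against a bounded test function are planar -/
private lemma MxB_avg_pl (h : FS e F G) (hφ : TF A φ) (hA : 0 ≤ A) :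
    PlF e fun x => ∫ v, φ v * F x v := by
  have hP : PGW (fun _ w : Vec d => φ w) :=
    ⟨(TF_cont hφ).comp continuous_snd, 0, A, hA, fun v w => by simpa using hφ.bd w⟩
  have hc := MxB_avg_c h.contF h.decF hP
  have h2 : Continuous fun x : Vec d => ((0 : Vec d), x) := by fun_prop
  refine ⟨hc.comp h2, ?_, ?_⟩
  · intro x i
    congr 1
    funext v
    rw [h.perF]
  · intro x y hxy
    congr 1
    funext v
    rw [h.plF x y v hxy]

private lemma MxB_M0 (h : FS e F G) (hM : ∀ x, ∫ v, F x v ≤ M) : 0 ≤ M :=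
  (integral_nonneg fun v => h.nonneg 0 v).trans (hM 0)

private lemma MxB_vmul (e : Fin d) (hκ : 0 < κ) (hA : 0 ≤ A) (hφ : TF A φ) :
    PGW fun v w : Vec d => (v e - w e) * PM e κ φ v w := by
  exact (PM_PGW e hκ hA hφ).vmul e

private lemma MxB_main (h : FS e F G) (hκ : 0 < κ) (hA : 0 ≤ A) (hφ : TF A φ)
    (hη : ∀ x y, ek e κ (F x) (F y) ≤ η) :
    Vr φ F ≤ (∫ p, F p.2 p.1 * (∫ w, (p.1 e - w e) * PM e κ φ p.1 w * F p.2 w) ∂(nu d)) -
      (∫ p, F p.2 p.1 * (∫ z in Ioo (-((1 : ℝ) / 2)) (1 / 2),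
          ∫ w, (p.1 e - w e) * PM e κ φ p.1 w * F (p.2 - Pi.single e z) w) ∂(nu d)) +
      2 * A ^ 2 * η := by
  have hV := MxB_vmul e hκ hA hφ
  have hk1 : ∀ z ∈ Ioo (-((1 : ℝ) / 2)) (1 / 2), |(1 : ℝ)| ≤ 1 := fun z _ => by simp
  have i1 : Integrable (fun p : Vec d × Vec d => F p.2 p.1 *
      ∫ w, (p.1 e - w e) * PM e κ φ p.1 w * F p.2 w) (nu d) := by
    obtain ⟨N, C, hC, hb⟩ := MxB_avg_b h.decF hV
    exact MxB_int h.contF h.decF (MxB_avg_c h.contF h.decF hV) hC fun p => hb p.2 p.1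
  have i2 : Integrable (fun p : Vec d × Vec d => F p.2 p.1 *
      ∫ z in Ioo (-((1 : ℝ) / 2)) (1 / 2), ∫ w, (p.1 e - w e) * PM e κ φ p.1 w *
        F (p.2 - Pi.single e z) w) (nu d) := by
    obtain ⟨N, C, hC, hb⟩ := MxB_zint_b h.decF hV e one_pos (by norm_num : (0 : ℝ) ≤ 1) hk1
    have hc := MxB_zint_c h.contF h.decF hV e one_pos measurable_const hk1
    simp only [one_mul] at hb hc
    exact MxB_int h.contF h.decF hc hC fun p => hb p.2 p.1
  set m : Vec d → ℝ := fun x => ∫ v, φ v * F x v with hm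
  have hmp : PlF e m := MxB_avg_pl h hφ hA
  have hm1 := pl_int hmp
  have hm2 : Integrable (fun x => m x ^ 2) (muD d) := by
    refine pl_int (e := e) ⟨hmp.cont.pow 2, fun x i => ?_, fun x y hxy => ?_⟩
    · show m (x + Pi.single i 1) ^ 2 = m x ^ 2
      rw [hmp.per]
    · show m x ^ 2 = m y ^ 2
      rw [hmp.pl x y hxy]
  have hpr : IsProbabilityMeasure (muD d) := ⟨muD_univ⟩
  -- first term
  have b1 : (∫ x, m x ^ 2 ∂(muD d)) - A ^ 2 * η ≤
      ∫ p, F p.2 p.1 * (∫ w, (p.1 e - w e) * PM e κ φ p.1 w * F p.2 w) ∂(nu d) := by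
    have i1' := i1
    unfold nu at i1' ⊢
    rw [integral_prod_symm _ i1']
    have e1 : (∫ x, m x ^ 2 ∂(muD d)) - A ^ 2 * η = ∫ x, (m x ^ 2 - A ^ 2 * η) ∂(muD d) := by
      rw [integral_sub hm2 (integrable_const _), integral_const, probReal_univ, one_smul]
    rw [e1]
    refine integral_mono (hm2.sub (integrable_const _)) i1'.integral_prod_right fun x => ?_
    have s1 := MxB_S_eq h hκ hA hφ x x
    have s2 := (abs_le.1 (MxB_S_bd h hκ hA hφ hη x x)).2
    show m x ^ 2 - A ^ 2 * η ≤ MxB_S e κ φ F x x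
    rw [s1, hm]
    simp only
    nlinarith
  -- second term
  have hBv : ∀ v, PlF e fun y => ∫ w, (v e - w e) * PM e κ φ v w * F y w := by
    intro v
    have hc := MxB_avg_c h.contF h.decF hV
    have h2 : Continuous fun x : Vec d => (v, x) := by fun_prop
    refine ⟨hc.comp h2, ?_, ?_⟩
    · intro x i
      congr 1
      funext w
      rw [h.perF]
    · intro x y hxy
      congr 1
      funext w
      rw [h.plF x y w hxy]
  have b2 : ∫ p, F p.2 p.1 * (∫ z in Ioo (-((1 : ℝ) / 2)) (1 / 2),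
      ∫ w, (p.1 e - w e) * PM e κ φ p.1 w * F (p.2 - Pi.single e z) w) ∂(nu d) ≤
      (∫ x, m x ∂(muD d)) ^ 2 + A ^ 2 * η := by
    have i2' := i2
    unfold nu at i2' ⊢
    rw [integral_prod_symm _ i2']
    have e1 : (∫ x, m x ∂(muD d)) ^ 2 + A ^ 2 * η =
        ∫ x, (m x * (∫ y, m y ∂(muD d)) + A ^ 2 * η) ∂(muD d) := by
      rw [integral_add (hm1.mul_const _) (integrable_const _), integral_const, probReal_univ,
        one_smul, integral_mul_const]
      ring
    rw [e1]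
    refine integral_mono i2'.integral_prod_right ((hm1.mul_const _).add (integrable_const _))
      fun x => ?_
    show ∫ v, F x v * (∫ z in Ioo (-((1 : ℝ) / 2)) (1 / 2),
      ∫ w, (v e - w e) * PM e κ φ v w * F (x - Pi.single e z) w) ≤
      m x * (∫ y, m y ∂(muD d)) + A ^ 2 * η
    have e2 : ∀ v, (∫ z in Ioo (-((1 : ℝ) / 2)) (1 / 2),
        ∫ w, (v e - w e) * PM e κ φ v w * F (x - Pi.single e z) w) =
        ∫ y, ∫ w, (v e - w e) * PM e κ φ v w * F y w ∂volume ∂(muD d) := by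
      intro v
      exact loc_eq (hBv v) x
    simp only [e2]
    -- Fubini
    have i3 : Integrable (fun p : Vec d × Vec d => F x p.1 *
        ∫ w, (p.1 e - w e) * PM e κ φ p.1 w * F p.2 w) (nu d) := by
      obtain ⟨N, C, hC, hb⟩ := MxB_avg_b h.decF hV
      have hcx : Continuous fun p : Vec d × Vec d => (fun _ : Vec d => F x) p.1 p.2 :=
        (MxB_cF h x).comp continuous_snd
      have hdx : RX (fun _ : Vec d => F x) := fun N => by
        obtain ⟨C, hC⟩ := h.decF N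
        exact ⟨C, fun _ v => hC x v⟩
      exact MxB_int hcx hdx (MxB_avg_c h.contF h.decF hV) hC fun p => hb p.2 p.1
    unfold nu at i3
    have e3 : ∫ v, F x v * ∫ y, ∫ w, (v e - w e) * PM e κ φ v w * F y w ∂volume ∂(muD d) =
        ∫ y, MxB_S e κ φ F x y ∂(muD d) := by
      have e4 := integral_integral_swap (f := fun v y => F x v *
        ∫ w, (v e - w e) * PM e κ φ v w * F y w) (μ := (volume : Measure (Vec d))) (ν := muD d) i3
      unfold MxB_S
      rw [← e4]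
      refine integral_congr_ae (Eventually.of_forall fun v => ?_)
      simp only
      rw [integral_const_mul]
    rw [e3]
    have e5 : m x * (∫ y, m y ∂(muD d)) + A ^ 2 * η = ∫ y, (m x * m y + A ^ 2 * η) ∂(muD d) := by
      rw [integral_add (hm1.const_mul _) (integrable_const _), integral_const, probReal_univ,
        one_smul, integral_const_mul]
    rw [e5]
    refine integral_mono i3.integral_prod_right ((hm1.const_mul _).add (integrable_const _))
      fun y => ?_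
    show MxB_S e κ φ F x y ≤ m x * m y + A ^ 2 * η
    have s1 := MxB_S_eq h hκ hA hφ x y
    have s2 := (abs_le.1 (MxB_S_bd h hκ hA hφ hη x y)).1
    rw [s1, hm]
    simp only
    linarith
  have hVr : Vr φ F = (∫ x, m x ^ 2 ∂(muD d)) - (∫ x, m x ∂(muD d)) ^ 2 := rfl
  rw [hVr]
  linarith

theorem mix_slice (h : FS e F G) (hκ : 0 < κ) (hA : 0 ≤ A) (hφ : TF A φ) (hE : PlF e E)
    (hE0 : ∀ x, 0 ≤ E x) (hG : ∀ x v, |∫ w, PM e κ φ v w * G x w| ≤ E x)
    (hM : ∀ x, ∫ v, F x v ≤ M) (hη : ∀ x y, ek e κ (F x) (F y) ≤ η) :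
    Vr φ F ≤ (∫ p, (G p.2 p.1 * pot e 1 (PM e κ φ) F p.2 p.1 +
      F p.2 p.1 * dpot e 1 (PM e κ φ) F G p.2 p.1) ∂(nu d)) + M * (∫ x, E x ∂(muD d)) +
      2 * A ^ 2 * η := by
  have hΦ := PM_PGW e hκ hA hφ
  have hV := MxB_vmul e hκ hA hφ
  have hk1 : ∀ z ∈ Ioo (-((1 : ℝ) / 2)) (1 / 2), |(1 : ℝ)| ≤ 1 := fun z _ => by simp
  have hkk : ∀ z ∈ Ioo (-((1 : ℝ) / 2)) (1 / 2), |kl 1 z| ≤ 1 / 2 := fun z hz => kl_abs one_pos hz
  have hM0 := MxB_M0 h hM
  -- integrability of the four pieces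
  have i0 : Integrable (fun p : Vec d × Vec d =>
      G p.2 p.1 * pot e 1 (PM e κ φ) F p.2 p.1) (nu d) := by
    obtain ⟨N, C, hC, hb⟩ := MxB_zint_b h.decF hΦ e one_pos (by norm_num : (0 : ℝ) ≤ 1 / 2) hkk
    exact MxB_int h.contG h.decG (MxB_zint_c h.contF h.decF hΦ e one_pos (kl_meas 1) hkk) hC
      fun p => hb p.2 p.1
  have i1 : Integrable (fun p : Vec d × Vec d => F p.2 p.1 *
      ∫ w, (p.1 e - w e) * PM e κ φ p.1 w * F p.2 w) (nu d) := by
    obtain ⟨N, C, hC, hb⟩ := MxB_avg_b h.decF hV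
    exact MxB_int h.contF h.decF (MxB_avg_c h.contF h.decF hV) hC fun p => hb p.2 p.1
  have i2 : Integrable (fun p : Vec d × Vec d => F p.2 p.1 *
      ∫ z in Ioo (-((1 : ℝ) / 2)) (1 / 2), ∫ w, (p.1 e - w e) * PM e κ φ p.1 w *
        F (p.2 - Pi.single e z) w) (nu d) := by
    obtain ⟨N, C, hC, hb⟩ := MxB_zint_b h.decF hV e one_pos (by norm_num : (0 : ℝ) ≤ 1) hk1
    have hc := MxB_zint_c h.contF h.decF hV e one_pos measurable_const hk1
    simp only [one_mul] at hb hc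
    exact MxB_int h.contF h.decF hc hC fun p => hb p.2 p.1
  have i3 : Integrable (fun p : Vec d × Vec d => F p.2 p.1 *
      ∫ z in Ioo (-((1 : ℝ) / 2)) (1 / 2), kl 1 z *
        ∫ w, PM e κ φ p.1 w * G (p.2 - Pi.single e z) w) (nu d) := by
    obtain ⟨N, C, hC, hb⟩ := MxB_zint_b h.decG hΦ e one_pos (by norm_num : (0 : ℝ) ≤ 1 / 2) hkk
    exact MxB_int h.contF h.decF (MxB_zint_c h.contG h.decG hΦ e one_pos (kl_meas 1) hkk) hC
      fun p => hb p.2 p.1
  -- the decomposition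
  have hsplit : ∫ p, (G p.2 p.1 * pot e 1 (PM e κ φ) F p.2 p.1 +
        F p.2 p.1 * dpot e 1 (PM e κ φ) F G p.2 p.1) ∂(nu d) =
      (∫ p, G p.2 p.1 * pot e 1 (PM e κ φ) F p.2 p.1 ∂(nu d)) +
      (((∫ p, F p.2 p.1 * (∫ w, (p.1 e - w e) * PM e κ φ p.1 w * F p.2 w) ∂(nu d)) -
        ∫ p, F p.2 p.1 * (∫ z in Ioo (-((1 : ℝ) / 2)) (1 / 2),
          ∫ w, (p.1 e - w e) * PM e κ φ p.1 w * F (p.2 - Pi.single e z) w) ∂(nu d)) +
        ∫ p, F p.2 p.1 * (∫ z in Ioo (-((1 : ℝ) / 2)) (1 / 2), kl 1 z *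
          ∫ w, PM e κ φ p.1 w * G (p.2 - Pi.single e z) w) ∂(nu d)) := by
    have e12 := integral_sub i1 i2
    have e123 := integral_add (i1.sub i2) i3
    have e0123 := integral_add i0 ((i1.sub i2).add i3)
    rw [← e12]
    simp only [Pi.sub_apply, Pi.add_apply] at e123 e0123
    rw [← e123, ← e0123]
    refine integral_congr_ae (Eventually.of_forall fun p => ?_)
    simp only [dpot]
    ring
  -- collision terms
  have hG' : ∀ x v, |∫ w, PM e κ φ v w * G x w| ≤ 1 * (jb v ^ (0 : ℝ) * E x) := fun x v => by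
    rw [Real.rpow_zero, one_mul, one_mul]
    exact hG x v
  have hη' : ∀ x, loc e 1 (fun y => ∫ v, F y v * jb v ^ (0 : ℝ)) x ≤ M := by
    intro x
    have hp := pl_avg h (r := 0)
    have hpr : IsProbabilityMeasure (muD d) := ⟨muD_univ⟩
    rw [loc_eq hp x]
    have h1 : ∫ y, (∫ v, F y v * jb v ^ (0 : ℝ)) ∂(muD d) ≤ ∫ _y, M ∂(muD d) := by
      refine integral_mono (pl_int hp) (integrable_const _) fun y => ?_
      simp only [Real.rpow_zero, mul_one]
      exact hM y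
    rw [integral_const, probReal_univ, one_smul] at h1
    exact h1
  have b0 := sli_first h hΦ (fun v w => PM_anti e κ φ v w) one_pos hE hE0 zero_le_one hG' hη'
  have b3 := sli_third h hΦ one_pos hE hE0 zero_le_one hG' hη'
  have bm := MxB_main h hκ hA hφ hη
  rw [hsplit]
  have c0 := (abs_le.1 b0).1
  have c3 := (abs_le.1 b3).1
  linarith

theorem pot_bd' (h : FS e F G) {Φ : Vec d → Vec d → ℝ} (hΦ : PGW Φ) {B : ℝ}
    (hB : ∀ v w, |Φ v w| ≤ B) (hM : ∀ x, ∫ v, F x v ≤ M) :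
    |∫ p, F p.2 p.1 * pot e 1 Φ F p.2 p.1 ∂(nu d)| ≤ B * M ^ 2 := by
  have hM0 := MxB_M0 h hM
  have hB0 : 0 ≤ B := (abs_nonneg _).trans (hB 0 0)
  have hpr : IsProbabilityMeasure (muD d) := ⟨muD_univ⟩
  have hiF : ∀ x, Integrable (F x) := fun x => by
    have := MxB_i1 h (J := fun _ => (1 : ℝ)) continuous_const (B := 1) (fun v => by simp) x
    simpa only [one_mul] using this
  -- pointwise bound of the average
  have ha : ∀ x v, |∫ w, Φ v w * F x w| ≤ B * M := by
    intro x v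
    have h1 := norm_integral_le_of_norm_le (f := fun w => Φ v w * F x w) ((hiF x).const_mul B) (by
      refine Eventually.of_forall fun w => ?_
      rw [norm_mul, Real.norm_eq_abs, Real.norm_eq_abs, abs_of_nonneg (h.nonneg x w)]
      exact mul_le_mul_of_nonneg_right (hB v w) (h.nonneg x w))
    rw [integral_const_mul] at h1
    exact h1.trans (mul_le_mul_of_nonneg_left (hM x) hB0)
  have hp : ∀ x v, |pot e 1 Φ F x v| ≤ 1 / 2 * (B * M) := by
    intro x v
    unfold pot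
    have h1 := norm_setIntegral_le_of_norm_le_const (μ := (volume : Measure ℝ))
      (s := Ioo (-((1 : ℝ) / 2)) (1 / 2)) (C := 1 / 2 * (B * M))
      (f := fun z => kl 1 z * ∫ w, Φ v w * F (x - (Pi.single e z : Vec d)) w) (by simp) (by
        intro z hz
        rw [norm_mul]
        exact mul_le_mul (kl_abs one_pos hz) (ha _ v) (norm_nonneg _) (by norm_num))
    have h2 : (volume : Measure ℝ).real (Ioo (-((1 : ℝ) / 2)) (1 / 2)) = 1 := by
      rw [Real.volume_real_Ioo_of_le (by norm_num)]; norm_num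
    rw [h2, Real.norm_eq_abs, mul_one] at h1
    exact h1
  have iF : Integrable (fun p : Vec d × Vec d => F p.2 p.1) (nu d) := by
    have := MxB_int h.contF h.decF (J := fun _ => (1 : ℝ)) continuous_const (N := 0) (C := 1)
      zero_le_one (fun p => by simp)
    simpa only [mul_one] using this
  have h1 := norm_integral_le_of_norm_le (μ := nu d) (f := fun p => F p.2 p.1 * pot e 1 Φ F p.2 p.1)
    (iF.const_mul (1 / 2 * (B * M))) (by
      refine Eventually.of_forall fun p => ?_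
      have h0 := h.nonneg p.2 p.1
      rw [norm_mul, Real.norm_eq_abs, Real.norm_eq_abs, abs_of_nonneg h0]
      calc F p.2 p.1 * |pot e 1 Φ F p.2 p.1| ≤ F p.2 p.1 * (1 / 2 * (B * M)) :=
            mul_le_mul_of_nonneg_left (hp _ _) h0
        _ = 1 / 2 * (B * M) * F p.2 p.1 := by ring)
  rw [integral_const_mul] at h1
  have h2 : ∫ p, F p.2 p.1 ∂(nu d) ≤ M := by
    have iF' := iF
    unfold nu at iF' ⊢
    rw [integral_prod_symm _ iF']
    have h3 : ∫ x, (∫ v, F x v) ∂(muD d) ≤ ∫ _x, M ∂(muD d) :=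
      integral_mono iF'.integral_prod_right (integrable_const _) fun x => hM x
    rw [integral_const, probReal_univ, one_smul] at h3
    exact h3
  have h3 : 0 ≤ B * M := mul_nonneg hB0 hM0
  calc |∫ p, F p.2 p.1 * pot e 1 Φ F p.2 p.1 ∂(nu d)|
      ≤ 1 / 2 * (B * M) * ∫ p, F p.2 p.1 ∂(nu d) := h1
    _ ≤ 1 / 2 * (B * M) * M := mul_le_mul_of_nonneg_left h2 (by positivity)
    _ ≤ B * M ^ 2 := by nlinarith [mul_nonneg h3 hM0]

end Pool.Agent.H37.LT
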