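import Pool.Agent.H37.LT.Defs
import Pool.Agent.H82.CM.LowK

/-!
# Module PrA: the bad set of collisions has small measure

* `sq_ineq`: `x, y > 0`: `2 (√x - √y)² ≤ (x - y)(log x - log y)`. By symmetry `y ≤ x`; `a = √x ≥ b = √y > 0`, `log x - log y = 2 log (a/b) ≥ 2 (1 - b/a)` (`Real.one_sub_inv_le_log_of_pos`), `(a² - b²) 2 (a - b)/a ≥ 2 (a-b)²` as `a + b ≥ a`.
* `bad_small`: the functions `F_n(p) = gau p.1 * gau p.2.1 * 1[len (v-w) < 1/(n+1) ∨ 1 - 1/(n+1) < cosTh v w σ]` decrease to `0` almost everywhere for `mu3` (outside `{v = w}` and `{cosTh = 1}`, which are null: `ae_good` for the first; second: for `v ≠ w`, `cosTh = dot (dirk v w) σ = 1`, `nsq σ = 1` force `σ = dirk v w` (`nsq_sub_dirk`), and `surf d {σ₀} = 0` for `d ≥ 2`: by `surf_formula`/`polar` the cone over a point is contained in a line, which is null (`ray_null` in H82/BK/CVa, or `AngInt`: for `v ≠ w` the function `aw β r v w` is integrable for `surf`; or `toSphere`), dominated by `gau gau` (integrable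 for `mu3`, `surf` finite). Dominated convergence (`tendsto_integral_of_dominated_convergence`); take `n` large. `r = 1/(n+1)`, `ε₁ = 1/(n+1)`.
-/

set_option autoImplicit false

open MeasureTheory Set Filter Topology Pool.Agent.H25.Kin
open Pool.Agent.H15.AV (gau UNice)

namespace Pool.Agent.H37.LT

variable {d : ℕ}

private lemma PrA_sq {x y : ℝ} (hx : 0 < x) (hy : 0 < y) (h : y ≤ x) :
    2 * (Real.sqrt x - Real.sqrt y) ^ 2 ≤ (x - y) * (Real.log x - Real.log y) := by
  have ha : 0 < Real.sqrt x := Real.sqrt_pos.2 hx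
  have hb : 0 < Real.sqrt y := Real.sqrt_pos.2 hy
  have hab : Real.sqrt y ≤ Real.sqrt x := Real.sqrt_le_sqrt h
  have ex : x = Real.sqrt x ^ 2 := (Real.sq_sqrt hx.le).symm
  have ey : y = Real.sqrt y ^ 2 := (Real.sq_sqrt hy.le).symm
  have lx : Real.log x = 2 * Real.log (Real.sqrt x) := by
    rw [Real.log_sqrt hx.le]; ring
  have ly : Real.log y = 2 * Real.log (Real.sqrt y) := by
    rw [Real.log_sqrt hy.le]; ring
  set a := Real.sqrt x
  set b := Real.sqrt y
  have h1 : 1 - (a / b)⁻¹ ≤ Real.log (a / b) := Real.one_sub_inv_le_log_of_pos (div_pos ha hb)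
  rw [Real.log_div ha.ne' hb.ne', inv_div] at h1
  have h2 : (a - b) / a ≤ Real.log a - Real.log b := by
    have : (a - b) / a = 1 - b / a := by field_simp
    rw [this]
    exact h1
  have h3 : 0 ≤ a ^ 2 - b ^ 2 := by nlinarith
  rw [lx, ly, ex, ey]
  have h4 : (a ^ 2 - b ^ 2) * (2 * ((a - b) / a)) ≤ (a ^ 2 - b ^ 2) * (2 * Real.log a - 2 * Real.log b) := by
    refine mul_le_mul_of_nonneg_left ?_ h3
    linarith
  refine le_trans ?_ h4
  have h5 : (a ^ 2 - b ^ 2) * (2 * ((a - b) / a)) = 2 * (a - b) ^ 2 * ((a + b) / a) := by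
    field_simp
    ring
  rw [h5]
  have h6 : 1 ≤ (a + b) / a := by
    rw [le_div_iff₀ ha]
    linarith
  nlinarith [mul_nonneg (mul_nonneg (by norm_num : (0:ℝ) ≤ 2) (sq_nonneg (a - b))) (sub_nonneg.2 h6)]

theorem sq_ineq {x y : ℝ} (hx : 0 < x) (hy : 0 < y) :
    2 * (Real.sqrt x - Real.sqrt y) ^ 2 ≤ (x - y) * (Real.log x - Real.log y) := by
  rcases le_total y x with h | h
  · exact PrA_sq hx hy h
  · have h1 := PrA_sq hy hx h
    have e1 : (Real.sqrt x - Real.sqrt y) ^ 2 = (Real.sqrt y - Real.sqrt x) ^ 2 := by ring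
    have e2 : (x - y) * (Real.log x - Real.log y) = (y - x) * (Real.log y - Real.log x) := by ring
    rw [e1, e2]
    exact h1

/-- the bad collisions: small relative velocity or grazing -/
def Bad (d : ℕ) (r : ℝ) : Set (Vec d × Vec d × Vec d) :=
  {p | len (p.1 - p.2.1) < r ∨ 1 - r < cosTh p.1 p.2.1 p.2.2}

private lemma PrA_len : Measurable fun p : Vec d × Vec d × Vec d => len (p.1 - p.2.1) :=
  (continuous_len.comp (by fun_prop : Continuous fun p : Vec d × Vec d × Vec d =>
    p.1 - p.2.1)).measurable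

theorem bad_meas (r : ℝ) : MeasurableSet (Bad d r) :=
  (measurableSet_lt PrA_len measurable_const).union
    (measurableSet_lt measurable_const measurable_cosTh)

private lemma PrA_gau : Integrable (fun v : Vec d => gau v) := by
  have h : (fun v : Vec d => gau v) = fun v : Vec d => ∏ i, Real.exp (-1 * (v i) ^ 2) := by
    funext v
    unfold gau nsq
    rw [← Real.exp_sum]
    congr 1
    simp
  rw [h]
  exact MeasureTheory.Integrable.fintype_prod (f := fun (_ : Fin d) (x : ℝ) => Real.exp (-1 * x ^ 2))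
    (fun i => integrable_exp_neg_mul_sq one_pos)

theorem gg_int (hd : 1 ≤ d) :
    Integrable (fun p : Vec d × Vec d × Vec d => gau p.1 * gau p.2.1) (mu3 d) := by
  have h1 : Integrable (fun q : Vec d × Vec d => gau q.1)
      ((volume : Measure (Vec d)).prod (surf d)) := by
    have := (PrA_gau (d := d)).mul_prod (integrable_const (μ := surf d) (1 : ℝ))
    simpa using this
  exact (PrA_gau (d := d)).mul_prod h1

private lemma PrA_ray (hd : 2 ≤ d) {σ : Vec d} (hσ : nsq σ = 1) (w : Vec d) :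
    (volume : Measure (Vec d)) {v : Vec d | v ≠ w ∧ 1 ≤ cosTh v w σ} = 0 := by
  have h1 := Pool.Agent.H82.BK.ray_null (σ := σ) hd hσ
  have h2 : (volume : Measure (Vec d)) ((fun v : Vec d => w - v) ⁻¹'
      {k : Vec d | ¬ (-len k < dot k σ)}) = 0 := by
    rw [(Measure.measurePreserving_sub_left (volume : Measure (Vec d)) w).measure_preimage
      (NullMeasurableSet.of_null h1)]
    exact h1
  refine measure_mono_null ?_ h2
  rintro v ⟨hv, hc⟩
  show ¬ (-len (w - v) < dot (w - v) σ)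
  push Not
  have hp : 0 < len (v - w) := len_pos (sub_ne_zero.2 hv)
  unfold cosTh at hc
  rw [le_div_iff₀ hp, one_mul] at hc
  have e1 : len (w - v) = len (v - w) := len_comm w v
  have e2 : dot (w - v) σ = -dot σ (v - w) := by
    unfold dot
    rw [← Finset.sum_neg_distrib]
    refine Finset.sum_congr rfl fun i _ => ?_
    simp only [Pi.sub_apply]
    ring
  rw [e1, e2]
  linarith

private lemma PrA_null (hd : 2 ≤ d) :
    ∀ᵐ p ∂(mu3 d), p.1 ≠ p.2.1 ∧ cosTh p.1 p.2.1 p.2.2 < 1 := by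
  have hg := ae_good (d := d) (by omega)
  have hS : MeasurableSet {p : Vec d × Vec d × Vec d | p.1 ≠ p.2.1 ∧ 1 ≤ cosTh p.1 p.2.1 p.2.2} := by
    refine MeasurableSet.inter ?_ ?_
    · exact (isClosed_eq (continuous_fst) (continuous_fst.comp continuous_snd)).measurableSet.compl
    · exact measurableSet_le measurable_const measurable_cosTh
  have h0 : (mu3 d) {p : Vec d × Vec d × Vec d | p.1 ≠ p.2.1 ∧ 1 ≤ cosTh p.1 p.2.1 p.2.2} = 0 := by
    rw [Measure.prod_apply_symm hS, lintegral_eq_zero_iff' ?_]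
    · have h1 : ∀ᵐ q ∂((volume : Measure (Vec d)).prod (surf d)), nsq q.2 = 1 := by
        refine (Measure.ae_prod_iff_ae_ae ?_).2 (Eventually.of_forall fun w => surf_ae)
        exact (isClosed_eq (continuous_sq.comp continuous_snd) continuous_const).measurableSet
      filter_upwards [h1] with q hq
      exact PrA_ray hd hq q.1
    · exact (measurable_measure_prodMk_right hS).aemeasurable
  have h1 : ∀ᵐ p ∂(mu3 d), ¬ (p.1 ≠ p.2.1 ∧ 1 ≤ cosTh p.1 p.2.1 p.2.2) := by
    rw [ae_iff]
    simpa using h0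
  filter_upwards [hg, h1] with p hp hp'
  refine ⟨hp.1, ?_⟩
  by_contra hc
  exact hp' ⟨hp.1, not_lt.1 hc⟩

theorem bad_small (hd : 2 ≤ d) {ε : ℝ} (hε : 0 < ε) : ∃ r : ℝ, 0 < r ∧ r < 1 ∧
    ∫ p in Bad d r, gau p.1 * gau p.2.1 ∂(mu3 d) ≤ ε := by
  have hgi := gg_int (d := d) (by omega)
  have hlim : Tendsto (fun n : ℕ => ∫ p, (Bad d (1 / ((n : ℝ) + 1))).indicator
      (fun p => gau p.1 * gau p.2.1) p ∂(mu3 d)) atTop (𝓝 (∫ _p, (0 : ℝ) ∂(mu3 d))) := by
    refine tendsto_integral_of_dominated_convergence (fun p => gau p.1 * gau p.2.1) ?_ hgi ?_ ?_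
    · intro n
      exact hgi.aestronglyMeasurable.indicator (bad_meas _)
    · intro n
      refine Eventually.of_forall fun p => ?_
      have h0 : 0 ≤ gau p.1 * gau p.2.1 := by
        unfold gau
        positivity
      by_cases hp : p ∈ Bad d (1 / ((n : ℝ) + 1))
      · rw [indicator_of_mem hp, Real.norm_eq_abs, abs_of_nonneg h0]
      · rw [indicator_of_notMem hp, norm_zero]
        exact h0
    · filter_upwards [PrA_null hd] with p hp
      have hlen : 0 < len (p.1 - p.2.1) := len_pos (sub_ne_zero.2 hp.1)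
      have h1 : Tendsto (fun n : ℕ => 1 / ((n : ℝ) + 1)) atTop (𝓝 0) :=
        tendsto_one_div_add_atTop_nhds_zero_nat
      have h2 : ∀ᶠ n : ℕ in atTop, 1 / ((n : ℝ) + 1) < len (p.1 - p.2.1) :=
        h1.eventually (gt_mem_nhds hlen)
      have h3 : ∀ᶠ n : ℕ in atTop, 1 / ((n : ℝ) + 1) < 1 - cosTh p.1 p.2.1 p.2.2 :=
        h1.eventually (gt_mem_nhds (by linarith [hp.2]))
      refine tendsto_const_nhds.congr' ?_
      filter_upwards [h2, h3] with n hn2 hn3
      rw [indicator_of_notMem]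
      rintro (hc | hc)
      · linarith
      · linarith
  rw [integral_zero] at hlim
  have h1 : ∀ᶠ n : ℕ in atTop, ∫ p, (Bad d (1 / ((n : ℝ) + 1))).indicator
      (fun p => gau p.1 * gau p.2.1) p ∂(mu3 d) < ε := hlim.eventually (gt_mem_nhds hε)
  obtain ⟨n, hn1, hn2⟩ := (h1.and (eventually_ge_atTop 1)).exists
  have hn : (1 : ℝ) ≤ n := by exact_mod_cast hn2
  refine ⟨1 / ((n : ℝ) + 1), by positivity, ?_, ?_⟩
  · rw [div_lt_one (by positivity)]
    linarith
  · rw [integral_indicator (bad_meas _)] at hn1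
    exact hn1.le

end Pool.Agent.H37.LT
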